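import Pool.Agent.W5h82.Trace.Core

/-!
The law of a single action, first step equations, law of lists of actions.
-/

set_option autoImplicit false

open MeasureTheory ENNReal

namespace W5h82.Trace

instance instMSList {α : Type*} : MeasurableSpace (List α) := ⊤
instance instDMSList {α : Type*} : DiscreteMeasurableSpace (List α) := ⟨fun _ => trivial⟩

/-- weight of an action -/
noncomputable def wt (p : ℝ) (x : Act) : ℝ :=
  (p/4) ^ x.1.length * (if x.2 then 1 - p else p/2)

/-- the law of a single action -/
noncomputable def act (p : ℝ) : Measure Act :=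
  Measure.sum fun x : Act => ENNReal.ofReal (wt p x) • Measure.dirac x

lemma lintegral_act (p : ℝ) (F : Act → ℝ≥0∞) :
    ∫⁻ x, F x ∂(act p) = ∑' x, ENNReal.ofReal (wt p x) * F x := by
  unfold act
  rw [lintegral_sum_measure]
  congr 1
  ext x
  rw [lintegral_smul_measure, lintegral_dirac]
  rfl

lemma tsum_list (G : List Bool → ℝ≥0∞) :
    ∑' l, G l = G [] + (∑' l, G (true :: l) + ∑' l, G (false :: l)) := by
  have h1 : ∑' l, G l = G [] + ∑' l, (if l = [] then 0 else G l) := by
    convert ENNReal.tsum_eq_add_tsum_ite (f := G) []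
  rw [h1]
  congr 1
  have inj : Function.Injective (fun q : Bool × List Bool => q.1 :: q.2) := by
    rintro ⟨a, b⟩ ⟨c, d⟩ h
    simp at h
    simp [h]
  have hs : Function.support (fun l : List Bool => if l = [] then (0:ℝ≥0∞) else G l)
      ⊆ Set.range (fun q : Bool × List Bool => q.1 :: q.2) := by
    intro l hl
    rcases l with _ | ⟨b, l⟩
    · simp at hl
    · exact ⟨(b, l), rfl⟩
  rw [← inj.tsum_eq hs, ENNReal.tsum_prod', tsum_bool, add_comm]
  simp

lemma tsum_pow_length (q : ℝ≥0∞) : ∑' l : List Bool, q ^ l.length = (1 - 2 * q)⁻¹ := by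
  rw [← List.equivSigmaTuple.symm.tsum_eq, ENNReal.tsum_sigma']
  have : ∀ n : ℕ, ∑' b : Fin n → Bool,
      q ^ (List.equivSigmaTuple.symm (⟨n, b⟩ : Σ n, Fin n → Bool)).length = (2 * q) ^ n := by
    intro n
    rw [tsum_fintype]
    have : ∀ b : Fin n → Bool,
        q ^ (List.equivSigmaTuple.symm (⟨n, b⟩ : Σ n, Fin n → Bool)).length = q ^ n := by
      intro b
      simp [List.equivSigmaTuple]
    simp only [this]
    simp [mul_pow]
  simp only [this]
  exact ENNReal.tsum_geometric _

lemma wt_nonneg {p : ℝ} (h0 : 0 < p) (h1 : p < 1) (x : Act) : 0 ≤ wt p x := by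
  unfold wt
  split
  · have : 0 ≤ 1 - p := by linarith
    positivity
  · positivity

/-- exponential moments of the insertions -/
lemma lintegral_act_pow {p : ℝ} (h0 : 0 < p) (q : ℝ≥0∞) (c d : ℝ≥0∞) :
    ∫⁻ x, q ^ x.1.length * (if x.2 then c else d) ∂(act p)
      = (1 - 2 * (ENNReal.ofReal (p/4) * q))⁻¹
        * (ENNReal.ofReal (1-p) * c + ENNReal.ofReal (p/2) * d) := by
  rw [lintegral_act, ENNReal.tsum_prod']
  have : ∀ u : List Bool, ∑' k : Bool, ENNReal.ofReal (wt p (u, k)) *
      (q ^ (u, k).1.length * (if (u, k).2 then c else d))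
      = (ENNReal.ofReal (p/4) * q) ^ u.length
        * (ENNReal.ofReal (1-p) * c + ENNReal.ofReal (p/2) * d) := by
    intro u
    rw [tsum_bool]
    simp only [wt, Bool.false_eq_true, ↓reduceIte]
    rw [ENNReal.ofReal_mul (by positivity), ENNReal.ofReal_mul (by positivity),
      ENNReal.ofReal_pow (by positivity)]
    ring
  simp only [this]
  rw [ENNReal.tsum_mul_right, tsum_pow_length]

instance act_prob (p : ℝ) [hp : Fact (0 < p ∧ p < 1)] : IsProbabilityMeasure (act p) := by
  obtain ⟨h0, h1⟩ := hp.out
  constructor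
  have h := lintegral_act_pow h0 1 1 1
  simp only [one_pow, ite_self, mul_one, lintegral_const, one_mul] at h
  rw [h, ← ENNReal.ofReal_add (by linarith) (by positivity),
    show (2:ℝ≥0∞) = ENNReal.ofReal 2 by simp, ← ENNReal.ofReal_mul (by norm_num),
    show (1:ℝ≥0∞) = ENNReal.ofReal 1 by simp, ← ENNReal.ofReal_sub _ (by positivity),
    show 1 - p + p/2 = 1 - 2 * (p/4) by ring]
  rw [ENNReal.inv_mul_cancel]
  · simp
  · simp only [ne_eq, ENNReal.ofReal_eq_zero, not_le]; linarith
  · simp

/-- First step equation for a single action. -/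
lemma lintegral_act_step {p : ℝ} (h0 : 0 < p) (F : Act → ℝ≥0∞) :
    ∫⁻ x, F x ∂(act p) = ENNReal.ofReal (1-p) * F ([], true) + ENNReal.ofReal (p/2) * F ([], false)
      + ENNReal.ofReal (p/4) * (∫⁻ x, F (true :: x.1, x.2) ∂(act p)
        + ∫⁻ x, F (false :: x.1, x.2) ∂(act p)) := by
  rw [lintegral_act, lintegral_act, lintegral_act, ENNReal.tsum_prod', tsum_list]
  have e1 : ∑' k : Bool, ENNReal.ofReal (wt p ([], k)) * F ([], k)
      = ENNReal.ofReal (1-p) * F ([], true) + ENNReal.ofReal (p/2) * F ([], false) := by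
    rw [tsum_bool]; simp [wt]; ring
  have e2 : ∀ b : Bool, ∑' l : List Bool, ∑' k : Bool, ENNReal.ofReal (wt p (b :: l, k)) * F (b :: l, k)
      = ENNReal.ofReal (p/4) * ∑' x : Act, ENNReal.ofReal (wt p x) * F (b :: x.1, x.2) := by
    intro b
    rw [← ENNReal.tsum_mul_left, ENNReal.tsum_prod']
    congr 1; ext l
    congr 1; ext k
    rw [← mul_assoc, ← ENNReal.ofReal_mul (by positivity)]
    congr 2
    simp only [wt, List.length_cons]
    ring
  rw [e1, e2, e2, mul_add]

/-- First step equation for a single action, as an identity of measures. -/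
lemma act_eq {p : ℝ} (h0 : 0 < p) :
    act p = ENNReal.ofReal (1-p) • Measure.dirac ([], true)
      + ENNReal.ofReal (p/2) • Measure.dirac ([], false)
      + ENNReal.ofReal (p/4) • ((act p).map (fun x => (true :: x.1, x.2))
        + (act p).map (fun x => (false :: x.1, x.2))) := by
  apply Measure.ext_of_lintegral
  intro F _
  rw [lintegral_act_step h0, lintegral_add_measure, lintegral_add_measure, lintegral_smul_measure,
    lintegral_smul_measure, lintegral_smul_measure, lintegral_add_measure, lintegral_dirac,
    lintegral_dirac, lintegral_map (Measurable.of_discrete) (Measurable.of_discrete),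
    lintegral_map (Measurable.of_discrete) (Measurable.of_discrete)]
  rfl

lemma integrable_bdd {Ω : Type*} [MeasurableSpace Ω] [DiscreteMeasurableSpace Ω]
    {μ : Measure Ω} [IsFiniteMeasure μ] {f : Ω → ℝ} (C : ℝ) (h : ∀ x, |f x| ≤ C) :
    Integrable f μ :=
  Integrable.of_bound (Measurable.of_discrete).aestronglyMeasurable C
    (Filter.Eventually.of_forall (fun x => by rw [Real.norm_eq_abs]; exact h x))

section step
variable (p : ℝ) [hp : Fact (0 < p ∧ p < 1)]

/-- First step equation, real valued. -/
lemma integral_act_step (F : Act → ℝ) (C : ℝ) (hF : ∀ x, |F x| ≤ C) :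
    ∫ x, F x ∂(act p) = (1-p) * F ([], true) + (p/2) * F ([], false)
      + (p/4) * (∫ x, F (true :: x.1, x.2) ∂(act p) + ∫ x, F (false :: x.1, x.2) ∂(act p)) := by
  obtain ⟨h0, h1⟩ := hp.out
  have hm : ∀ b : Bool, IsProbabilityMeasure ((act p).map (fun x : Act => (b :: x.1, x.2))) :=
    fun b => Measure.isProbabilityMeasure_map (Measurable.of_discrete).aemeasurable
  haveI := hm true
  haveI := hm false
  conv_lhs => rw [act_eq h0]
  have i1 : Integrable F (ENNReal.ofReal (1-p) • Measure.dirac (([], true) : Act)) :=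
    (integrable_bdd C hF).smul_measure (by simp)
  have i2 : Integrable F (ENNReal.ofReal (p/2) • Measure.dirac (([], false) : Act)) :=
    (integrable_bdd C hF).smul_measure (by simp)
  have i3 : Integrable F (ENNReal.ofReal (p/4) • ((act p).map (fun x => (true :: x.1, x.2))
        + (act p).map (fun x => (false :: x.1, x.2)))) :=
    (integrable_bdd C hF).smul_measure (by simp)
  rw [integral_add_measure (i1.add_measure i2) i3, integral_add_measure i1 i2,
    integral_smul_measure, integral_smul_measure, integral_smul_measure, integral_dirac,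
    integral_dirac, integral_add_measure (integrable_bdd C hF) (integrable_bdd C hF),
    integral_map (Measurable.of_discrete).aemeasurable
      (Measurable.of_discrete).aestronglyMeasurable,
    integral_map (Measurable.of_discrete).aemeasurable
      (Measurable.of_discrete).aestronglyMeasurable,
    ENNReal.toReal_ofReal (by linarith), ENNReal.toReal_ofReal (by linarith),
    ENNReal.toReal_ofReal (by linarith)]
  simp only [smul_eq_mul]

end step

variable (p : ℝ)

/-- the law of a list of `n` independent actions -/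
noncomputable def actL : ℕ → Measure (List Act)
  | 0 => Measure.dirac []
  | n+1 => ((act p).prod (actL n)).map (fun q => q.1 :: q.2)

variable [hp : Fact (0 < p ∧ p < 1)]

instance actL_prob (n : ℕ) : IsProbabilityMeasure (actL p n) := by
  induction n with
  | zero => unfold actL; infer_instance
  | succ n ih =>
    unfold actL
    exact Measure.isProbabilityMeasure_map (Measurable.of_discrete).aemeasurable

lemma integral_actL_succ (n : ℕ) (F : List Act → ℝ) (C : ℝ) (hF : ∀ x, |F x| ≤ C) :
    ∫ l, F l ∂(actL p (n+1)) = ∫ x, ∫ l, F (x :: l) ∂(actL p n) ∂(act p) := by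
  rw [actL, integral_map (Measurable.of_discrete).aemeasurable
      (Measurable.of_discrete).aestronglyMeasurable, integral_prod]
  exact integrable_bdd C (fun x => hF _)

lemma lintegral_actL_succ (n : ℕ) (F : List Act → ℝ≥0∞) :
    ∫⁻ l, F l ∂(actL p (n+1)) = ∫⁻ x, ∫⁻ l, F (x :: l) ∂(actL p n) ∂(act p) := by
  rw [actL, lintegral_map (Measurable.of_discrete) (Measurable.of_discrete),
    lintegral_prod _ (Measurable.of_discrete).aemeasurable]

end W5h82.Trace
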