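import Pool.Agent.W5h82.Trace.ExactP

/-!
The decoder for long strings: probability of failure.
-/

set_option autoImplicit false

open MeasureTheory ENNReal

namespace W5h82.Trace

lemma ind_one {Ω : Type*} {A : Set Ω} {ω : Ω} (h : ω ∈ A) : ind A ω = 1 := by
  simp [ind, h]

section weight

variable {H R m M : ℕ}

/-- weight of a position -/
noncomputable def wgt (H R m M : ℕ) (BV : ℕ → Set (Om (m+1) M)) (A : ℕ) (ω : Om (m+1) M) : ℝ :=
  ∑ r ∈ Finset.range (R+1), 4 * (tol H r : ℝ) * ind (badR (m+1) M H r A) ω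
    + 4 * H * (ind (BV A) ω + ind (badK (m+1) M (14334 * H) (8 * wid H (3*H)) A) ω)

lemma wgt_nonneg (BV : ℕ → Set (Om (m+1) M)) (A : ℕ) (ω : Om (m+1) M) : 0 ≤ wgt H R m M BV A ω := by
  unfold wgt
  have h1 := ind_nonneg (BV A) ω
  have h2 := ind_nonneg (badK (m+1) M (14334 * H) (8 * wid H (3*H)) A) ω
  have h3 : 0 ≤ ∑ r ∈ Finset.range (R+1), 4 * (tol H r : ℝ) * ind (badR (m+1) M H r A) ω :=
    Finset.sum_nonneg (fun r _ => mul_nonneg (by positivity) (ind_nonneg _ _))
  positivity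

lemma plen_le_wgt {p : ℝ} {Acc : List Bool → (Fin m → List Bool) → ℕ → Set (List Bool)}
    {BV : ℕ → Set (Om (m+1) M)} (V : Votes p H R m M Acc BV) (hH : 10 ≤ H)
    {A : ℕ} (hA : 2 * wid H R ≤ A) (hA4 : A ≤ 4 * wid H R) {ω : Om (m+1) M}
    (hR : ω ∉ badR (m+1) M H R A)
    (hbad : ¬ GoodPos H R (16384*H) (14334 * H) (Acc (tr ω 0) (fun i : Fin m => tr ω i.succ))
      (bit ω) (ac ω 0) A) : (plen (ac ω 0 A) : ℝ) ≤ wgt H R m M BV A ω := by
  classical
  have hterm : ∀ r, 0 ≤ 4 * (tol H r : ℝ) * ind (badR (m+1) M H r A) ω :=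
    fun r => mul_nonneg (by positivity) (ind_nonneg _ _)
  have hsum : ∀ r ≤ R, 4 * (tol H r : ℝ) * ind (badR (m+1) M H r A) ω ≤
      ∑ r ∈ Finset.range (R+1), 4 * (tol H r : ℝ) * ind (badR (m+1) M H r A) ω := by
    intro r hr
    exact Finset.single_le_sum (f := fun r => 4 * (tol H r : ℝ) * ind (badR (m+1) M H r A) ω)
      (fun r _ => hterm r) (by rw [Finset.mem_range]; omega)
  have h1 := ind_nonneg (BV A) ω
  have h2 := ind_nonneg (badK (m+1) M (14334 * H) (8 * wid H (3*H)) A) ω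
  have h3 : 0 ≤ ∑ r ∈ Finset.range (R+1), 4 * (tol H r : ℝ) * ind (badR (m+1) M H r A) ω :=
    Finset.sum_nonneg (fun r _ => hterm r)
  have hHr : (1:ℝ) ≤ H := by exact_mod_cast (by omega : 1 ≤ H)
  have hple := plen_le (ac ω 0 A)
  have hwin : ∀ r, ed (ac ω 0 A) ≤ edits (ac ω 0) (A - 4 * wid H r) (8 * wid H r) := by
    intro r
    have ht := tol_pos (show 1 ≤ H by omega) r
    have hw := wid_eq H r
    have := edits_le_of_subset (ac ω 0) (a := A) (n := 1) (b := A - 4 * wid H r)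
      (k := 8 * wid H r) (by omega) (by omega)
    rwa [edits_succ, edits_zero, Nat.add_zero] at this
  unfold wgt
  by_cases hed : ed (ac ω 0 A) ≤ H
  · have h4 : (plen (ac ω 0 A) : ℝ) ≤ 1 + H := by exact_mod_cast (by omega : plen (ac ω 0 A) ≤ 1 + H)
    -- some indicator is on
    by_cases hf : fineAt H R ω A
    · have h5 : ω ∈ BV A ∨ ω ∈ badK (m+1) M (14334 * H) (8 * wid H (3*H)) A := by
        by_contra hcon
        rw [not_or] at hcon
        apply hbad
        refine ⟨V.good A ω hA hA4 hcon.1 hf, fineE_of hf 0, ?_⟩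
        intro a b ha hab hb heq
        exact hcon.2 ⟨a, b, ha, hab, hb, heq⟩
      rcases h5 with h5 | h5
      · rw [ind_one h5] at *
        nlinarith
      · rw [ind_one h5] at *
        nlinarith
    · unfold fineAt at hf
      push Not at hf
      obtain ⟨r, hr, hr'⟩ := hf
      have h6 := hsum r hr
      rw [ind_one hr'] at h6
      have h7 : (H:ℝ) ≤ tol H r := by
        have := tol_ge H r (by omega)
        exact_mod_cast (by omega : H ≤ tol H r)
      have h8 : (0:ℝ) ≤ 4 * H * (ind (BV A) ω + ind (badK (m+1) M (14334 * H) (8 * wid H (3*H)) A) ω) :=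
        by positivity
      linarith
  · push Not at hed
    have hex : ∃ r, ed (ac ω 0 A) ≤ tol H r := by
      refine ⟨R, ?_⟩
      by_contra hcon
      push Not at hcon
      exact hR (Or.inl ⟨0, lt_of_lt_of_le hcon (hwin R)⟩)
    have hR' : ed (ac ω 0 A) ≤ tol H R := by
      by_contra hcon
      push Not at hcon
      exact hR (Or.inl ⟨0, lt_of_lt_of_le hcon (hwin R)⟩)
    have h0 : Nat.find hex ≠ 0 := by
      intro h
      have := Nat.find_spec hex
      rw [h] at this
      simp [tol] at this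
      omega
    obtain ⟨r, hr⟩ : ∃ r, Nat.find hex = r + 1 := ⟨Nat.find hex - 1, by omega⟩
    have h5 := Nat.find_spec hex
    rw [hr, tol_succ] at h5
    have h6 : tol H r < ed (ac ω 0 A) := by
      have := Nat.find_min hex (m := r) (by omega)
      omega
    have hrR : r ≤ R := by
      have := Nat.find_min' hex hR'
      omega
    have h7 : ω ∈ badR (m+1) M H r A := Or.inl ⟨0, lt_of_lt_of_le h6 (hwin r)⟩
    have h8 := hsum r hrR
    rw [ind_one h7] at h8
    have h9 : (plen (ac ω 0 A) : ℝ) ≤ 4 * tol H r := by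
      have := tol_pos (show 1 ≤ H by omega) r
      exact_mod_cast (by omega : plen (ac ω 0 A) ≤ 4 * tol H r)
    have h10 : (0:ℝ) ≤ 4 * H * (ind (BV A) ω + ind (badK (m+1) M (14334 * H) (8 * wid H (3*H)) A) ω) :=
      by positivity
    linarith

end weight

section counts
variable (p : ℝ) [hp : Fact (0 < p ∧ p < 1)] {H R m M : ℕ}

/-- too many bad positions -/
def Many (n N0 : ℕ) (Bad : ℕ → Set (Om m M)) (b : ℕ) : Set (Om m M) :=
  {ω | 2 * (n:ℝ) * (1/2)^b ≤ ∑ a ∈ Finset.range n, ind (Bad (N0 + a)) ω}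

/-- Chebyshev for local bad events -/
lemma prob_many {n N0 ρ b c q : ℕ} (hn : 0 < n) (Bad : ℕ → Set (Om m M))
    (hprob : ∀ a < n, mu p m M (Bad (N0+a)) ≤ (2⁻¹:ℝ≥0∞)^q)
    (hdep : ∀ a < n, DepOn (Bad (N0+a)) (near m M (N0+a) ρ))
    (hρ : 4 * ρ + 1 ≤ 2^c) (hq : c + 2 * b + 3 ≤ q) (d : ℕ) (hd : c + 2 * b + 3 + d ≤ q) :
    (mu p m M).real (Many n N0 Bad b) ≤ (1/2)^(d+3) / n := by
  have hn' : (0:ℝ) < n := by exact_mod_cast hn
  have hprob' : ∀ a < n, (Measure.pi fun _ : Idx m M => cellM p).real (Bad (N0+a)) ≤ (1/2)^q := by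
    intro a ha
    have h1 := hprob a ha
    rw [measureReal_def]
    have h2 : ((2⁻¹:ℝ≥0∞)^q).toReal = (1/2)^q := by
      rw [ENNReal.toReal_pow]; simp
    rw [← h2]
    exact ENNReal.toReal_mono (by simp) h1
  have ht : (0:ℝ) < n * (1/2)^b := by positivity
  have h := count_bad (ν := cellM p) (n := n) (D := 2 * ρ) (fun a => Bad (N0+a)) ((1/2)^q)
    (by positivity) hprob' (fun a => near m M (N0+a) ρ) hdep
    (fun a _ b' _ hab => near_disjoint (by omega)) ht
  have hle : (1/2:ℝ)^q ≤ (1/2)^b := pow_le_pow_of_le_one (by norm_num) (by norm_num) (by omega)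
  refine le_trans (measureReal_mono (s₂ := {ω | n * (1/2)^q + n * (1/2)^b ≤
    ∑ a ∈ Finset.range n, ind (Bad (N0 + a)) ω}) ?_ (measure_ne_top _ _)) (h.trans ?_)
  · intro ω hω
    simp only [Many, Set.mem_ofPred_eq] at hω ⊢
    nlinarith
  · have h1 : ((2:ℝ) * ((2 * ρ : ℕ) : ℝ) + 1) ≤ 2^c := by
      have : ((4 * ρ + 1 : ℕ) : ℝ) ≤ ((2^c : ℕ) : ℝ) := by exact_mod_cast hρ
      push_cast at this ⊢
      linarith
    calc (n:ℝ) * (2 * ((2 * ρ : ℕ) : ℝ) + 1) * (1/2)^q / ((n:ℝ) * (1/2)^b)^2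
        ≤ (n:ℝ) * 2^c * (1/2)^q / ((n:ℝ) * (1/2)^b)^2 := by
          gcongr
      _ = (2:ℝ)^c * (1/2)^q * 2^(2*b) / (n:ℝ) := by
          have h2 : ((1/2:ℝ)^b)^2 * 2^(2*b) = 1 := by
            rw [← pow_mul, mul_comm b 2, ← mul_pow]; norm_num
          rw [mul_pow, div_eq_div_iff (by positivity) (by positivity)]
          have h3 : (n:ℝ) * 2^c * (1/2)^q * n = 2^c * (1/2)^q * n^2 * (((1/2:ℝ)^b)^2 * 2^(2*b)) := by
            rw [h2]; ring
          rw [h3]; ring
      _ ≤ (1/2:ℝ)^(d+3) / (n:ℝ) := by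
          apply div_le_div_of_nonneg_right _ hn'.le
          obtain ⟨k, rfl⟩ := Nat.exists_eq_add_of_le hd
          have h4 : (2:ℝ)^c * (1/2)^c = 1 := by rw [← mul_pow]; norm_num
          have h5 : (2:ℝ)^(2*b) * (1/2)^(2*b) = 1 := by rw [← mul_pow]; norm_num
          have h6 : (1/2:ℝ)^k ≤ 1 := pow_le_one₀ (by norm_num) (by norm_num)
          calc (2:ℝ)^c * (1/2)^(c + 2*b + 3 + d + k) * 2^(2*b)
              = (2^c * (1/2)^c) * (2^(2*b) * (1/2)^(2*b)) * ((1/2)^(d+3) * (1/2)^k) := by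
                rw [pow_add, pow_add, pow_add, pow_add, pow_add]; ring
            _ = (1/2)^(d+3) * (1/2)^k := by rw [h4, h5]; ring
            _ ≤ (1/2)^(d+3) := mul_le_of_le_one_right (by positivity) h6

end counts

section final

/-- numerical lemma for the total cost -/
lemma cost_num {H n W E Q Λ : ℕ} (hH : 10 ≤ H) (hn : 2^(20*H) ≤ n)
    (hΛ : Λ = 4096 * (2^(3*H) * H)) (hQ : Q * Λ ≤ n * (1 + H) + W)
    (hW : (W:ℝ) ≤ n * (1/2)^(8*H)) (hE : (E:ℝ) ≤ 2 * n * (1/2)^(10*H)) :
    ((2^16 * H * (Q + 1) + 13 * Λ * (1 + W) + E : ℕ) : ℝ) ≤ n * (1/2)^H := by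
  have hy0 : (0:ℝ) < 2^H := by positivity
  set y : ℝ := 2^H with hy
  set x : ℝ := (1/2)^H with hx
  have hxy : x * y = 1 := by rw [hx, hy, ← mul_pow]; norm_num
  have hy10 : (1024:ℝ) ≤ y := by
    rw [hy]
    calc (1024:ℝ) = 2^10 := by norm_num
      _ ≤ 2^H := pow_le_pow_right₀ (by norm_num) hH
  have hx0 : 0 < x := by positivity
  have hhy : (H:ℝ) + 2 ≤ y := by
    have : H + 2 ≤ 2^H := by
      have h1 : ∀ k, 10 ≤ k → k + 2 ≤ 2^k := by
        intro k hk
        induction k, hk using Nat.le_induction with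
        | base => norm_num
        | succ k _ ih => rw [pow_succ]; omega
      exact h1 H hH
    rw [hy]
    exact_mod_cast this
  have hh0 : (0:ℝ) ≤ H := by positivity
  set N : ℝ := n * x^2 with hN
  have hn1 : (n:ℝ) = N * y^2 := by
    rw [hN]
    calc (n:ℝ) = n * (x*y)^2 := by rw [hxy]; ring
      _ = _ := by ring
  have hnx : (n:ℝ) * x = N * y := by
    rw [hn1]
    calc N * y^2 * x = N * y * (x * y) := by ring
      _ = _ := by rw [hxy]; ring
  have hn20 : y^20 ≤ (n:ℝ) := by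
    rw [hy, ← pow_mul, mul_comm H 20]
    exact_mod_cast hn
  have hN18 : y^18 ≤ N := by
    have h1 : y^20 ≤ N * y^2 := by rw [← hn1]; exact hn20
    have h2 : y^18 * y^2 ≤ N * y^2 := by
      calc y^18 * y^2 = y^20 := by ring
        _ ≤ _ := h1
    exact le_of_mul_le_mul_right h2 (by positivity)
  have hN0 : 0 ≤ N := by positivity
  have e8 : (1/2:ℝ)^(8*H) = x^8 := by rw [hx, ← pow_mul, mul_comm H 8]
  have e10 : (1/2:ℝ)^(10*H) = x^10 := by rw [hx, ← pow_mul, mul_comm H 10]
  rw [e8] at hW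
  rw [e10] at hE
  have hx1 : x ≤ 1 := by
    rw [hx]; exact pow_le_one₀ (by norm_num) (by norm_num)
  -- bounds in terms of `N`
  have hW' : (W:ℝ) * y^6 ≤ N := by
    have h1 : (W:ℝ) * y^6 ≤ n * x^8 * y^6 := mul_le_mul_of_nonneg_right hW (by positivity)
    have h2 : (n:ℝ) * x^8 * y^6 = N := by
      rw [hN]
      calc (n:ℝ) * x^8 * y^6 = n * x^2 * (x*y)^6 := by ring
        _ = _ := by rw [hxy]; ring
    linarith
  have hE' : (E:ℝ) ≤ N := by
    refine hE.trans ?_
    rw [hN]
    have h1 : x^8 ≤ 1/2 := by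
      have h2 : x ≤ 1/2 := by
        have : x * 1024 ≤ x * y := mul_le_mul_of_nonneg_left hy10 hx0.le
        rw [hxy] at this; linarith
      calc x^8 ≤ (1/2)^8 := pow_le_pow_left₀ hx0.le h2 8
        _ ≤ 1/2 := by norm_num
    calc 2 * (n:ℝ) * x^10 = n * x^2 * (2 * x^8) := by ring
      _ ≤ n * x^2 * 1 := by
          apply mul_le_mul_of_nonneg_left _ (by positivity)
          linarith
      _ = _ := by ring
  have hWN : (W:ℝ) ≤ N * y^2 := by
    have h1 : (1:ℝ) ≤ y^6 := one_le_pow₀ (by linarith)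
    have h2 : (1:ℝ) ≤ y^2 := one_le_pow₀ (by linarith)
    have h3 : (W:ℝ) ≤ W * y^6 := le_mul_of_one_le_right (by positivity) h1
    have h4 : N ≤ N * y^2 := le_mul_of_one_le_right hN0 h2
    linarith
  have hΛr : (Λ:ℝ) = 4096 * (y^3 * H) := by
    rw [hΛ, hy, ← pow_mul, mul_comm H 3]; push_cast; ring
  have hQ' : (Q:ℝ) * H * 4096 ≤ N := by
    have h1 : (Q:ℝ) * Λ ≤ n * (1 + H) + W := by exact_mod_cast hQ
    rw [hΛr, hn1] at h1
    have h2 : (Q:ℝ) * H * 4096 * y^3 ≤ N * y^3 := by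
      calc (Q:ℝ) * H * 4096 * y^3 = Q * (4096 * (y^3 * H)) := by ring
        _ ≤ N * y^2 * (1+H) + W := h1
        _ ≤ N * y^2 * (1+H) + N * y^2 := by linarith
        _ = N * y^2 * (H + 2) := by ring
        _ ≤ N * y^2 * y := mul_le_mul_of_nonneg_left hhy (by positivity)
        _ = N * y^3 := by ring
    exact le_of_mul_le_mul_right h2 (by positivity)
  have hy2 : (65536:ℝ) ≤ y^2 := by nlinarith
  have h13 : 13 * (Λ:ℝ) ≤ y^6 := by
    rw [hΛr]
    calc 13 * (4096 * (y^3 * (H:ℝ))) ≤ 65536 * (y^3 * y) := by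
          have h1 : (H:ℝ) ≤ y := by linarith
          have h2 : y^3 * (H:ℝ) ≤ y^3 * y := mul_le_mul_of_nonneg_left h1 (by positivity)
          nlinarith [show (0:ℝ) ≤ y^3 * H by positivity]
      _ ≤ y^2 * (y^3 * y) := mul_le_mul_of_nonneg_right hy2 (by positivity)
      _ = y^6 := by ring
  have h6 : y^6 ≤ N := le_trans (pow_le_pow_right₀ (by linarith) (by norm_num)) hN18
  have h65 : 65536 * (H:ℝ) ≤ N := by
    calc 65536 * (H:ℝ) ≤ y^2 * y := by
          have h1 : (H:ℝ) ≤ y := by linarith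
          exact mul_le_mul hy2 h1 hh0 (by positivity)
      _ = y^3 := by ring
      _ ≤ y^18 := pow_le_pow_right₀ (by linarith) (by norm_num)
      _ ≤ N := hN18
  have h13W : 13 * (Λ:ℝ) * W ≤ N := by
    calc 13 * (Λ:ℝ) * W ≤ y^6 * W := mul_le_mul_of_nonneg_right h13 (by positivity)
      _ = W * y^6 := mul_comm _ _
      _ ≤ N := hW'
  rw [hnx]
  push_cast
  have hfin : 20 * N ≤ N * y := by nlinarith
  nlinarith

variable (p : ℝ) [hp : Fact (0 < p ∧ p < 1)] {κ H R m M : ℕ}

theorem approx_prob {Acc : List Bool → (Fin m → List Bool) → ℕ → Set (List Bool)}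
    {BV : ℕ → Set (Om (m+1) M)} (V : Votes p H R m M Acc BV) (hH : 10 ≤ H) (hκ : 200 ≤ κ)
    (hc : p ≤ (1/2)^(κ+20)) (hm : m + 1 ≤ 2^((κ-200)*H)) (hM : M = 16 * wid H R)
    {n : ℕ} (hn : 2^(20*H) ≤ n) (hR3' : 3 * H + 1 ≤ R) (hRn : n + 1 ≤ R) (hnR : n ≤ wid H R) :
    (mu p (m+1) M).real {ω | ¬ ∃ k : ℕ, (k:ℝ) ≤ n * (1/2)^H ∧ Ind k (sub (bit ω) (3 * wid H R) n)
        (decA (Acc (tr ω 0) (fun i : Fin m => tr ω i.succ)) (14334 * H)
        (out (ac ω 0) (3 * wid H R)) (out (ac ω 0) (3 * wid H R + n)) (wid H (3*H)))}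
      ≤ 1 / n := by
  classical
  set N0 := 3 * wid H R with hN0
  have hn0 : 0 < n := lt_of_lt_of_le (by positivity) hn
  have hn' : (0:ℝ) < n := by exact_mod_cast hn0
  have hR3 : 3 * H ≤ R := by omega
  have hw3 : 2 * wid H (3*H) ≤ wid H R := by
    have h1 := wid_le (H := H) hR3'
    rw [wid_eq, tol_succ] at h1
    rw [wid_eq H (3*H)]; omega
  have hwHR := wid_le (H := H) (show H ≤ R by omega)
  have hweq := wid_eq H (3*H)
  have htp := tol_pos (show 1 ≤ H by omega) (3*H)
  have hH2 : H ≤ 2^H := Nat.lt_two_pow_self.le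
  have htol3 : tol H (3*H) ≤ 2^(4*H) := by
    unfold tol
    calc 2^(3*H) * H ≤ 2^(3*H) * 2^H := Nat.mul_le_mul_left _ hH2
      _ = 2^(4*H) := by rw [← pow_add]; congr 1; ring
  have hHtol : H ≤ tol H (3*H) := by have := tol_ge H (3*H) (by omega); omega
  have hKw : 14334 * H ≤ wid H (3*H) * 4 := by omega
  set Dk := 8 * wid H (3*H) with hDk
  -- the exceptional set
  have hsub : {ω : Om (m+1) M | ¬ ∃ k : ℕ, (k:ℝ) ≤ n * (1/2)^H ∧ Ind k (sub (bit ω) N0 n)
        (decA (Acc (tr ω 0) (fun i : Fin m => tr ω i.succ)) (14334 * H)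
        (out (ac ω 0) N0) (out (ac ω 0) (N0 + n)) (wid H (3*H)))}
      ⊆ (⋃ r ∈ Finset.range (R+1), Many n N0 (badR (m+1) M H r) (10*H+2*r)) ∪
        (Many n N0 BV (10*H) ∪ Many n N0 (badK (m+1) M (14334*H) Dk) (10*H)) := by
    intro ω hω
    by_contra hcon
    rw [Set.mem_union, Set.mem_union, not_or, not_or] at hcon
    obtain ⟨h1, h2, h3⟩ := hcon
    have h1' : ∀ r ≤ R, ∑ a ∈ Finset.range n, ind (badR (m+1) M H r (N0+a)) ω
        < 2 * (n:ℝ) * (1/2)^(10*H+2*r) := by
      intro r hr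
      by_contra hh
      push Not at hh
      apply h1
      simp only [Set.mem_iUnion]
      exact ⟨r, by rw [Finset.mem_range]; omega, hh⟩
    simp only [Many, Set.mem_ofPred_eq, not_le] at h2 h3
    apply hω
    have hgeom : ∑ r ∈ Finset.range (R+1), (1/2:ℝ)^r ≤ 2 := by
      have : ∀ k, ∑ r ∈ Finset.range k, (1/2:ℝ)^r ≤ 2 := by
        intro k
        have h := Summable.sum_le_tsum (f := fun r : ℕ => (1/2:ℝ)^r) (Finset.range k)
          (fun _ _ => by positivity) summable_geometric_two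
        rwa [tsum_geometric_two] at h
      exact this _
    -- no bad position at the top scale
    have hnoR : ∀ a < n, ω ∉ badR (m+1) M H R (N0+a) := by
      intro a ha hmem
      have h4 := h1' R le_rfl
      have h5 : ind (badR (m+1) M H R (N0+a)) ω ≤
          ∑ a ∈ Finset.range n, ind (badR (m+1) M H R (N0+a)) ω :=
        Finset.single_le_sum (f := fun a => ind (badR (m+1) M H R (N0+a)) ω)
          (fun _ _ => ind_nonneg _ _) (by rw [Finset.mem_range]; exact ha)
      rw [ind_one hmem] at h5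
      have h6 : 2 * (n:ℝ) * (1/2)^(10*H+2*R) ≤ 1 := by
        have h7 : 2 * n ≤ 2^(10*H+2*R) := by
          have h8 : n < 2^n := Nat.lt_two_pow_self
          calc 2 * n ≤ 2 * 2^n := by omega
            _ = 2^(n+1) := by rw [pow_succ]; ring
            _ ≤ 2^(10*H+2*R) := Nat.pow_le_pow_right (by norm_num) (by omega)
        have h9 : (2:ℝ) * n ≤ 2^(10*H+2*R) := by exact_mod_cast h7
        calc 2 * (n:ℝ) * (1/2)^(10*H+2*R) ≤ 2^(10*H+2*R) * (1/2)^(10*H+2*R) :=
              mul_le_mul_of_nonneg_right h9 (by positivity)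
          _ = 1 := by rw [← mul_pow]; norm_num
      linarith
    -- the weights
    set GP : ℕ → Prop := fun A => GoodPos H R (16384*H) (14334 * H)
      (Acc (tr ω 0) (fun i : Fin m => tr ω i.succ)) (bit ω) (ac ω 0) A with hGP
    set W := ∑ A ∈ (Finset.Ico N0 (N0+n)).filter (fun A => ¬ GP A), plen (ac ω 0 A) with hW
    have hsumIco : ∀ f : ℕ → ℝ, ∑ A ∈ Finset.Ico N0 (N0+n), f A
        = ∑ a ∈ Finset.range n, f (N0+a) := by
      intro f
      rw [Finset.sum_Ico_eq_sum_range]
      congr 1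
      rw [Nat.add_sub_cancel_left]
    have hWle : (W:ℝ) ≤ n * (1/2)^(8*H) := by
      have h4 : (W:ℝ) ≤ ∑ A ∈ Finset.Ico N0 (N0+n), wgt H R m M BV A ω := by
        rw [hW]
        push_cast
        calc _ ≤ ∑ A ∈ (Finset.Ico N0 (N0+n)).filter (fun A => ¬ GP A), wgt H R m M BV A ω := by
              apply Finset.sum_le_sum
              intro A hA
              rw [Finset.mem_filter, Finset.mem_Ico] at hA
              obtain ⟨a, rfl⟩ := Nat.exists_eq_add_of_le hA.1.1
              exact plen_le_wgt V hH (by omega) (by omega) (hnoR a (by omega)) hA.2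
          _ ≤ _ := Finset.sum_le_sum_of_subset_of_nonneg (Finset.filter_subset _ _)
              (fun _ _ _ => wgt_nonneg _ _ _)
      rw [hsumIco] at h4
      have h5 : ∑ a ∈ Finset.range n, wgt H R m M BV (N0+a) ω
          = ∑ r ∈ Finset.range (R+1), 4 * (tol H r : ℝ) *
              ∑ a ∈ Finset.range n, ind (badR (m+1) M H r (N0+a)) ω
            + 4 * H * (∑ a ∈ Finset.range n, ind (BV (N0+a)) ω +
              ∑ a ∈ Finset.range n, ind (badK (m+1) M (14334*H) Dk (N0+a)) ω) := by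
        unfold wgt
        rw [Finset.sum_add_distrib, Finset.sum_comm, ← Finset.mul_sum, Finset.sum_add_distrib]
        congr 1
        apply Finset.sum_congr rfl
        intro r _
        rw [Finset.mul_sum]
      rw [h5] at h4
      have h6 : ∑ r ∈ Finset.range (R+1), 4 * (tol H r : ℝ) *
              ∑ a ∈ Finset.range n, ind (badR (m+1) M H r (N0+a)) ω
          ≤ ∑ r ∈ Finset.range (R+1), (8 * H * n * (1/2)^(10*H)) * (1/2:ℝ)^r := by
        apply Finset.sum_le_sum
        intro r hr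
        rw [Finset.mem_range] at hr
        have h7 := (h1' r (by omega)).le
        have h8 : (0:ℝ) ≤ 4 * (tol H r : ℝ) := by positivity
        refine (mul_le_mul_of_nonneg_left h7 h8).trans (le_of_eq ?_)
        have h9 : (tol H r : ℝ) = 2^r * H := by unfold tol; push_cast; ring
        have h10 : (2:ℝ)^r * (1/2)^r = 1 := by rw [← mul_pow]; norm_num
        rw [h9, pow_add, show 2*r = r + r by ring, pow_add]
        calc 4 * (2^r * (H:ℝ)) * (2 * n * ((1/2)^(10*H) * ((1/2)^r * (1/2)^r)))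
            = (2^r * (1/2)^r) * (8 * H * n * (1/2)^(10*H) * (1/2)^r) := by ring
          _ = _ := by rw [h10]; ring
      rw [← Finset.mul_sum] at h6
      have h11 : (0:ℝ) ≤ 8 * H * n * (1/2)^(10*H) := by positivity
      have h12 := mul_le_mul_of_nonneg_left hgeom h11
      have h13 : (0:ℝ) ≤ 4 * (H:ℝ) := by positivity
      have h14 := mul_le_mul_of_nonneg_left (add_le_add h2.le h3.le) h13
      have h15 : (W:ℝ) ≤ 32 * H * (1/2)^(2*H) * (n * (1/2)^(8*H)) := by
        have e : (1/2:ℝ)^(10*H) = (1/2)^(2*H) * (1/2)^(8*H) := by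
          rw [← pow_add]; congr 1; ring
        rw [e] at h12 h14 h6
        nlinarith
      have h16 : 32 * (H:ℝ) * (1/2)^(2*H) ≤ 1 := by
        have h17 : 32 * H ≤ 2^(2*H) := by
          calc 32 * H ≤ 2^5 * 2^H := by omega
            _ = 2^(5+H) := by rw [pow_add]
            _ ≤ 2^(2*H) := Nat.pow_le_pow_right (by norm_num) (by omega)
        have h18 : (32:ℝ) * H ≤ 2^(2*H) := by exact_mod_cast h17
        calc 32 * (H:ℝ) * (1/2)^(2*H) ≤ 2^(2*H) * (1/2)^(2*H) :=
              mul_le_mul_of_nonneg_right h18 (by positivity)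
          _ = 1 := by rw [← mul_pow]; norm_num
      calc (W:ℝ) ≤ 32 * H * (1/2)^(2*H) * (n * (1/2)^(8*H)) := h15
        _ ≤ 1 * (n * (1/2)^(8*H)) := mul_le_mul_of_nonneg_right h16 (by positivity)
        _ = _ := one_mul _
    have hEle : ((EF (ac ω 0) H N0 (N0+n)).card : ℝ) ≤ 2 * n * (1/2)^(10*H) := by
      have h4 : ((EF (ac ω 0) H N0 (N0+n)).card : ℝ)
          ≤ ∑ A ∈ Finset.Ico N0 (N0+n), ind (badR (m+1) M H (3*H) A) ω := by
        calc ((EF (ac ω 0) H N0 (N0+n)).card : ℝ) = ∑ A ∈ EF (ac ω 0) H N0 (N0+n), (1:ℝ) := by simp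
          _ ≤ ∑ A ∈ EF (ac ω 0) H N0 (N0+n), ind (badR (m+1) M H (3*H) A) ω := by
              apply Finset.sum_le_sum
              intro A hA
              unfold EF at hA
              rw [Finset.mem_filter] at hA
              have hmem : ω ∈ badR (m+1) M H (3*H) A := Or.inl ⟨0, hA.2⟩
              rw [ind_one hmem]
          _ ≤ _ := Finset.sum_le_sum_of_subset_of_nonneg (Finset.filter_subset _ _)
              (fun _ _ _ => ind_nonneg _ _)
      rw [hsumIco] at h4
      refine h4.trans ((h1' (3*H) hR3).le.trans ?_)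
      apply mul_le_mul_of_nonneg_left _ (by positivity)
      exact pow_le_pow_of_le_one (by norm_num) (by norm_num) (by omega)
    have hind := decA_ind (N0 := N0) (N1 := N0+n) (S := bit ω) (α0 := ac ω 0)
      (Acc := Acc (tr ω 0) (fun i : Fin m => tr ω i.succ)) (H := H) (R := R) (K := 14334*H)
      (L := 16384 * H) hH hR3 rfl rfl (by omega) (by omega) W (le_of_eq (by rw [hW]))
    have hod := out_diff_le (N0 := N0) (N1 := N0+n) (S := bit ω) (α0 := ac ω 0)
      (Acc := Acc (tr ω 0) (fun i : Fin m => tr ω i.succ)) (H := H) (R := R) (K := 14334*H)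
      (L := 16384 * H) (by omega) W (by omega) (le_of_eq (by rw [hW]))
    rw [Nat.add_sub_cancel_left] at hind hod
    refine ⟨_, ?_, hind⟩
    apply cost_num hH hn (Λ := wid H (3*H)) rfl _ hWle hEle
    refine (Nat.div_mul_le_self _ _).trans hod
  -- probabilities
  have hmany1 : ∀ r ≤ R, (mu p (m+1) M).real (Many n N0 (badR (m+1) M H r) (10*H+2*r))
      ≤ (1/2)^(r+3) / n := by
    intro r hr
    have htr := tol_ge H r (by omega)
    have hwr := wid_le (H := H) hr
    have hwr' := wid_eq H r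
    apply prob_many p (ρ := 8 * wid H r) (c := 18 + tol H r) (q := 199 * tol H r) hn0
    · intro a ha
      exact prob_badR p (by omega) hκ hc hm (by omega) (by omega) (by omega)
    · intro a _
      exact badR_dep H r (N0+a)
    · have h1 : tol H r < 2^(tol H r) := Nat.lt_two_pow_self
      rw [pow_add]
      have : (1:ℕ) ≤ 2^(tol H r) := Nat.one_le_two_pow
      omega
    · omega
    · omega
  have hmany2 : (mu p (m+1) M).real (Many n N0 BV (10*H)) ≤ (1/2)^(0+3) / n := by
    apply prob_many p (ρ := wid H H) (c := 15 + 2*H) (q := 60*H) hn0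
    · intro a ha
      exact V.prob _ (by omega) (by omega)
    · intro a _
      exact V.dep _
    · have h1 : tol H H ≤ 2^(2*H) := by
        unfold tol
        calc 2^H * H ≤ 2^H * 2^H := Nat.mul_le_mul_left _ hH2
          _ = 2^(2*H) := by rw [← pow_add]; congr 1; ring
      have h2 := wid_eq H H
      rw [pow_add]
      have : (1:ℕ) ≤ 2^(2*H) := Nat.one_le_two_pow
      omega
    · omega
    · omega
  have hmany3 : (mu p (m+1) M).real (Many n N0 (badK (m+1) M (14334*H) Dk) (10*H))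
      ≤ (1/2)^(0+3) / n := by
    apply prob_many p (ρ := Dk + 14334*H) (c := 19 + 4*H) (q := 60*H) hn0
    · intro a ha
      refine (prob_badK p (by omega)).trans ?_
      apply pw (a := 34 + 8*H) (by omega)
      calc (2 * Dk + 1)^2 ≤ (2^(17+4*H))^2 := by
            apply Nat.pow_le_pow_left
            rw [pow_add]
            have : (1:ℕ) ≤ 2^(4*H) := Nat.one_le_two_pow
            omega
        _ = 2^(34+8*H) := by rw [← pow_mul]; congr 1; ring
    · intro a _
      exact badK_dep _ _ _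
    · rw [pow_add]
      have : (1:ℕ) ≤ 2^(4*H) := Nat.one_le_two_pow
      omega
    · omega
    · omega
  refine (measureReal_mono hsub (measure_ne_top _ _)).trans ?_
  refine (measureReal_union_le _ _).trans ?_
  have s1 : (mu p (m+1) M).real (⋃ r ∈ Finset.range (R+1),
      Many n N0 (badR (m+1) M H r) (10*H+2*r)) ≤ (1/4) / n := by
    refine (measureReal_biUnion_finset_le _ _).trans ?_
    calc _ ≤ ∑ r ∈ Finset.range (R+1), (1/2:ℝ)^(r+3) / n := by
          apply Finset.sum_le_sum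
          intro r hr
          rw [Finset.mem_range] at hr
          exact hmany1 r (by omega)
      _ = (1/8) / n * ∑ r ∈ Finset.range (R+1), (1/2:ℝ)^r := by
          rw [Finset.mul_sum]
          apply Finset.sum_congr rfl
          intro r _
          rw [pow_add]; ring
      _ ≤ (1/8) / n * 2 := by
          apply mul_le_mul_of_nonneg_left _ (by positivity)
          have h := Summable.sum_le_tsum (f := fun r : ℕ => (1/2:ℝ)^r) (Finset.range (R+1))
            (fun _ _ => by positivity) summable_geometric_two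
          rwa [tsum_geometric_two] at h
      _ = (1/4) / n := by ring
  have s2 := (measureReal_union_le (μ := mu p (m+1) M) (Many n N0 BV (10*H))
    (Many n N0 (badK (m+1) M (14334*H) Dk) (10*H))).trans (add_le_add hmany2 hmany3)
  refine (add_le_add s1 s2).trans ?_
  have : (1/4:ℝ) / n + ((1/2)^(0+3) / n + (1/2)^(0+3) / n) = (1/2) / n := by ring
  rw [this]
  apply div_le_div_of_nonneg_right _ hn'.le
  norm_num

end final

end W5h82.Trace
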