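import Pool.Agent.W5h82.Trace.Maj

/-!
Assembly of a block from the accepted strings.
-/

set_option autoImplicit false

namespace W5h82.Trace

/-- the `K`-mers contained in accepted strings of the range `[x1, x2)` -/
def Gset (Acc : ℕ → Set (List Bool)) (K x1 x2 : ℕ) : Set (List Bool) :=
  {w | w.length = K ∧ ∃ x, x1 ≤ x ∧ x < x2 ∧ ∃ v ∈ Acc x, w <:+: v}

/-- admissible strings for a block -/
def Adm (Acc : ℕ → Set (List Bool)) (K x1 x2 cap : ℕ) (z : List Bool) : Prop :=
  K ≤ z.length ∧ z.length ≤ cap ∧ ∀ j, j + K ≤ z.length → (z.drop j).take K ∈ Gset Acc K x1 x2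

open Classical in
/-- the decoded block: an admissible string of maximal length -/
noncomputable def blk (Acc : ℕ → Set (List Bool)) (K x1 x2 cap : ℕ) : List Bool :=
  if h : ∃ n, ∃ z : List Bool, z.length + n = cap ∧ Adm Acc K x1 x2 cap z
  then (Nat.find_spec h).choose else []

lemma blk_length_le (Acc : ℕ → Set (List Bool)) (K x1 x2 cap : ℕ) :
    (blk Acc K x1 x2 cap).length ≤ cap := by
  classical
  unfold blk
  split
  · rename_i h
    have := (Nat.find_spec h).choose_spec
    omega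
  · simp

lemma blk_spec {Acc : ℕ → Set (List Bool)} {K x1 x2 cap : ℕ} {z : List Bool}
    (hz : Adm Acc K x1 x2 cap z) :
    Adm Acc K x1 x2 cap (blk Acc K x1 x2 cap) ∧ z.length ≤ (blk Acc K x1 x2 cap).length := by
  classical
  have h : ∃ n, ∃ z : List Bool, z.length + n = cap ∧ Adm Acc K x1 x2 cap z :=
    ⟨cap - z.length, z, by have := hz.2.1; omega, hz⟩
  unfold blk
  rw [dif_pos h]
  have h1 := (Nat.find_spec h).choose_spec
  refine ⟨h1.2, ?_⟩
  have h2 := Nat.find_min' h (m := cap - z.length) ⟨z, by have := hz.2.1; omega, hz⟩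
  have h3 := hz.2.1
  omega

lemma sub_take (S : ℕ → Bool) (a n k : ℕ) (h : k ≤ n) : (sub S a n).take k = sub S a k := by
  obtain ⟨d, rfl⟩ := Nat.exists_eq_add_of_le h
  rw [sub_add, List.take_left']
  simp

lemma sub_drop (S : ℕ → Bool) (a n k : ℕ) (h : k ≤ n) :
    (sub S a n).drop k = sub S (a+k) (n-k) := by
  obtain ⟨d, rfl⟩ := Nat.exists_eq_add_of_le h
  rw [sub_add, List.drop_left' (by simp)]
  congr 1; omega

lemma sub_window (S : ℕ → Bool) (a n j K : ℕ) (h : j + K ≤ n) :
    ((sub S a n).drop j).take K = sub S (a+j) K := by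
  rw [sub_drop _ _ _ _ (by omega), sub_take _ _ _ _ (by omega)]

lemma sub_getElem? (S : ℕ → Bool) (a n k : ℕ) (h : k < n) : (sub S a n)[k]? = some (S (a+k)) := by
  unfold sub
  rw [List.getElem?_map, List.getElem?_range' h]
  simp

/-- a string all of whose windows are windows of `S` is a substring of `S` -/
lemma path_unique {S : ℕ → Bool} {K lo hi : ℕ} {z : List Bool} (hK : 1 ≤ K) (hz : K ≤ z.length)
    (hG : ∀ j, j + K ≤ z.length → ∃ a, lo ≤ a ∧ a ≤ hi ∧ (z.drop j).take K = sub S a K)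
    (hd : ∀ a b, lo ≤ a → a ≤ hi + 1 → lo ≤ b → b ≤ hi + 1 →
      sub S a (K-1) = sub S b (K-1) → a = b) :
    ∃ c, lo ≤ c ∧ c + z.length ≤ hi + K ∧ z = sub S c z.length := by
  obtain ⟨c, hc1, hc2, hc3⟩ := hG 0 (by omega)
  rw [List.drop_zero] at hc3
  have key : ∀ j, j + K ≤ z.length → c + j ≤ hi ∧ (z.drop j).take K = sub S (c+j) K := by
    intro j
    induction j with
    | zero => intro _; exact ⟨by omega, by simpa using hc3⟩
    | succ j ih =>
      intro hj
      obtain ⟨h1, h2⟩ := ih (by omega)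
      obtain ⟨a, ha1, ha2, ha3⟩ := hG (j+1) hj
      have e1 : ((z.drop (j+1)).take K).take (K-1) = ((z.drop j).take K).drop 1 := by
        rw [List.take_take, List.drop_take, List.drop_drop]
        congr 1; omega
      rw [ha3, h2, sub_take _ _ _ _ (by omega), sub_drop _ _ _ _ hK] at e1
      have := hd a (c+j+1) ha1 (by omega) (by omega) (by omega) e1
      refine ⟨by omega, ?_⟩
      rw [ha3, this]; rfl
  refine ⟨c, hc1, ?_, ?_⟩
  · have := (key (z.length - K) (by omega)).1
    omega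
  · apply List.ext_getElem?
    intro i
    rcases lt_or_ge i z.length with hi' | hi'
    · rw [sub_getElem? S c _ i hi']
      set j := min i (z.length - K) with hj
      have h3 := (key j (by omega)).2
      have h4 := congrArg (fun l => l[i-j]?) h3
      rw [sub_getElem? S (c+j) K (i-j) (by omega), List.getElem?_take, if_pos (by omega),
        List.getElem?_drop] at h4
      rw [show j + (i-j) = i by omega, show c + j + (i - j) = c + i by omega] at h4
      exact h4
    · rw [List.getElem?_eq_none hi', List.getElem?_eq_none (by simpa using hi')]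

/-! ### comparison of substrings of `S` -/

lemma sub_sublist (S : ℕ → Bool) {a n b k : ℕ} (h1 : a ≤ b) (h2 : b + k ≤ a + n) :
    (sub S b k).Sublist (sub S a n) := by
  obtain ⟨d, rfl⟩ := Nat.exists_eq_add_of_le h1
  obtain ⟨e, he⟩ := Nat.exists_eq_add_of_le h2
  have : n = d + (k + e) := by omega
  subst this
  rw [sub_add, sub_add]
  exact ((List.sublist_append_left _ _)).trans (List.sublist_append_right _ _)

lemma ind_sub (S : ℕ → Bool) {a n c l k : ℕ}
    (hk : (a - c) + (c - a) + ((a+n) - (c+l)) + ((c+l) - (a+n)) ≤ k) :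
    Ind k (sub S a n) (sub S c l) := by
  rcases le_total (max a c) (min (a+n) (c+l)) with h | h
  · refine ⟨sub S (max a c) (min (a+n) (c+l) - max a c), sub_sublist S (by omega) (by omega),
      sub_sublist S (by omega) (by omega), ?_⟩
    simp only [sub_length]
    omega
  · refine ⟨[], by simp, by simp, ?_⟩
    simp only [sub_length, List.length_nil]
    omega

/-! ### the main lemma on blocks -/

/-- jump of the pointer -/
lemma ptr_jump {α0 : ℕ → Act} {H R A A' x : ℕ} (hH : 1 ≤ H) (hE : FineE H R α0 A)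
    (h1 : out α0 A ≤ x) (h2 : x < out α0 (A+1)) (h3 : out α0 A' ≤ x+1) :
    A' ≤ A + H + 1 := by
  by_contra hcon
  push Not at hcon
  have e0 : tol H 0 = H := by simp [tol]
  have w0 : wid H 0 = 4096 * H := by simp [wid]
  have g1 := le_out_add α0 (A+1) (H+1)
  have g2 : edits α0 (A+1) (H+1) ≤ tol H 0 := hE.edits_le (Nat.zero_le R) (by omega) (by omega)
  have g3 := out_mono α0 (show A+1+(H+1) ≤ A' by omega)
  omega

lemma infix_sub {S : ℕ → Bool} {a n : ℕ} {w : List Bool} (h : w <:+: sub S a n) :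
    ∃ i, i + w.length ≤ n ∧ w = sub S (a+i) w.length := by
  obtain ⟨s, t, hst⟩ := h
  have hl := congrArg List.length hst
  simp only [List.length_append, sub_length] at hl
  refine ⟨s.length, by omega, ?_⟩
  have : ((sub S a n).drop s.length).take w.length = w := by
    rw [← hst, List.append_assoc, List.drop_left, List.take_left]
  rw [← sub_window S a n s.length w.length (by omega), this]

theorem block_good {S : ℕ → Bool} {α0 : ℕ → Act} {Acc : ℕ → Set (List Bool)}
    {H R K L x1 x2 A1 A2 cap : ℕ} (hH : 1 ≤ H) (hK : 1 ≤ K) (hL : L = K + 2050 * H) (hx : x1 < x2)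
    (hA1 : out α0 A1 ≤ x1) (hA1' : x1 < out α0 (A1+1))
    (hA2 : out α0 A2 ≤ x2 - 1) (hA2' : x2 - 1 < out α0 (A2+1))
    (hgood : ∀ A, A1 ≤ A → A ≤ A2 → (∃ x, x1 ≤ x ∧ x < x2 ∧ out α0 A ≤ x ∧ x < out α0 (A+1)) →
      GoodAcc L H Acc S α0 A ∧ FineE H R α0 A)
    (hd : ∀ a b, A1 ≤ a + 1024 * H → a ≤ A2 + 3074 * H + 1 → A1 ≤ b + 1024 * H →
      b ≤ A2 + 3074 * H + 1 → sub S a (K-1) = sub S b (K-1) → a = b)
    (hcap : A2 + 2048 * H + L ≤ A1 + cap) :
    ∃ c l, blk Acc K x1 x2 cap = sub S c l ∧ A1 ≤ c + 1024 * H ∧ c + l ≤ A2 + 1024 * H + L ∧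
      A2 + L ≤ A1 + l + 2048 * H := by
  classical
  have hA12 : A1 ≤ A2 := by
    by_contra hh
    have := out_mono α0 (show A2 + 1 ≤ A1 by omega)
    omega
  -- pointers
  have hptr : ∀ x, x1 ≤ x → x < x2 → ∃ A, A1 ≤ A ∧ A ≤ A2 ∧ out α0 A ≤ x ∧ x < out α0 (A+1) := by
    intro x h1 h2
    obtain ⟨c, h3, h4, h5, h6⟩ := exists_ptr α0 (a := A1) (b := A2+1) (y := x) (by omega) (by omega)
    exact ⟨c, h3, by omega, h5, h6⟩
  choose! P hP1 hP2 hP3 hP4 using hptr
  have hacc : ∀ x, x1 ≤ x → x < x2 → ∃ a, a ≤ P x + 1024 * H ∧ P x ≤ a + 1024 * H ∧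
      sub S a L ∈ Acc x := by
    intro x h1 h2
    have hg := (hgood (P x) (hP1 x h1 h2) (hP2 x h1 h2) ⟨x, h1, h2, hP3 x h1 h2, hP4 x h1 h2⟩).1
    obtain ⟨⟨v, hv⟩, hall⟩ := hg x (hP3 x h1 h2) (hP4 x h1 h2)
    obtain ⟨a, h3, h4, h5⟩ := hall v hv
    exact ⟨a, h3, h4, h5 ▸ hv⟩
  choose! a ha1 ha2 ha3 using hacc
  have hP1e : P x1 = A1 := by
    have h1 := hP1 x1 le_rfl hx
    have h3 := hP3 x1 le_rfl hx
    by_contra hh
    have := out_mono α0 (show A1 + 1 ≤ P x1 by omega)
    omega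
  have hP2e : P (x2-1) = A2 := by
    have h1 := hP2 (x2-1) (by omega) (by omega)
    have h3 := hP4 (x2-1) (by omega) (by omega)
    by_contra hh
    have := out_mono α0 (show P (x2-1) + 1 ≤ A2 by omega)
    omega
  -- windows of accepted strings
  have hwin : ∀ x, x1 ≤ x → x < x2 → ∀ j, a x ≤ j → j ≤ a x + 2050 * H →
      sub S j K ∈ Gset Acc K x1 x2 := by
    intro x h1 h2 j h3 h4
    refine ⟨by simp, x, h1, h2, sub S (a x) L, ha3 x h1 h2, ?_⟩
    have h5 := sub_window S (a x) L (j - a x) K (by omega)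
    rw [show a x + (j - a x) = j by omega] at h5
    rw [← h5]
    exact (List.take_prefix _ _).isInfix.trans (List.drop_suffix _ _).isInfix
  have hjump : ∀ x, x1 ≤ x → x + 1 < x2 → a (x+1) ≤ a x + 2050 * H := by
    intro x h1 h2
    have hg := (hgood (P x) (hP1 x h1 (by omega)) (hP2 x h1 (by omega))
      ⟨x, h1, by omega, hP3 x h1 (by omega), hP4 x h1 (by omega)⟩).2
    have h3 := ptr_jump hH hg (hP3 x h1 (by omega)) (hP4 x h1 (by omega)) (A' := P (x+1))
      (hP3 (x+1) (by omega) h2)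
    have h4 := ha1 (x+1) (by omega) h2
    have h5 := ha2 x h1 (by omega)
    omega
  have hcover : ∀ x, x1 ≤ x → x < x2 → ∀ j, a x1 ≤ j → j ≤ a x + 2050 * H →
      sub S j K ∈ Gset Acc K x1 x2 := by
    intro x h1
    induction x, h1 using Nat.le_induction with
    | base => intro h2 j h3 h4; exact hwin x1 le_rfl hx j h3 h4
    | succ x hx1 ih =>
      intro h2 j h3 h4
      rcases le_or_gt j (a x + 2050 * H) with h5 | h5
      · exact ih (by omega) j h3 h5
      · have := hjump x hx1 h2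
        exact hwin (x+1) (by omega) h2 j (by omega) h4
  have haA1 := ha1 x1 le_rfl hx
  have haA1' := ha2 x1 le_rfl hx
  have haA2 := ha1 (x2-1) (by omega) (by omega)
  have haA2' := ha2 (x2-1) (by omega) (by omega)
  rw [hP1e] at haA1 haA1'
  rw [hP2e] at haA2 haA2'
  -- an admissible string
  have hadm : ∃ z, Adm Acc K x1 x2 cap z ∧ A2 + L ≤ A1 + z.length + 2048 * H := by
    rcases le_total (a x1) (a (x2-1)) with h | h
    · refine ⟨sub S (a x1) (a (x2-1) + L - a x1), ⟨by simp; omega, by simp; omega, ?_⟩,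
        by simp; omega⟩
      intro j hj
      rw [sub_length] at hj
      rw [sub_window S _ _ _ _ hj]
      exact hcover (x2-1) (by omega) (by omega) _ (by omega) (by omega)
    · refine ⟨sub S (a x1) L, ⟨by simp; omega, by simp; omega, ?_⟩, by simp; omega⟩
      intro j hj
      rw [sub_length] at hj
      rw [sub_window S _ _ _ _ hj]
      exact hwin x1 le_rfl hx _ (by omega) (by omega)
  obtain ⟨z, hz, hzl⟩ := hadm
  obtain ⟨hb, hbl⟩ := blk_spec hz
  obtain ⟨c, hc1, hc2, hc3⟩ := path_unique (S := S) (lo := A1 - 1024 * H) (hi := A2 + 3074 * H)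
    (z := blk Acc K x1 x2 cap) hK hb.1
    (by
      intro j hj
      obtain ⟨hw, x, h1, h2, v, hv, hwv⟩ := hb.2.2 j hj
      have hg := (hgood (P x) (hP1 x h1 h2) (hP2 x h1 h2) ⟨x, h1, h2, hP3 x h1 h2, hP4 x h1 h2⟩).1
      obtain ⟨b, hb1, hb2, hb3⟩ := (hg x (hP3 x h1 h2) (hP4 x h1 h2)).2 v hv
      rw [hb3] at hwv
      obtain ⟨i, hi1, hi2⟩ := infix_sub hwv
      rw [hw] at hi1 hi2
      have hp1 := hP1 x h1 h2
      have hp2 := hP2 x h1 h2
      exact ⟨b + i, by omega, by omega, hi2⟩)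
    (by
      intro a b h1 h2 h3 h4 h5
      exact hd a b (by omega) h2 (by omega) h4 h5)
  refine ⟨c, _, hc3, by omega, by omega, by omega⟩

end W5h82.Trace
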