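import Mathlib

/-!
Core definitions for the approximate trace reconstruction project (MP_78205c_lc).
-/

set_option autoImplicit false

namespace W5h82.Trace

/-- The action of the channel at one character: the bits inserted before the character
is processed, and whether it is copied (`true`) or deleted (`false`). -/
abbrev Act := List Bool × Bool

/-- Output produced at a character `c` under the action `a`. -/
def piece (c : Bool) (a : Act) : List Bool := a.1 ++ (if a.2 then [c] else [])

/-- length of the output produced by an action -/
def plen (a : Act) : ℕ := a.1.length + (if a.2 then 1 else 0)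

/-- number of edits made by an action -/
def ed (a : Act) : ℕ := a.1.length + (if a.2 then 0 else 1)

/-- Output of the channel on characters `S a, S (a+1), …` under a list of actions. -/
def segL (S : ℕ → Bool) : ℕ → List Act → List Bool
  | _, [] => []
  | a, x :: l => piece (S a) x ++ segL S (a+1) l

/-- The actions on the characters `a, …, a+n-1`. -/
def acts (α : ℕ → Act) (a n : ℕ) : List Act := (List.range' a n).map α

/-- The output produced by the characters `a, …, a+n-1`. -/
def seg (S : ℕ → Bool) (α : ℕ → Act) (a n : ℕ) : List Bool := segL S a (acts α a n)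

/-- The substring `S a, …, S (a+n-1)`. -/
def sub (S : ℕ → Bool) (a n : ℕ) : List Bool := (List.range' a n).map S

/-- number of edits on the characters `a, …, a+n-1` -/
def edits (α : ℕ → Act) (a n : ℕ) : ℕ := ((acts α a n).map ed).sum

/-- length of the output of the characters `0, …, a-1` -/
def out (α : ℕ → Act) (a : ℕ) : ℕ := ((acts α 0 a).map plen).sum

/-- The last `w` symbols of the first `y` symbols. -/
def win (t : List Bool) (y w : ℕ) : List Bool := (t.take y).drop (y - w)

/-- `x` and `y` are at insertion/deletion distance at most `k`. -/
def Ind (k : ℕ) (x y : List Bool) : Prop :=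
  ∃ z : List Bool, z.Sublist x ∧ z.Sublist y ∧ x.length + y.length ≤ 2 * z.length + k

/-! ### Basic facts -/

@[simp] lemma acts_length (α : ℕ → Act) (a n : ℕ) : (acts α a n).length = n := by
  simp [acts]

@[simp] lemma sub_length (S : ℕ → Bool) (a n : ℕ) : (sub S a n).length = n := by
  simp [sub]

lemma acts_zero (α : ℕ → Act) (a : ℕ) : acts α a 0 = [] := by simp [acts]

lemma acts_succ (α : ℕ → Act) (a n : ℕ) : acts α a (n+1) = α a :: acts α (a+1) n := by
  simp [acts, List.range'_succ]

lemma acts_add (α : ℕ → Act) (a m n : ℕ) :
    acts α a (m+n) = acts α a m ++ acts α (a+m) n := by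
  unfold acts
  rw [← List.map_append]
  congr 1
  have := @List.range'_append a m n 1
  simpa using this.symm

lemma segL_append (S : ℕ → Bool) (a : ℕ) (l l' : List Act) :
    segL S a (l ++ l') = segL S a l ++ segL S (a + l.length) l' := by
  induction l generalizing a with
  | nil => simp [segL]
  | cons x l ih =>
    simp only [List.cons_append, segL, ih, List.append_assoc, List.length_cons]
    congr 3
    ring

lemma seg_add (S : ℕ → Bool) (α : ℕ → Act) (a m n : ℕ) :
    seg S α a (m+n) = seg S α a m ++ seg S α (a+m) n := by
  unfold seg
  rw [acts_add, segL_append, acts_length]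

lemma seg_zero (S : ℕ → Bool) (α : ℕ → Act) (a : ℕ) : seg S α a 0 = [] := by
  simp [seg, acts_zero, segL]

lemma seg_succ (S : ℕ → Bool) (α : ℕ → Act) (a n : ℕ) :
    seg S α a (n+1) = piece (S a) (α a) ++ seg S α (a+1) n := by
  simp [seg, acts_succ, segL]

lemma piece_length (c : Bool) (a : Act) : (piece c a).length = plen a := by
  unfold piece plen
  split <;> simp

lemma segL_length (S : ℕ → Bool) (a : ℕ) (l : List Act) :
    (segL S a l).length = (l.map plen).sum := by
  induction l generalizing a with
  | nil => simp [segL]
  | cons x l ih => simp [segL, ih, piece_length]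

lemma seg_length (S : ℕ → Bool) (α : ℕ → Act) (a n : ℕ) :
    (seg S α a n).length = ((acts α a n).map plen).sum := segL_length _ _ _

lemma out_add (α : ℕ → Act) (a n : ℕ) :
    out α (a+n) = out α a + ((acts α a n).map plen).sum := by
  unfold out
  rw [acts_add]
  simp

lemma seg_length_out (S : ℕ → Bool) (α : ℕ → Act) (a n : ℕ) :
    (seg S α a n).length + out α a = out α (a+n) := by
  rw [seg_length, out_add]; ring

lemma out_eq_length (S : ℕ → Bool) (α : ℕ → Act) (a : ℕ) :
    out α a = (seg S α 0 a).length := by
  rw [seg_length]; rfl

lemma edits_add (α : ℕ → Act) (a m n : ℕ) :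
    edits α a (m+n) = edits α a m + edits α (a+m) n := by
  unfold edits
  rw [acts_add]; simp

lemma edits_zero (α : ℕ → Act) (a : ℕ) : edits α a 0 = 0 := by simp [edits, acts_zero]

lemma edits_succ (α : ℕ → Act) (a n : ℕ) :
    edits α a (n+1) = ed (α a) + edits α (a+1) n := by
  simp [edits, acts_succ]

lemma sub_zero' (S : ℕ → Bool) (a : ℕ) : sub S a 0 = [] := by simp [sub]

lemma sub_succ (S : ℕ → Bool) (a n : ℕ) : sub S a (n+1) = S a :: sub S (a+1) n := by
  simp [sub, List.range'_succ]

lemma sub_add (S : ℕ → Bool) (a m n : ℕ) :
    sub S a (m+n) = sub S a m ++ sub S (a+m) n := by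
  unfold sub
  rw [← List.map_append]
  congr 1
  have := @List.range'_append a m n 1
  simpa using this.symm

end W5h82.Trace
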