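import Pool.Agent.W5h82.Trace.Asm

/-!
The decoder for long strings: deterministic analysis.
-/

set_option autoImplicit false

namespace W5h82.Trace

/-- the decoder: concatenate the decoded blocks -/
noncomputable def decA (Acc : ℕ → Set (List Bool)) (K X0 X1 Λ : ℕ) : List Bool :=
  ((List.range ((X1 - X0)/Λ + 1)).map
    (fun b => blk Acc K (X0 + b * Λ) (min (X0 + (b+1) * Λ) X1) (5 * Λ))).flatten

section

variable {α0 : ℕ → Act} {N0 N1 : ℕ}

lemma cb_ex (α0 : ℕ → Act) (N0 N1 x : ℕ) : ∃ c, N0 ≤ c ∧ (N1 ≤ c ∨ x ≤ out α0 c) :=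
  ⟨max N0 N1, le_max_left _ _, Or.inl (le_max_right _ _)⟩

open Classical in
/-- breakpoints -/
noncomputable def cb (α0 : ℕ → Act) (N0 N1 x : ℕ) : ℕ := Nat.find (cb_ex α0 N0 N1 x)

lemma cb_ge (x : ℕ) : N0 ≤ cb α0 N0 N1 x := by
  classical exact (Nat.find_spec (cb_ex α0 N0 N1 x)).1

lemma cb_spec (x : ℕ) : N1 ≤ cb α0 N0 N1 x ∨ x ≤ out α0 (cb α0 N0 N1 x) := by
  classical exact (Nat.find_spec (cb_ex α0 N0 N1 x)).2

lemma cb_min {x c : ℕ} (h1 : N0 ≤ c) (h2 : c < cb α0 N0 N1 x) : c < N1 ∧ out α0 c < x := by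
  classical
  have := Nat.find_min (cb_ex α0 N0 N1 x) h2
  push Not at this
  have := this h1
  exact ⟨by omega, by omega⟩

lemma cb_le {x c : ℕ} (h1 : N0 ≤ c) (h2 : N1 ≤ c ∨ x ≤ out α0 c) : cb α0 N0 N1 x ≤ c := by
  classical exact Nat.find_min' (cb_ex α0 N0 N1 x) ⟨h1, h2⟩

lemma cb_le_N1 (h : N0 ≤ N1) (x : ℕ) : cb α0 N0 N1 x ≤ N1 := cb_le h (Or.inl le_rfl)

lemma cb_mono {x y : ℕ} (h : x ≤ y) : cb α0 N0 N1 x ≤ cb α0 N0 N1 y := by
  apply cb_le (cb_ge y)
  rcases cb_spec (α0 := α0) (N0 := N0) (N1 := N1) y with h' | h'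
  · exact Or.inl h'
  · exact Or.inr (h.trans h')

lemma cb_start : cb α0 N0 N1 (out α0 N0) = N0 :=
  le_antisymm (cb_le le_rfl (Or.inr le_rfl)) (cb_ge _)

lemma cb_end (h : N0 ≤ N1) {x : ℕ} (hx : out α0 N1 < x) : cb α0 N0 N1 x = N1 := by
  apply le_antisymm (cb_le_N1 h x)
  rcases cb_spec (α0 := α0) (N0 := N0) (N1 := N1) x with h' | h'
  · exact h'
  · have := out_mono α0 (cb_le_N1 (α0 := α0) h x)
    omega

open Classical in
/-- positions where the scale of the blocks is not fine -/
noncomputable def EF (α0 : ℕ → Act) (H a b : ℕ) : Finset ℕ :=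
  (Finset.Ico a b).filter (fun A => tol H (3*H) < edits α0 (A - 4 * wid H (3*H)) (8 * wid H (3*H)))

lemma len_block {H x : ℕ} (hH : 1 ≤ H) (hN0 : 4 * wid H (3*H) ≤ N0) :
    cb α0 N0 N1 (x + wid H (3*H)) ≤ cb α0 N0 N1 x + 8 * wid H (3*H) +
      (EF α0 H (cb α0 N0 N1 x) (cb α0 N0 N1 (x + wid H (3*H)))).card := by
  classical
  set Λ := wid H (3*H) with hΛ
  have hw := wid_eq H (3*H)
  have ht := tol_pos hH (3*H)
  set c1 := cb α0 N0 N1 x with hc1
  set c2 := cb α0 N0 N1 (x + Λ) with hc2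
  by_cases hlong : c2 ≤ c1 + 8 * Λ
  · omega
  push Not at hlong
  have hge : N0 ≤ c1 := cb_ge x
  have hin : ∀ c, c1 ≤ c → c < c2 → c < N1 ∧ out α0 c < x + Λ :=
    fun c h1 h2 => cb_min (by omega) h2
  have hlo : ∀ c, c1 ≤ c → c < c2 → x ≤ out α0 c := by
    intro c h1 h2
    have h3 := (hin c1 le_rfl (by omega)).1
    rcases cb_spec (α0 := α0) (N0 := N0) (N1 := N1) x with h' | h'
    · omega
    · exact h'.trans (out_mono α0 h1)
  have hall : EF α0 H c1 c2 = Finset.Ico c1 c2 := by
    unfold EF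
    apply Finset.filter_true_of_mem
    intro A hA
    rw [Finset.mem_Ico] at hA
    obtain ⟨hA1, hA2⟩ := hA
    rw [← hΛ]
    rcases lt_or_ge (A + 4 * Λ) c2 with h | h
    · have g1 := le_out_add α0 A (4*Λ)
      have g2 := (hin (A + 4*Λ) (by omega) h).2
      have g3 := hlo A hA1 hA2
      have g4 := edits_le_of_subset α0 (a := A) (n := 4*Λ) (b := A - 4*Λ) (k := 8*Λ)
        (by omega) (by omega)
      omega
    · have g1 := le_out_add α0 (A - 4*Λ) (4*Λ)
      rw [show A - 4*Λ + 4*Λ = A by omega] at g1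
      have g2 := (hin A hA1 hA2).2
      have g3 := hlo (A - 4*Λ) (by omega) (by omega)
      have g4 := edits_le_of_subset α0 (a := A - 4*Λ) (n := 4*Λ) (b := A - 4*Λ) (k := 8*Λ)
        (by omega) (by omega)
      omega
  rw [hall, Nat.card_Ico]
  omega

variable {S : ℕ → Bool} {Acc : ℕ → Set (List Bool)}

/-- everything needed at a position -/
def GoodPos (H R L K : ℕ) (Acc : ℕ → Set (List Bool)) (S : ℕ → Bool) (α0 : ℕ → Act) (A : ℕ) :
    Prop :=
  GoodAcc L H Acc S α0 A ∧ FineE H R α0 A ∧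
    ∀ a b, A ≤ a + 8 * wid H (3*H) → a < b → b ≤ A + 8 * wid H (3*H) →
      sub S a (K-1) ≠ sub S b (K-1)

lemma perfect_block {H R K L x : ℕ} (hH : 10 ≤ H) (hR : 3*H ≤ R) (hK : K = 14334 * H)
    (hL : L = 16384 * H) (hN : N0 ≤ N1) (hN0 : 4 * wid H (3*H) ≤ N0)
    (hx : out α0 N0 ≤ x) (hx' : x + wid H (3*H) ≤ out α0 N1)
    (hgood : ∀ A, N0 ≤ A → A < N1 → (∃ y, x ≤ y ∧ y < x + wid H (3*H) ∧ out α0 A ≤ y ∧
      y < out α0 (A+1)) → GoodPos H R L K Acc S α0 A) :
    Ind (2^16 * H) (sub S (cb α0 N0 N1 x) (cb α0 N0 N1 (x + wid H (3*H)) - cb α0 N0 N1 x))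
      (blk Acc K x (x + wid H (3*H)) (5 * wid H (3*H))) := by
  set Λ := wid H (3*H) with hΛ
  have hw := wid_eq H (3*H)
  rw [← hΛ] at hw
  have h8 : 8 * H ≤ tol H (3*H) := by
    unfold tol
    exact Nat.mul_le_mul_right _ (by
      calc 8 = 2^3 := by norm_num
        _ ≤ 2^(3*H) := Nat.pow_le_pow_right (by norm_num) (by omega))
  have e0 : tol H 0 = H := by simp [tol]
  have w0 : wid H 0 = 4096 * H := by simp [wid]
  obtain ⟨A1, hA1a, hA1b, hA1c, hA1d⟩ := exists_ptr α0 (a := N0) (b := N1) (y := x) hx (by omega)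
  obtain ⟨A2, hA2a, hA2b, hA2c, hA2d⟩ := exists_ptr α0 (a := N0) (b := N1) (y := x + Λ - 1)
    (by omega) (by omega)
  have hA12 : A1 ≤ A2 := by
    by_contra hh
    have := out_mono α0 (show A2 + 1 ≤ A1 by omega)
    omega
  have hgA1 := hgood A1 hA1a hA1b ⟨x, le_rfl, by omega, hA1c, hA1d⟩
  -- `A2` is not far from `A1`
  have hed1 : ∀ a n, A1 ≤ a + 4 * wid H 0 → a + n ≤ A1 + 4 * wid H 0 → edits α0 a n ≤ H := by
    intro a n h1 h2
    have := hgA1.2.1.edits_le (Nat.zero_le R) h1 h2
    omega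
  have hfar : A2 < A1 + 4 * Λ := by
    by_contra hcon
    push Not at hcon
    have g1 := le_out_add α0 A1 (4*Λ)
    have g2 : edits α0 A1 (4*Λ) ≤ tol H (3*H) := hgA1.2.1.edits_le hR (by omega) (by omega)
    have g3 := out_mono α0 (show A1 + 4*Λ ≤ A2 by omega)
    have g4 := out_add_le α0 A1 1
    have g5 := hed1 A1 1 (by omega) (by omega)
    omega
  -- breakpoints
  have hc2 : cb α0 N0 N1 (x + Λ) = A2 + 1 := by
    apply le_antisymm
    · exact cb_le (by omega) (Or.inr (by omega))
    · by_contra hcon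
      push Not at hcon
      have h1 : cb α0 N0 N1 (x + Λ) ≤ A2 := by omega
      rcases cb_spec (α0 := α0) (N0 := N0) (N1 := N1) (x + Λ) with h' | h'
      · omega
      · have := out_mono α0 h1
        omega
  have hc1 : cb α0 N0 N1 x ≤ A1 + 1 := cb_le (by omega) (Or.inr (by omega))
  have hc1' : A1 ≤ cb α0 N0 N1 x + H := by
    by_contra hcon
    push Not at hcon
    have h1 : cb α0 N0 N1 x ≤ A1 - (H+1) := by omega
    rcases cb_spec (α0 := α0) (N0 := N0) (N1 := N1) x with h' | h'
    · omega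
    · have g1 := out_mono α0 h1
      have g2 := le_out_add α0 (A1 - (H+1)) (H+1)
      rw [show A1 - (H+1) + (H+1) = A1 by omega] at g2
      have g3 := hed1 (A1 - (H+1)) (H+1) (by omega) (by omega)
      omega
  obtain ⟨c, l, hblk, b1, b2, b3⟩ := block_good (S := S) (α0 := α0) (Acc := Acc) (H := H) (R := R)
    (K := K) (L := L) (x1 := x) (x2 := x + Λ) (A1 := A1) (A2 := A2) (cap := 5 * Λ)
    (by omega) (by omega) (by omega) (by omega) hA1c hA1d hA2c hA2d
    (by
      rintro A h1 h2 ⟨y, h3, h4, h5, h6⟩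
      have hg := hgood A (by omega) (by omega) ⟨y, h3, h4, h5, h6⟩
      exact ⟨hg.1, hg.2.1⟩)
    (by
      intro a b h1 h2 h3 h4 h5
      rcases lt_trichotomy a b with h | h | h
      · exact absurd h5 (hgA1.2.2 a b (by omega) h (by omega))
      · exact h
      · exact absurd h5.symm (hgA1.2.2 b a (by omega) h (by omega)))
    (by omega)
  rw [hblk, hc2]
  apply ind_sub
  omega

lemma decA_ind {H R K L : ℕ} (hH : 10 ≤ H) (hR : 3*H ≤ R) (hK : K = 14334 * H)
    (hL : L = 16384 * H) (hN : N0 ≤ N1) (hN0 : 4 * wid H (3*H) ≤ N0) (W : ℕ)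
    (hW : open Classical in ∑ A ∈ (Finset.Ico N0 N1).filter
      (fun A => ¬ GoodPos H R L K Acc S α0 A), plen (α0 A) ≤ W) :
    Ind (2^16 * H * ((out α0 N1 - out α0 N0)/(wid H (3*H)) + 1) + 13 * wid H (3*H) * (1 + W)
      + (EF α0 H N0 N1).card) (sub S N0 (N1 - N0))
      (decA Acc K (out α0 N0) (out α0 N1) (wid H (3*H))) := by
  classical
  set Λ := wid H (3*H) with hΛ
  set X0 := out α0 N0 with hX0
  set X1 := out α0 N1 with hX1
  have hX : X0 ≤ X1 := out_mono α0 hN
  have hw := wid_eq H (3*H)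
  have ht := tol_pos (show 1 ≤ H by omega) (3*H)
  have hΛ0 : 0 < Λ := by omega
  set f : ℕ → List Bool := fun b => blk Acc K (X0 + b * Λ) (min (X0 + (b+1) * Λ) X1) (5 * Λ) with hf
  set Imp : ℕ → Prop := fun b => ¬ (X0 + (b+1) * Λ ≤ X1 ∧ ∀ A, N0 ≤ A → A < N1 →
    (∃ y, X0 + b*Λ ≤ y ∧ y < X0 + b*Λ + Λ ∧ out α0 A ≤ y ∧ y < out α0 (A+1)) →
      GoodPos H R L K Acc S α0 A) with hImp
  set c : ℕ → ℕ := fun b => cb α0 N0 N1 (X0 + b*Λ) with hc
  have key : ∀ b, Ind (2^16 * H * b + 13 * Λ * ((Finset.range b).filter Imp).card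
      + (EF α0 H N0 (c b)).card) (sub S N0 (c b - N0)) (((List.range b).map f).flatten) := by
    intro b
    induction b with
    | zero =>
      have : c 0 = N0 := by simp only [hc, Nat.zero_mul, Nat.add_zero]; exact cb_start
      rw [this, Nat.sub_self, sub_zero']
      simp only [List.range_zero, List.map_nil, List.flatten_nil]
      exact (Ind.refl []).mono (by omega)
    | succ b ih =>
      have hcc : c b ≤ c (b+1) := cb_mono (by nlinarith)
      have hcN : N0 ≤ c b := cb_ge _
      have e1 : sub S N0 (c (b+1) - N0) = sub S N0 (c b - N0) ++ sub S (c b) (c (b+1) - c b) := by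
        have := sub_add S N0 (c b - N0) (c (b+1) - c b)
        rw [show c b - N0 + (c (b+1) - c b) = c (b+1) - N0 by omega,
          show N0 + (c b - N0) = c b by omega] at this
        exact this
      have e2 : ((List.range (b+1)).map f).flatten = ((List.range b).map f).flatten ++ f b := by
        rw [List.range_succ]; simp
      have exb : X0 + (b+1)*Λ = X0 + b*Λ + Λ := by ring
      have e3 : (EF α0 H N0 (c (b+1))).card
          = (EF α0 H N0 (c b)).card + (EF α0 H (c b) (c (b+1))).card := by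
        unfold EF
        rw [← Finset.card_union_of_disjoint, ← Finset.filter_union,
          Finset.Ico_union_Ico_eq_Ico hcN hcc]
        apply Finset.disjoint_filter_filter
        exact Finset.Ico_disjoint_Ico_consecutive _ _ _
      have hlen := len_block (α0 := α0) (N0 := N0) (N1 := N1) (H := H) (x := X0 + b*Λ) (by omega) hN0
      rw [← hΛ, ← exb] at hlen
      rw [e1, e2, Finset.range_add_one, Finset.filter_insert]
      by_cases hi : Imp b
      · rw [if_pos hi, Finset.card_insert_of_notMem (by simp)]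
        have h1 : Ind (13 * Λ + (EF α0 H (c b) (c (b+1))).card) (sub S (c b) (c (b+1) - c b))
            (f b) := by
          refine ⟨[], by simp, by simp, ?_⟩
          have h2 := blk_length_le Acc K (X0 + b * Λ) (min (X0 + (b+1) * Λ) X1) (5 * Λ)
          have h3 : (f b).length ≤ 5 * Λ := h2
          have h4 : c (b+1) ≤ c b + 8 * Λ + (EF α0 H (c b) (c (b+1))).card := hlen
          simp only [sub_length, List.length_nil]
          omega
        refine (ih.append h1).mono ?_
        rw [e3]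
        ring_nf
        omega
      · rw [if_neg hi]
        rw [hImp] at hi
        simp only [not_not] at hi
        obtain ⟨hi1, hi2⟩ := hi
        have h1 := perfect_block (Acc := Acc) (S := S) (x := X0 + b*Λ) hH hR hK hL hN hN0
          (by omega) (by rw [← hΛ]; omega) hi2
        have h2 : Ind (2^16 * H) (sub S (c b) (c (b+1) - c b)) (f b) := by
          simp only [hc, hf]
          rw [exb, min_eq_left (by omega)]
          exact h1
        refine (ih.append h2).mono ?_
        rw [e3]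
        ring_nf
        omega
  set B := (X1 - X0)/Λ + 1 with hB
  have hBΛ : X1 < X0 + B * Λ := by
    have h1 := Nat.lt_div_mul_add (a := X1 - X0) hΛ0
    have h2 : B * Λ = (X1 - X0)/Λ*Λ + Λ := by rw [hB]; ring
    omega
  have hcB : c B = N1 := cb_end hN hBΛ
  have hfin := key B
  rw [hcB] at hfin
  refine hfin.mono ?_
  have hcount : ((Finset.range B).filter Imp).card ≤ 1 + W := by
    set T := ((Finset.Ico N0 N1).filter (fun A => ¬ GoodPos H R L K Acc S α0 A)).biUnion
      (fun A => Finset.Ico (out α0 A) (out α0 (A+1))) with hT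
    have hTc : T.card ≤ W := by
      refine le_trans Finset.card_biUnion_le (le_trans (le_of_eq ?_) hW)
      apply Finset.sum_congr rfl
      intro A _
      rw [Nat.card_Ico, out_succ]; omega
    have hsub : (Finset.range B).filter Imp ⊆ insert (B-1) (T.image (fun x => (x - X0)/Λ)) := by
      intro b hb
      simp only [Finset.mem_filter, Finset.mem_range] at hb
      obtain ⟨hb1, hb2⟩ := hb
      rw [Finset.mem_insert]
      by_cases hbB : b = B - 1
      · left; exact hbB
      · right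
        have h1 : X0 + (b+1)*Λ ≤ X1 := by
          have h2 : b + 1 ≤ (X1 - X0)/Λ := by omega
          have h3 := Nat.div_mul_le_self (X1 - X0) Λ
          have h4 := Nat.mul_le_mul_right Λ h2
          omega
        simp only [hImp] at hb2
        push Not at hb2
        obtain ⟨A, hA1, hA2, ⟨y, hy1, hy2, hy3, hy4⟩, hA3⟩ := hb2 h1
        rw [Finset.mem_image]
        refine ⟨y, ?_, ?_⟩
        · rw [hT, Finset.mem_biUnion]
          exact ⟨A, by simp [hA1, hA2, hA3], by simp [hy3, hy4]⟩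
        · apply Nat.div_eq_of_lt_le
          · omega
          · have : (b+1) * Λ = b * Λ + Λ := by ring
            omega
    calc _ ≤ (insert (B-1) (T.image (fun x => (x - X0)/Λ))).card := Finset.card_le_card hsub
      _ ≤ (T.image (fun x => (x - X0)/Λ)).card + 1 := Finset.card_insert_le _ _
      _ ≤ T.card + 1 := by
          have := Finset.card_image_le (s := T) (f := fun x => (x - X0)/Λ)
          omega
      _ ≤ 1 + W := by omega
  have := Nat.mul_le_mul_left (13 * Λ) hcount
  omega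

/-- the length of the reference output -/
lemma out_diff_le {H R K L : ℕ} (hN : N0 ≤ N1) (W : ℕ) (hH : 1 ≤ H)
    (hW : open Classical in ∑ A ∈ (Finset.Ico N0 N1).filter
      (fun A => ¬ GoodPos H R L K Acc S α0 A), plen (α0 A) ≤ W) :
    out α0 N1 - out α0 N0 ≤ (N1 - N0) * (1 + H) + W := by
  classical
  have h1 : ∀ n, out α0 (N0 + n) = out α0 N0 + ∑ A ∈ Finset.Ico N0 (N0+n), plen (α0 A) := by
    intro n
    induction n with
    | zero => simp
    | succ n ih =>
      rw [show N0 + (n+1) = N0 + n + 1 by ring, out_succ, ih, Finset.sum_Ico_succ_top (by omega)]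
      ring
  have h2 := h1 (N1 - N0)
  rw [show N0 + (N1 - N0) = N1 by omega] at h2
  rw [h2, Nat.add_sub_cancel_left]
  rw [← Finset.sum_filter_add_sum_filter_not (Finset.Ico N0 N1)
    (fun A => GoodPos H R L K Acc S α0 A)]
  apply add_le_add _ hW
  calc _ ≤ ∑ A ∈ (Finset.Ico N0 N1).filter (fun A => GoodPos H R L K Acc S α0 A), (1 + H) := by
        apply Finset.sum_le_sum
        intro A hA
        rw [Finset.mem_filter] at hA
        have g1 := hA.2.2.1.edits_le (Nat.zero_le R) (a := A) (n := 1) (by omega) (by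
          have : wid H 0 = 4096 * H := by simp [wid]
          omega)
        rw [edits_succ, edits_zero] at g1
        have g2 := plen_le (α0 A)
        have e0 : tol H 0 = H := by simp [tol]
        omega
    _ ≤ (N1 - N0) * (1 + H) := by
        rw [Finset.sum_const, smul_eq_mul]
        apply Nat.mul_le_mul_right
        refine (Finset.card_filter_le _ _).trans ?_
        rw [Nat.card_Ico]

end

end W5h82.Trace
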