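import Pool.Agent.W5h82.Trace.Core

/-!
Insertion/deletion distance: elementary facts.
-/

set_option autoImplicit false

namespace W5h82.Trace

lemma common_sublist (y : List Bool) : ∀ z1 z2 : List Bool, z1.Sublist y → z2.Sublist y →
    ∃ w : List Bool, w.Sublist z1 ∧ w.Sublist z2 ∧ z1.length + z2.length ≤ y.length + w.length := by
  induction y with
  | nil =>
    intro z1 z2 h1 h2
    rw [List.sublist_nil] at h1 h2
    subst h1 h2
    exact ⟨[], by simp, by simp, by simp⟩
  | cons c y ih =>
    intro z1 z2 h1 h2
    rcases List.sublist_cons_iff.1 h1 with g1 | ⟨r1, e1, g1⟩ <;>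
    rcases List.sublist_cons_iff.1 h2 with g2 | ⟨r2, e2, g2⟩
    · obtain ⟨w, a, b, e⟩ := ih _ _ g1 g2
      exact ⟨w, a, b, by simp; omega⟩
    · obtain ⟨w, a, b, e⟩ := ih _ _ g1 g2
      subst e2
      exact ⟨w, a, b.trans (List.sublist_cons_self _ _), by simp; omega⟩
    · obtain ⟨w, a, b, e⟩ := ih _ _ g1 g2
      subst e1
      exact ⟨w, a.trans (List.sublist_cons_self _ _), b, by simp; omega⟩
    · obtain ⟨w, a, b, e⟩ := ih _ _ g1 g2
      subst e1 e2
      exact ⟨c :: w, a.cons_cons c, b.cons_cons c, by simp; omega⟩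

lemma Ind.refl (x : List Bool) : Ind 0 x x := ⟨x, List.Sublist.refl _, List.Sublist.refl _, by omega⟩

lemma Ind.symm {k : ℕ} {x y : List Bool} (h : Ind k x y) : Ind k y x := by
  obtain ⟨z, a, b, e⟩ := h
  exact ⟨z, b, a, by omega⟩

lemma Ind.mono {k k' : ℕ} {x y : List Bool} (h : Ind k x y) (hk : k ≤ k') : Ind k' x y := by
  obtain ⟨z, a, b, e⟩ := h
  exact ⟨z, a, b, by omega⟩

lemma Ind.trans {k k' : ℕ} {x y z : List Bool} (h : Ind k x y) (h' : Ind k' y z) :
    Ind (k + k') x z := by
  obtain ⟨u, a, b, e⟩ := h
  obtain ⟨v, a', b', e'⟩ := h'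
  obtain ⟨w, hw1, hw2, e''⟩ := common_sublist y u v b a'
  exact ⟨w, hw1.trans a, hw2.trans b', by omega⟩

lemma Ind.append {k k' : ℕ} {x y x' y' : List Bool} (h : Ind k x y) (h' : Ind k' x' y') :
    Ind (k + k') (x ++ x') (y ++ y') := by
  obtain ⟨u, a, b, e⟩ := h
  obtain ⟨v, a', b', e'⟩ := h'
  exact ⟨u ++ v, a.append a', b.append b', by simp; omega⟩

lemma Ind.of_sublist {k : ℕ} {x y : List Bool} (h : x.Sublist y) (hk : y.length ≤ x.length + k) :
    Ind k x y := ⟨x, List.Sublist.refl _, h, by omega⟩

lemma ind_piece (c : Bool) (a : Act) : Ind (ed a) (piece c a) [c] := by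
  unfold piece ed
  by_cases h : a.2
  · simpa [h] using (Ind.of_sublist (k := a.1.length) (x := [c]) (y := a.1 ++ [c])
        (List.sublist_append_right _ _) (by simp)).symm
  · simp only [h, Bool.false_eq_true, ↓reduceIte, List.append_nil]
    exact ⟨[], by simp, by simp, by simp⟩

lemma ind_seg (S : ℕ → Bool) (α : ℕ → Act) (a n : ℕ) :
    Ind (edits α a n) (seg S α a n) (sub S a n) := by
  induction n generalizing a with
  | zero => rw [edits_zero, seg_zero, sub_zero']; exact Ind.refl _
  | succ n ih =>
    rw [edits_succ, seg_succ, sub_succ]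
    exact (ind_piece _ _).append (ih (a+1))

lemma plen_le (a : Act) : plen a ≤ 1 + ed a := by
  unfold plen ed; split <;> omega

lemma le_plen (a : Act) : 1 ≤ plen a + ed a := by
  unfold plen ed; split <;> omega

lemma sum_plen_le (α : ℕ → Act) (a n : ℕ) :
    ((acts α a n).map plen).sum ≤ n + edits α a n := by
  induction n generalizing a with
  | zero => simp [acts_zero]
  | succ n ih =>
    rw [edits_succ, acts_succ]
    have := ih (a+1)
    have := plen_le (α a)
    simp; omega

lemma le_sum_plen (α : ℕ → Act) (a n : ℕ) :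
    n ≤ ((acts α a n).map plen).sum + edits α a n := by
  induction n generalizing a with
  | zero => simp
  | succ n ih =>
    rw [edits_succ, acts_succ]
    have := ih (a+1)
    have := le_plen (α a)
    simp; omega

lemma out_mono (α : ℕ → Act) {a b : ℕ} (h : a ≤ b) : out α a ≤ out α b := by
  obtain ⟨n, rfl⟩ := Nat.exists_eq_add_of_le h
  rw [out_add]; omega

lemma out_succ (α : ℕ → Act) (a : ℕ) : out α (a+1) = out α a + plen (α a) := by
  rw [out_add]; simp [acts_succ, acts_zero]

lemma out_add_le (α : ℕ → Act) (a n : ℕ) : out α (a+n) ≤ out α a + n + edits α a n := by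
  rw [out_add]; have := sum_plen_le α a n; omega

lemma le_out_add (α : ℕ → Act) (a n : ℕ) : out α a + n ≤ out α (a+n) + edits α a n := by
  rw [out_add]; have := le_sum_plen α a n; omega

lemma edits_le_of_subset (α : ℕ → Act) {a n b k : ℕ} (h1 : b ≤ a) (h2 : a + n ≤ b + k) :
    edits α a n ≤ edits α b k := by
  obtain ⟨d, rfl⟩ := Nat.exists_eq_add_of_le h1
  obtain ⟨e, he⟩ := Nat.exists_eq_add_of_le h2
  have : k = d + (n + e) := by omega
  subst this
  rw [edits_add, edits_add]; omega

/-! ### windows -/

lemma win_length {t : List Bool} {y w : ℕ} (hy : y ≤ t.length) (hw : w ≤ y) :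
    (win t y w).length = w := by
  unfold win; simp; omega

/-- the window is close to the end part `Q` of `t.take y = P ++ Q`. -/
lemma ind_win_of_append {t P Q : List Bool} {y w k : ℕ} (hy : y ≤ t.length) (hw : w ≤ y)
    (h : t.take y = P ++ Q) (h1 : Q.length ≤ w + k) (h2 : w ≤ Q.length + k) :
    Ind k (win t y w) Q := by
  have hlen : P.length + Q.length = y := by
    have := congrArg List.length h
    simp at this; omega
  have hwl := win_length hy hw
  rcases le_total w Q.length with hq | hq
  · have e : win t y w = Q.drop (Q.length - w) := by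
      unfold win
      rw [h, List.drop_append, List.drop_eq_nil_of_le (by omega), List.nil_append]
      congr 1; omega
    rw [e]
    exact Ind.of_sublist (List.drop_sublist _ _) (by simp; omega)
  · have e : win t y w = P.drop (y - w) ++ Q := by
      unfold win
      rw [h, List.drop_append]
      congr 1
      rw [Nat.sub_eq_zero_of_le (by omega)]; simp
    have hs : Q.Sublist (win t y w) := by rw [e]; exact List.sublist_append_right _ _
    exact (Ind.of_sublist hs (by omega)).symm

lemma win_take {t : List Bool} {y w z : ℕ} (h : y ≤ z) : win (t.take z) y w = win t y w := by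
  unfold win
  rw [List.take_take, min_eq_left h]

/-- shifting a window -/
lemma ind_win_shift {t : List Bool} {y y' w : ℕ} (hy : y' ≤ t.length) (hw : w ≤ y) (h : y ≤ y') :
    Ind (2 * (y' - y)) (win t y w) (win t y' w) := by
  -- common part: positions `y' - w .. y`
  rcases le_total w (y' - y) with hc | hc
  · refine ⟨[], by simp, by simp, ?_⟩
    rw [win_length (by omega) hw, win_length hy (by omega)]
    simp; omega
  · refine ⟨(t.take y).drop (y' - w), ?_, ?_, ?_⟩
    · unfold win
      have : y' - w = (y - w) + (y' - y) := by omega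
      rw [this, ← List.drop_drop]
      exact List.drop_sublist _ _
    · unfold win
      apply List.Sublist.drop
      exact List.take_sublist_take_left h
    · rw [win_length (by omega) hw, win_length hy (by omega)]
      simp; omega

end W5h82.Trace
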