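import Pool.Agent.W5h82.Trace.Space
import Pool.Agent.W5h82.Trace.Ind

/-!
The probability space: bits and actions of `m` traces on `M` positions.
-/

set_option autoImplicit false

open MeasureTheory ENNReal

namespace W5h82.Trace

abbrev Idx (m M : ℕ) := Option (Fin m) × Fin M
abbrev Cell := Bool × Act
abbrev Om (m M : ℕ) := Idx m M → Cell

noncomputable def coin : Measure Bool := (2:ℝ≥0∞)⁻¹ • (Measure.dirac true + Measure.dirac false)

instance : IsProbabilityMeasure coin := by
  constructor
  simp [coin]
  rw [← two_mul, ENNReal.mul_inv_cancel] <;> simp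

lemma coin_not : MeasurePreserving (fun b : Bool => !b) coin coin := by
  refine ⟨Measurable.of_discrete, ?_⟩
  unfold coin
  rw [Measure.map_smul, Measure.map_add _ _ Measurable.of_discrete,
    Measure.map_dirac' Measurable.of_discrete, Measure.map_dirac' Measurable.of_discrete]
  simp [add_comm]

noncomputable def cellM (p : ℝ) : Measure Cell := coin.prod (act p)

instance (p : ℝ) [Fact (0 < p ∧ p < 1)] : IsProbabilityMeasure (cellM p) := by
  unfold cellM; infer_instance

noncomputable def mu (p : ℝ) (m M : ℕ) : Measure (Om m M) := Measure.pi (fun _ => cellM p)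

instance (p : ℝ) [Fact (0 < p ∧ p < 1)] (m M : ℕ) : IsProbabilityMeasure (mu p m M) := by
  unfold mu; infer_instance

variable {m M : ℕ}

/-- the string -/
def bit (ω : Om m M) : ℕ → Bool := fun j => if h : j < M then (ω (none, ⟨j, h⟩)).1 else false

/-- the actions of trace `i` -/
def ac (ω : Om m M) (i : Fin m) : ℕ → Act :=
  fun j => if h : j < M then (ω (some i, ⟨j, h⟩)).2 else ([], true)

variable (p : ℝ) [hp : Fact (0 < p ∧ p < 1)]

/-- flip the bit at position `j` -/
def flip (j : ℕ) (ω : Om m M) : Om m M :=
  fun i => if i.1 = none ∧ i.2.val = j then (!(ω i).1, (ω i).2) else ω i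

lemma mp_flip (j : ℕ) : MeasurePreserving (flip j) (mu p m M) (mu p m M) := by
  unfold mu
  have : (flip j : Om m M → Om m M) = fun ω i =>
      (if i.1 = none ∧ i.2.val = j then (fun c : Cell => ((!c.1, c.2) : Cell)) else id) (ω i) := by
    funext ω i
    unfold flip
    split <;> simp
  rw [this]
  apply measurePreserving_pi
  intro i
  split
  · unfold cellM
    have := coin_not.prod (MeasurePreserving.id (act p))
    exact this
  · exact MeasurePreserving.id _

lemma bit_flip_same {j : ℕ} (hj : j < M) (ω : Om m M) : bit (flip j ω) j = !(bit ω j) := by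
  simp [bit, flip, hj]

lemma bit_flip_ne {j k : ℕ} (h : k ≠ j) (ω : Om m M) : bit (flip j ω) k = bit ω k := by
  unfold bit flip
  split
  · simp [h]
  · rfl

/-- probability of a system of equations along an increasing sequence of positions -/
theorem prob_eqs (α β : ℕ → ℕ) (K : ℕ) (hlt : ∀ k < K, α k < β k) (hM : ∀ k < K, β k < M)
    (hmono : ∀ k l, k < l → l < K → β k < β l) :
    mu p m M {ω | ∀ k < K, bit ω (α k) = bit ω (β k)} ≤ (2⁻¹ : ℝ≥0∞)^K := by
  induction K with
  | zero => simp
  | succ K ih =>
    have ih' := ih (fun k hk => hlt k (by omega)) (fun k hk => hM k (by omega))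
      (fun k l hkl hl => hmono k l hkl (by omega))
    set P : Set (Om m M) := {ω | ∀ k < K, bit ω (α k) = bit ω (β k)} with hP
    set E : Set (Om m M) := {ω | bit ω (α K) = bit ω (β K)} with hE
    have hset : {ω : Om m M | ∀ k < K+1, bit ω (α k) = bit ω (β k)} = P ∩ E := by
      ext ω
      simp only [hP, hE, Set.mem_ofPred_eq, Set.mem_inter_iff]
      constructor
      · intro h
        exact ⟨fun k hk => h k (by omega), h K (by omega)⟩
      · rintro ⟨h1, h2⟩ k hk
        rcases Nat.lt_succ_iff_lt_or_eq.1 hk with h | rfl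
        · exact h1 k h
        · exact h2
    have hpre : flip (β K) ⁻¹' (P ∩ E) = P ∩ Eᶜ := by
      ext ω
      have hβ : ∀ k < K, β k ≠ β K := fun k hk => (hmono k K hk (by omega)).ne
      have hα : ∀ k < K, α k ≠ β K := fun k hk => by
        have := hlt k (by omega); have := hmono k K hk (by omega); omega
      have hαK : α K ≠ β K := (hlt K (by omega)).ne
      simp only [hP, hE, Set.mem_preimage, Set.mem_inter_iff, Set.mem_ofPred_eq, Set.mem_compl_iff]
      rw [bit_flip_same (hM K (by omega)), bit_flip_ne hαK]
      constructor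
      · rintro ⟨h1, h2⟩
        refine ⟨fun k hk => ?_, ?_⟩
        · have := h1 k hk
          rwa [bit_flip_ne (hα k hk), bit_flip_ne (hβ k hk)] at this
        · intro h3; rw [h3] at h2; simp at h2
      · rintro ⟨h1, h2⟩
        refine ⟨fun k hk => ?_, ?_⟩
        · rw [bit_flip_ne (hα k hk), bit_flip_ne (hβ k hk)]; exact h1 k hk
        · revert h2
          cases bit ω (α K) <;> cases bit ω (β K) <;> simp
    have e1 : mu p m M (P ∩ E) = mu p m M (P ∩ Eᶜ) := by
      rw [← hpre]
      exact ((mp_flip p (β K)).measure_preimage (MeasurableSet.of_discrete).nullMeasurableSet).symm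
    have e2 : mu p m M P = mu p m M (P ∩ E) + mu p m M (P ∩ Eᶜ) := by
      rw [← measure_inter_add_sdiff P (MeasurableSet.of_discrete (s := E))]
      rfl
    rw [hset]
    have e3 : mu p m M P = 2 * mu p m M (P ∩ E) := by rw [e2, ← e1, two_mul]
    have e4 : mu p m M (P ∩ E) = 2⁻¹ * mu p m M P := by
      rw [e3, ← mul_assoc, ENNReal.inv_mul_cancel (by simp) (by simp), one_mul]
    rw [e4, pow_succ, mul_comm]
    exact mul_le_mul_left ih' _

/-! ### the law of the actions -/

/-- coordinates of trace `i` at the positions `a, …, a+n-1` -/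
def JT (m M : ℕ) (i : Fin m) (a n : ℕ) : Set (Idx m M) :=
  {k | k.1 = some i ∧ a ≤ k.2.val ∧ k.2.val < a + n}

lemma acts_dep (i : Fin m) (a n : ℕ) (ω ω' : Om m M) (h : ∀ k ∈ JT m M i a n, ω k = ω' k) :
    acts (ac ω i) a n = acts (ac ω' i) a n := by
  unfold acts
  apply List.map_congr_left
  intro j hj
  rw [List.mem_range'_1] at hj
  unfold ac
  split
  · rename_i hM
    rw [h (some i, ⟨j, hM⟩) ⟨rfl, hj.1, hj.2⟩]
  · rfl

theorem law_acts (i : Fin m) (n : ℕ) : ∀ a, a + n ≤ M →
    (mu p m M).map (fun ω => acts (ac ω i) a n) = actL p n := by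
  induction n with
  | zero =>
    intro a _
    simp only [acts_zero, actL]
    rw [Measure.map_const]
    simp
  | succ n ih =>
    intro a ha
    have haM : a < M := by omega
    rw [actL, ← ih (a+1) (by omega)]
    have hc : (mu p m M).map (fun ω => (ω (some i, ⟨a, haM⟩)).2) = act p := by
      have h1 : (mu p m M).map (Function.eval (some i, (⟨a, haM⟩ : Fin M))) = cellM p :=
        (measurePreserving_eval (fun _ : Idx m M => cellM p) (some i, ⟨a, haM⟩)).map_eq
      have h2 : (cellM p).map Prod.snd = act p := by
        unfold cellM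
        rw [Measure.map_snd_prod, measure_univ, one_smul]
      rw [← h2, ← h1, Measure.map_map Measurable.of_discrete Measurable.of_discrete]
      rfl
    rw [← hc, Measure.map_prod_map _ _ Measurable.of_discrete Measurable.of_discrete,
      Measure.map_map Measurable.of_discrete Measurable.of_discrete]
    conv_lhs => rw [show mu p m M = Measure.pi (fun _ => cellM p) from rfl,
      ← (mp_ov (cellM p) ({(some i, (⟨a, haM⟩ : Fin M))} : Set (Idx m M))).map_eq,
      Measure.map_map Measurable.of_discrete Measurable.of_discrete]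
    unfold mu
    have hswap := (Measure.measurePreserving_swap
      (μ := (Measure.pi fun _ : Idx m M => cellM p))
      (ν := (Measure.pi fun _ : Idx m M => cellM p))).map_eq
    conv_lhs => rw [← hswap, Measure.map_map Measurable.of_discrete Measurable.of_discrete]
    congr 1
    funext q
    simp only [Function.comp, Prod.swap, Prod.map]
    rw [acts_succ]
    congr 1
    · unfold ac
      rw [dif_pos haM, ov_mem (by simp)]
    · apply acts_dep
      intro k hk
      rw [ov_not_mem]
      intro h
      simp only [Set.mem_singleton_iff] at h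
      rw [h] at hk
      have := hk.2.1
      simp at this

lemma measure_acts (i : Fin m) {a n : ℕ} (h : a + n ≤ M) (G : Set (List Act)) :
    mu p m M {ω | acts (ac ω i) a n ∈ G} = actL p n G := by
  rw [← law_acts p i n a h, Measure.map_apply Measurable.of_discrete MeasurableSet.of_discrete]
  rfl

lemma integral_acts (i : Fin m) {a n : ℕ} (h : a + n ≤ M) (f : List Act → ℝ) :
    ∫ ω, f (acts (ac ω i) a n) ∂(mu p m M) = ∫ l, f l ∂(actL p n) := by
  rw [← law_acts p i n a h, integral_map (Measurable.of_discrete).aemeasurable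
    (Measurable.of_discrete).aestronglyMeasurable]

lemma JT_disjoint {i j : Fin m} (h : i ≠ j) (a n b k : ℕ) :
    Disjoint (JT m M i a n) (JT m M j b k) := by
  rw [Set.disjoint_left]
  intro x hx hy
  exact h (by have := hx.1.symm.trans hy.1; simpa using this)

/-- Chebyshev for the average over the traces of a bounded function. -/
theorem votes_cheb (I : Finset (Fin m)) (f : List Act → ℝ) (K : ℝ) (hK : ∀ l, |f l| ≤ K)
    {τ : ℝ} (hτ : 0 < τ) (hI : 0 < I.card) :
    (mu p m M).real {ω | τ * I.card ≤ |∑ i ∈ I, f (acts (ac ω i) 0 M)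
        - I.card * ∫ l, f l ∂(actL p M)|} ≤ K^2 / (τ^2 * I.card) := by
  set E := ∫ l, f l ∂(actL p M) with hE
  have hK0 : 0 ≤ K := le_trans (abs_nonneg _) (hK [])
  have hEK : |E| ≤ K := by
    have h := norm_integral_le_of_norm_le_const (μ := actL p M) (f := f) (C := K)
      (Filter.Eventually.of_forall (fun l => by rw [Real.norm_eq_abs]; exact hK _))
    simpa using h
  have hb : ∀ (i : Fin m) (ω : Om m M), |f (acts (ac ω i) 0 M) - E| ≤ 2*K := by
    intro i ω
    calc _ ≤ |f (acts (ac ω i) 0 M)| + |E| := abs_sub _ _
      _ ≤ 2*K := by linarith [hK (acts (ac ω i) 0 M)]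
  have hmean : ∀ i : Fin m, ∫ ω, f (acts (ac ω i) 0 M) ∂(mu p m M) = E :=
    fun i => integral_acts p i (by omega) f
  have hcen : ∀ i : Fin m, ∫ ω, (f (acts (ac ω i) 0 M) - E) ∂(mu p m M) = 0 := by
    intro i
    rw [integral_sub (integrable_bdd K (fun _ => hK _)) (integrable_const _), hmean i]
    simp
  have hV := sq_sum_le (mu p m M) I (fun i ω => f (acts (ac ω i) 0 M) - E) (2*K) hb
    (fun i j => i = j) (K^2) 1
    (by
      intro i _ j _ hij
      subst hij
      have e : ∀ ω : Om m M, (f (acts (ac ω i) 0 M) - E) * (f (acts (ac ω i) 0 M) - E)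
          = (f (acts (ac ω i) 0 M))^2 - (2*E) * f (acts (ac ω i) 0 M) + E^2 := by
        intro ω; ring
      simp only [e]
      have i1 : Integrable (fun ω : Om m M => (f (acts (ac ω i) 0 M))^2) (mu p m M) := by
        apply integrable_bdd (K^2)
        intro ω
        rw [abs_pow]
        exact pow_le_pow_left₀ (abs_nonneg _) (hK _) 2
      have i2 : Integrable (fun ω : Om m M => (2*E) * f (acts (ac ω i) 0 M)) (mu p m M) :=
        (integrable_bdd K (fun _ => hK _)).const_mul _
      have e5 := integral_add (i1.sub i2) (integrable_const (μ := mu p m M) (E^2))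
      have e6 := integral_sub i1 i2
      simp only [Pi.sub_apply] at e5
      rw [e5, e6, integral_const_mul, hmean i]
      have h3 : ∫ ω, (f (acts (ac ω i) 0 M))^2 ∂(mu p m M) ≤ K^2 := by
        calc _ ≤ ∫ ω : Om m M, K^2 ∂(mu p m M) := by
              apply integral_mono i1 (integrable_const _)
              intro ω
              simp only
              rw [← sq_abs]
              exact pow_le_pow_left₀ (abs_nonneg _) (hK _) 2
          _ = K^2 := by simp
      simp
      nlinarith [sq_nonneg E])
    (by
      intro i _ j _ hij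
      have := indep_integral (ν := cellM p)
        (f := fun ω : Om m M => f (acts (ac ω i) 0 M) - E)
        (g := fun ω : Om m M => f (acts (ac ω j) 0 M) - E)
        (J := JT m M i 0 M) (K := JT m M j 0 M)
        (by intro ω ω' h; simp only; rw [acts_dep i 0 M ω ω' h])
        (by intro ω ω' h; simp only; rw [acts_dep j 0 M ω ω' h])
        (JT_disjoint hij _ _ _ _)
      unfold mu at *
      rw [this, hcen i, zero_mul])
    (by positivity)
    (by
      intro i _
      calc _ ≤ ({i} : Finset (Fin m)).card := by
            apply Finset.card_le_card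
            intro j hj
            simp only [Finset.mem_filter] at hj
            simp [hj.2]
        _ = 1 := by simp)
  have hIr : (0:ℝ) < I.card := by exact_mod_cast hI
  have hc := cheb (mu p m M) (fun ω => ∑ i ∈ I, (f (acts (ac ω i) 0 M) - E)) (I.card * (2*K))
    (by
      intro ω
      calc _ ≤ ∑ i ∈ I, |f (acts (ac ω i) 0 M) - E| := Finset.abs_sum_le_sum_abs _ _
        _ ≤ ∑ i ∈ I, (2*K) := Finset.sum_le_sum (fun i _ => hb i ω)
        _ = _ := by rw [Finset.sum_const, nsmul_eq_mul])
    (t := τ * I.card) (by positivity) hV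
  refine le_trans (measureReal_mono ?_) (hc.trans_eq ?_)
  · intro ω hω
    simp only [Set.mem_ofPred_eq] at hω ⊢
    rw [Finset.sum_sub_distrib]
    simpa using hω
  · push_cast
    field_simp

/-- probability that at least `k` traces of `I` are bad -/
theorem majority_bad (I : Finset (Fin m)) {a n : ℕ} (h : a + n ≤ M) (G : Set (List Act))
    (k : ℕ) (q : ℝ≥0∞) (hq : actL p n G ≤ q) :
    mu p m M {ω | ∃ T ⊆ I, T.card = k ∧ ∀ i ∈ T, acts (ac ω i) a n ∈ G} ≤ 2^I.card * q^k := by
  classical
  have hT : ∀ T : Finset (Fin m), mu p m M {ω | ∀ i ∈ T, acts (ac ω i) a n ∈ G} ≤ q^T.card := by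
    intro T
    induction T using Finset.induction_on with
    | empty => simp
    | insert i T hi ih =>
      have e : {ω : Om m M | ∀ j ∈ insert i T, acts (ac ω j) a n ∈ G}
          = {ω | acts (ac ω i) a n ∈ G} ∩ {ω | ∀ j ∈ T, acts (ac ω j) a n ∈ G} := by
        ext ω; simp
      have hind := indep_events (ν := cellM p) (A := {ω : Om m M | acts (ac ω i) a n ∈ G})
        (B := {ω : Om m M | ∀ j ∈ T, acts (ac ω j) a n ∈ G})
        (J := JT m M i a n) (K := {k | ∃ j ∈ T, k ∈ JT m M j a n})
        (by intro ω ω' h'; simp only [Set.mem_ofPred_eq]; rw [acts_dep i a n ω ω' h'])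
        (by
          intro ω ω' h'
          simp only [Set.mem_ofPred_eq]
          apply forall₂_congr
          intro j hj
          rw [acts_dep j a n ω ω' (fun k hk => h' k ⟨j, hj, hk⟩)])
        (by
          rw [Set.disjoint_left]
          rintro x hx ⟨j, hj, hy⟩
          exact Set.disjoint_left.1 (JT_disjoint (fun h' => hi (by rw [h']; exact hj)) a n a n) hx hy)
      unfold mu at *
      rw [e, hind, Finset.card_insert_of_notMem hi, pow_succ, mul_comm]
      apply mul_le_mul' ih
      exact (measure_acts p i h G).le.trans hq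
  calc _ ≤ mu p m M (⋃ T ∈ I.powerset.filter (fun T => T.card = k),
        {ω | ∀ i ∈ T, acts (ac ω i) a n ∈ G}) := by
        apply measure_mono
        rintro ω ⟨T, h1, h2, h3⟩
        simp only [Set.mem_iUnion]
        exact ⟨T, by simp [h1, h2], h3⟩
    _ ≤ ∑ T ∈ I.powerset.filter (fun T => T.card = k),
        mu p m M {ω | ∀ i ∈ T, acts (ac ω i) a n ∈ G} := measure_biUnion_finset_le _ _
    _ ≤ ∑ T ∈ I.powerset.filter (fun T => T.card = k), q^k := by
        apply Finset.sum_le_sum
        intro T hT'
        simp only [Finset.mem_filter] at hT'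
        exact (hT T).trans_eq (by rw [hT'.2])
    _ ≤ 2^I.card * q^k := by
        rw [Finset.sum_const, nsmul_eq_mul]
        apply mul_le_mul_left
        have : (I.powerset.filter (fun T => T.card = k)).card ≤ 2^I.card := by
          rw [← Finset.card_powerset]; exact Finset.card_filter_le _ _
        exact_mod_cast this

end W5h82.Trace
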