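import Pool.Agent.W5h82.Trace.Maj
import Pool.Agent.W5h82.Trace.Om

/-!
Votes by the approximate inverse of the channel.
-/

set_option autoImplicit false

open MeasureTheory ENNReal

namespace W5h82.Trace

/-- acceptance by the unbiased estimators -/
noncomputable def AccD (p : ℝ) (I L H R : ℕ) {m : ℕ} (u : List Bool) (ts : Fin m → List Bool)
    (x : ℕ) : Set (List Bool) :=
  {v | v.length = L ∧ (m:ℝ) * (1 / (10000 * H)) ≤
    ∑ i : Fin m, (stopL (Phi H R u x) [] (ts i)).elim 0 (gv p I v)}

section mean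
variable (p : ℝ) [hp : Fact (0 < p ∧ p < 1)] {m M : ℕ}

/-- the mean of a vote -/
noncomputable def EV (M : ℕ) (S : ℕ → Bool) (Φ : List Bool → Prop) (I : ℕ) (v : List Bool) : ℝ :=
  ∫ l, (stopL Φ [] (segL S 0 l)).elim 0 (gv p I v) ∂(actL p M)

variable {H R L I : ℕ} {S : ℕ → Bool} {α0 : ℕ → Act} {A x : ℕ}

lemma elim_abs_le {β : Type*} (o : Option β) (g : β → ℝ) (C : ℝ) (hC : 0 ≤ C)
    (hg : ∀ y, |g y| ≤ C) : |o.elim 0 g| ≤ C := by
  cases o with
  | none => simpa using hC
  | some y => exact hg y

/-- conditional mean of a vote in terms of pointers -/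
lemma EV_eq (h4 : p ≤ 1/4) (Φ : List Bool → Prop) (v : List Bool) (i : Fin m) (f : ℕ → ℝ)
    (hf : ∀ cur ≤ M, f cur = RR p S cur (M - cur) (gv p I v)) (hf' : ∀ y, |f y| ≤ 2^v.length) :
    EV p M S Φ I v = ∫ ω, (stopQ Φ [] 0 (emL S 0 (acts (ac (M := M) ω i) 0 M))).elim 0 f
      ∂(mu p m M) := by
  obtain ⟨h0, _⟩ := hp.out
  have h1 := (markov p (S := S) (M := M) (Φ := Φ) (gv_abs_le h0 h4 I v) hf hf' M 0 (by omega)).1 []
  have e1 : EE p S 0 M (stopG Φ (gv p I v) []) = EV p M S Φ I v := by
    unfold EE EV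
    simp only [stopG_eq_elim, emL_fst]
  have e2 : EE p S 0 M (stopP Φ f [] 0)
      = ∫ ω, (stopQ Φ [] 0 (emL S 0 (acts (ac (M := M) ω i) 0 M))).elim 0 f ∂(mu p m M) := by
    unfold EE
    rw [← integral_acts p i (M := M) (a := 0) (n := M) (by omega)
      (fun l => stopP Φ f [] 0 (emL S 0 l))]
    simp only [stopP_eq_elim]
  rw [← e1, ← e2, h1]

/-- mean votes: false strings have small mean, some true string has large mean. -/
theorem EV_bounds (h4 : p ≤ 1/4) (hH : 1 ≤ H) (hE0 : FineE H R α0 A) (hS : FineS H R S A)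
    (hA : 2 * wid H R ≤ A) (hA4 : A ≤ 4 * wid H R) (hAM : A + wid H R ≤ M)
    (hx1 : out α0 A ≤ x) (hx2 : x < out α0 (A+1) ∨ x = out α0 A)
    (hAL : A + 1024 * H + L ≤ M) (i : Fin m)
    (err β : ℝ) (herr : ((p/2)/(1-p))^(I+1) * 2^L ≤ err)
    (hβ : (mu p m M).real {ω | ¬ FineE H R (ac ω i) A} ≤ β) :
    (∀ v : List Bool, v.length = L → (∀ a, a ≤ A + 1024 * H → A ≤ a + 1024 * H → v ≠ sub S a L) →
      EV p M S (Phi H R (seg S α0 0 M) x) I v ≤ err + 2^L * β) ∧
    (∃ a, a ≤ A + 1024 * H ∧ A ≤ a + 1024 * H ∧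
      (1 - β) / (2048 * H + 1) - (err + 2^L * β)
        ≤ EV p M S (Phi H R (seg S α0 0 M) x) I (sub S a L)) := by
  classical
  obtain ⟨h0, hlt⟩ := hp.out
  have hp1 : 0 < 1 - p := by linarith
  set Φ := Phi H R (seg S α0 0 M) x with hΦ
  set μ := mu p m M with hμ
  have herr0 : 0 ≤ err := le_trans (by positivity) herr
  set Q : Om m M → Option ℕ := fun ω => stopQ Φ [] 0 (emL S 0 (acts (ac ω i) 0 M)) with hQ
  set F : Set (Om m M) := {ω | ¬ FineE H R (ac ω i) A} with hF
  have hFb : μ.real F ≤ β := hβ
  -- the functions `f_v`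
  set f : List Bool → ℕ → ℝ := fun v cur => if cur ≤ M then RR p S cur (M - cur) (gv p I v) else 0
    with hfdef
  have hfb : ∀ v y, |f v y| ≤ 2^v.length := by
    intro v y
    simp only [hfdef]
    split
    · exact RR_abs_le p _ _ _ _ (gv_abs_le h0 h4 I v)
    · simp
  have hEV : ∀ v, EV p M S Φ I v = ∫ ω, (Q ω).elim 0 (f v) ∂μ := by
    intro v
    exact EV_eq p h4 Φ v i (f v) (fun cur hcur => by simp [hfdef, hcur]) (hfb v)
  have hfv : ∀ v : List Bool, v.length = L → ∀ q, q ≤ A + 1024 * H →
      |f v q - (if sub S q L = v then 1 else 0)| ≤ err := by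
    intro v hv q hq
    have hqM : q ≤ M := by omega
    simp only [hfdef, hqM, ↓reduceIte]
    have := RR_gv p (S := S) h4 I v q (M - q) (by omega)
    rw [hv] at this
    exact this.trans herr
  have hfine : ∀ ω, ω ∉ F → ∃ q, q ≤ A + 1024 * H ∧ A ≤ q + 1024 * H ∧ Q ω = some q := by
    intro ω hω
    have hE1 : FineE H R (ac ω i) A := by
      by_contra hh; exact hω hh
    obtain ⟨y, _, _, _, _, _, _, q, hq1, hq2, _, hq4⟩ := stop_fine (M := M) hH hE0 hE1 hS hA hA4 hAM
      hx1 hx2
    exact ⟨q, hq1, hq2, hq4⟩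
  constructor
  · intro v hv hne
    rw [hEV]
    have hpt : ∀ ω, (Q ω).elim 0 (f v) ≤ err + 2^L * ind F ω := by
      intro ω
      by_cases hω : ω ∈ F
      · have h1 := elim_abs_le (Q ω) (f v) (2^v.length) (by positivity) (hfb v)
        rw [hv] at h1
        have h2 : ind F ω = 1 := by simp [ind, hω]
        rw [h2, mul_one]
        exact (le_abs_self _).trans (h1.trans (by linarith))
      · obtain ⟨q, hq1, hq2, hq3⟩ := hfine ω hω
        have h2 : ind F ω = 0 := by simp [ind, hω]
        rw [h2, mul_zero, add_zero, hq3]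
        have h3 := hfv v hv q hq1
        rw [if_neg (fun h => hne q hq1 hq2 h.symm), sub_zero] at h3
        exact (le_abs_self _).trans h3
    have h1 : Integrable (fun ω => (Q ω).elim 0 (f v)) μ := by
      apply integrable_bdd (2^v.length)
      intro ω; exact elim_abs_le _ _ _ (by positivity) (hfb v)
    have h2 : Integrable (fun ω => 2^L * ind F ω) μ := (integrable_bdd 1 (ind_le F)).const_mul _
    calc ∫ ω, (Q ω).elim 0 (f v) ∂μ ≤ ∫ ω, (err + 2^L * ind F ω) ∂μ :=
          integral_mono h1 ((integrable_const _).add h2) hpt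
      _ = err + 2^L * μ.real F := by
          rw [integral_add (integrable_const _) h2, integral_const_mul, integral_ind]; simp
      _ ≤ err + 2^L * β := by
          have : (0:ℝ) < 2^L := by positivity
          nlinarith
  · -- pigeonhole
    set P := Finset.Icc (A - 1024 * H) (A + 1024 * H) with hP
    have hcard : P.card ≤ 2048 * H + 1 := by rw [hP, Nat.card_Icc]; omega
    have hsum : 1 - β ≤ ∑ a ∈ P, μ.real {ω | Q ω = some a} := by
      have h1 : μ.real Fᶜ ≤ ∑ a ∈ P, μ.real {ω | Q ω = some a} := by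
        have hpr : IsProbabilityMeasure μ := by rw [hμ]; infer_instance
        refine le_trans (measureReal_mono (s₂ := ⋃ a ∈ P, {ω | Q ω = some a}) ?_
          (measure_ne_top _ _)) (measureReal_biUnion_finset_le _ _)
        intro ω hω
        obtain ⟨q, hq1, hq2, hq3⟩ := hfine ω hω
        simp only [Set.mem_iUnion]
        exact ⟨q, by rw [hP, Finset.mem_Icc]; omega, hq3⟩
      have h2 : μ.real Fᶜ = 1 - μ.real F := by
        rw [measureReal_compl MeasurableSet.of_discrete]; simp
      linarith
    have hex : ∃ a ∈ P, (1 - β) / (2048 * H + 1) ≤ μ.real {ω | Q ω = some a} := by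
      by_contra hh
      push Not at hh
      have hne : P.Nonempty := ⟨A, by rw [hP, Finset.mem_Icc]; omega⟩
      have h1 := Finset.sum_lt_sum_of_nonempty hne hh
      rw [Finset.sum_const, nsmul_eq_mul] at h1
      have hc : (P.card : ℝ) ≤ 2048 * H + 1 := by exact_mod_cast hcard
      have hc0 : (0:ℝ) < P.card := by exact_mod_cast hne.card_pos
      have hden : (0:ℝ) < 2048 * H + 1 := by positivity
      rcases le_or_gt 0 (1 - β) with hb | hb
      · have : (P.card:ℝ) * ((1 - β) / (2048 * H + 1)) ≤ 1 - β := by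
          rw [mul_div_assoc', div_le_iff₀ hden, mul_comm]
          exact mul_le_mul_of_nonneg_left hc hb
        linarith
      · obtain ⟨a, ha⟩ := hne
        have h3 := hh a ha
        have h4 : (1 - β) / (2048 * H + 1) < 0 := div_neg_of_neg_of_pos hb hden
        have h5 : 0 ≤ μ.real {ω | Q ω = some a} := measureReal_nonneg
        linarith
    obtain ⟨a, haP, ha⟩ := hex
    rw [hP, Finset.mem_Icc] at haP
    have haH : a ≤ A + 1024 * H ∧ A ≤ a + 1024 * H := by omega
    refine ⟨a, haH.1, haH.2, ?_⟩
    set v := sub S a L with hv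
    have hvL : v.length = L := by simp [hv]
    rw [hEV]
    have hpt : ∀ ω, ind {ω | Q ω = some a} ω - (err + 2^L * ind F ω) ≤ (Q ω).elim 0 (f v) := by
      intro ω
      have hl := elim_abs_le (Q ω) (f v) (2^v.length) (by positivity) (hfb v)
      rw [hvL] at hl
      by_cases hQa : Q ω = some a
      · have h3 := hfv v hvL a haH.1
        rw [if_pos rfl] at h3
        have h3' := (abs_le.1 h3).1
        have h2 : ind {ω | Q ω = some a} ω = 1 := by simp [ind, hQa]
        have h4 := ind_nonneg F ω
        have h5 : (0:ℝ) ≤ 2^L * ind F ω := by positivity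
        rw [h2, hQa]
        simp only [Option.elim_some]
        linarith
      · have h2 : ind {ω | Q ω = some a} ω = 0 := by simp [ind, hQa]
        rw [h2]
        by_cases hω : ω ∈ F
        · have h6 : ind F ω = 1 := by simp [ind, hω]
          rw [h6, mul_one]
          have := (abs_le.1 hl).1
          linarith
        · obtain ⟨q, hq1, hq2, hq3⟩ := hfine ω hω
          have h6 : ind F ω = 0 := by simp [ind, hω]
          rw [h6, mul_zero, add_zero, hq3]
          have h3 := (abs_le.1 (hfv v hvL q hq1)).1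
          simp only [Option.elim_some]
          have : (0:ℝ) ≤ if sub S q L = v then 1 else 0 := by split <;> norm_num
          linarith
    have h1 : Integrable (fun ω => (Q ω).elim 0 (f v)) μ := by
      apply integrable_bdd (2^v.length)
      intro ω; exact elim_abs_le _ _ _ (by positivity) (hfb v)
    have h2 : Integrable (fun ω => 2^L * ind F ω) μ := (integrable_bdd 1 (ind_le F)).const_mul _
    have h3 : Integrable (ind {ω | Q ω = some a}) μ := integrable_bdd 1 (ind_le _)
    have h4' : Integrable (fun ω => err + 2^L * ind F ω) μ := (integrable_const _).add h2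
    calc (1 - β) / (2048 * H + 1) - (err + 2^L * β)
        ≤ μ.real {ω | Q ω = some a} - (err + 2^L * μ.real F) := by
          have : (0:ℝ) < 2^L := by positivity
          nlinarith
      _ = ∫ ω, (ind {ω | Q ω = some a} ω - (err + 2^L * ind F ω)) ∂μ := by
          rw [integral_sub h3 h4', integral_add (integrable_const _) h2, integral_const_mul,
            integral_ind, integral_ind]
          simp
      _ ≤ _ := integral_mono (h3.sub h4') h1 hpt

end mean

section bad
variable (p : ℝ) [hp : Fact (0 < p ∧ p < 1)] {m M : ℕ}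

/-- the trace `i` -/
def tr (ω : Om m M) (i : Fin m) : List Bool := seg (bit ω) (ac ω i) 0 M

/-- deck votes go wrong at `A` -/
def BadD (p : ℝ) (I L H R m M A : ℕ) : Set (Om (m+1) M) :=
  {ω | FineE H R (ac ω 0) A ∧ FineS H R (bit ω) A ∧
    ¬ GoodAcc L H (AccD p I L H R (tr ω 0) (fun i : Fin m => tr ω i.succ)) (bit ω) (ac ω 0) A}

theorem prob_BadD {I L H R A : ℕ} (h4 : p ≤ 1/4) (hH : 1 ≤ H) (hm : 0 < m)
    (hA : 2 * wid H R ≤ A) (hA4 : A ≤ 4 * wid H R) (hAM : A + wid H R ≤ M)
    (hAL : A + 1024 * H + L ≤ M)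
    (err β : ℝ) (herr : ((p/2)/(1-p))^(I+1) * 2^L ≤ err)
    (hβ : ∀ i, (mu p (m+1) M).real {ω | ¬ FineE H R (ac ω i) A} ≤ β)
    (hsmall : err + 2^L * β ≤ 1/(40000*H)) :
    mu p (m+1) M (BadD p I L H R m M A)
      ≤ ENNReal.ofReal ((H+1) * 2^L * ((2^L)^2 / ((1/(40000*H))^2 * m))) := by
  classical
  obtain ⟨h0, hlt⟩ := hp.out
  have hp1 : 0 < 1 - p := by linarith
  set τ : ℝ := 1/(40000*H) with hτ
  have hH' : (1:ℝ) ≤ H := by exact_mod_cast hH
  have hτ0 : 0 < τ := by positivity
  have hm' : (0:ℝ) < m := by exact_mod_cast hm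
  have herr0 : 0 ≤ err := le_trans (by positivity) herr
  have hβ0 : 0 ≤ β := le_trans measureReal_nonneg (hβ 0)
  set I' : Finset (Fin (m+1)) := Finset.univ.map (Fin.succEmb m) with hI'
  have hI'c : I'.card = m := by rw [hI', Finset.card_map]; simp
  set J : Set (Idx (m+1) M) := {k | ∃ i : Fin m, k.1 = some i.succ} with hJ
  apply measure_le_of_fiber J
  intro ω
  by_cases hfine : FineE H R (ac ω 0) A ∧ FineS H R (bit ω) A
  swap
  · -- empty fibre
    have : {ω' | ov J ω ω' ∈ BadD p I L H R m M A} = ∅ := by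
      ext ω'
      simp only [Set.mem_ofPred_eq, Set.mem_empty_iff_false, iff_false]
      rintro ⟨h1, h2, _⟩
      apply hfine
      have e1 : ac (ov J ω ω') 0 = ac ω 0 := by
        funext j
        unfold ac
        split
        · rw [ov_not_mem]
          rintro ⟨i, hi⟩
          simp at hi
          exact absurd hi (Fin.succ_ne_zero i).symm
        · rfl
      have e2 : bit (ov J ω ω') = bit ω := by
        funext j
        unfold bit
        split
        · rw [ov_not_mem]
          rintro ⟨i, hi⟩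
          simp at hi
        · rfl
      rw [e1] at h1; rw [e2] at h2
      exact ⟨h1, h2⟩
    rw [this]; simp
  obtain ⟨hE0, hS⟩ := hfine
  set S := bit ω with hSdef
  set α0 := ac ω 0 with hα0
  set u := seg S α0 0 M with hu
  -- the single bad events
  set φ : ℕ → List Bool → List Act → ℝ := fun x v l =>
    (stopL (Phi H R u x) [] (segL S 0 l)).elim 0 (gv p I v) with hφ
  have hφb : ∀ x v l, |φ x v l| ≤ 2^v.length := by
    intro x v l
    exact elim_abs_le _ _ _ (by positivity) (gv_abs_le h0 h4 I v)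
  set Ev : ℕ → (Fin L → Bool) → Set (Om (m+1) M) := fun e v =>
    {ω' | τ * I'.card ≤ |∑ i ∈ I', φ (out α0 A + e) (List.ofFn v) (acts (ac ω' i) 0 M)
        - I'.card * ∫ l, φ (out α0 A + e) (List.ofFn v) l ∂(actL p M)|} with hEv
  have hEvp : ∀ e v, mu p (m+1) M (Ev e v) ≤ ENNReal.ofReal ((2^L)^2 / (τ^2 * m)) := by
    intro e v
    have h := votes_cheb p (m := m+1) (M := M) I' (φ (out α0 A + e) (List.ofFn v)) (2^L)
      (by
        intro l
        have := hφb (out α0 A + e) (List.ofFn v) l
        rwa [List.length_ofFn] at this) hτ0 (by omega)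
    rw [hI'c] at h
    rw [← ENNReal.ofReal_toReal (measure_ne_top (mu p (m+1) M) (Ev e v))]
    apply ENNReal.ofReal_le_ofReal
    simp only [hEv, hI'c]
    exact h
  have hsub : {ω' | ov J ω ω' ∈ BadD p I L H R m M A} ⊆
      ⋃ e ∈ Finset.range (H+1), ⋃ v ∈ (Finset.univ : Finset (Fin L → Bool)), Ev e v := by
    intro ω' hω'
    simp only [Set.mem_ofPred_eq] at hω'
    obtain ⟨_, _, hbad⟩ := hω'
    have e1 : ac (ov J ω ω') 0 = α0 := by
      funext j
      rw [hα0]
      unfold ac
      split
      · rw [ov_not_mem]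
        rintro ⟨i, hi⟩
        simp at hi
        exact absurd hi (Fin.succ_ne_zero i).symm
      · rfl
    have e2 : bit (ov J ω ω') = S := by
      funext j
      rw [hSdef]
      unfold bit
      split
      · rw [ov_not_mem]
        rintro ⟨i, hi⟩
        simp at hi
      · rfl
    have e3 : ∀ i : Fin m, ac (ov J ω ω') i.succ = ac ω' i.succ := by
      intro i
      funext j
      unfold ac
      split
      · rw [ov_mem]
        exact ⟨i, rfl⟩
      · rfl
    have e4 : tr (ov J ω ω') 0 = u := by unfold tr; rw [e1, e2]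
    have e5 : (fun i : Fin m => tr (ov J ω ω') i.succ)
        = fun i : Fin m => seg S (ac ω' i.succ) 0 M := by
      funext i; unfold tr; rw [e2, e3]
    rw [e4, e5, e2, e1] at hbad
    by_contra hnot
    simp only [Set.mem_iUnion, not_exists] at hnot
    apply hbad
    intro x hx1 hx2
    obtain ⟨e, rfl⟩ := Nat.exists_eq_add_of_le hx1
    have he : e ≤ H := by
      rw [out_succ] at hx2
      have h1 := ed_ge_of_lt (α0 A) (e := e) (by omega)
      have h2 : edits α0 A 1 ≤ tol H 0 := by
        apply hE0.edits_le (Nat.zero_le R)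
        · omega
        · have : wid H 0 = 4096 * H := by simp [wid]
          omega
      rw [edits_succ, edits_zero] at h2
      have : tol H 0 = H := by simp [tol]
      omega
    -- all votes are near their means
    have hvote : ∀ v : List Bool, v.length = L →
        |∑ i : Fin m, (stopL (Phi H R u (out α0 A + e)) [] (seg S (ac ω' i.succ) 0 M)).elim 0
          (gv p I v) - m * EV p M S (Phi H R u (out α0 A + e)) I v| < τ * m := by
      intro v hv
      have h1 := hnot e (by rw [Finset.mem_range]; omega) (fun k => v.get (Fin.cast hv.symm k))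
        (Finset.mem_univ _)
      have hofn : List.ofFn (fun k => v.get (Fin.cast hv.symm k)) = v := by
        apply List.ext_get
        · simp [hv]
        · intro n h1 h2; simp
      simp only [hEv, hofn, hI'c, Set.mem_ofPred_eq, not_le] at h1
      rw [hI', Finset.sum_map] at h1
      exact h1
    obtain ⟨hb1, a, ha1, ha2, hb2⟩ := EV_bounds p (m := m+1) (M := M) (I := I) h4 hH hE0 hS hA hA4
      hAM hx1 (Or.inl hx2) hAL 0 err β herr (hβ 0)
    have hthr : (1:ℝ)/(10000*H) = 4 * τ := by
      rw [hτ]; field_simp; norm_num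
    have hbig : 5 * τ ≤ (1 - β) / (2048 * H + 1) - (err + 2^L * β) := by
      have h5 : (1:ℝ) ≤ 2^L := one_le_pow₀ (by norm_num)
      have h6 : β ≤ 2^L * β := by nlinarith
      have hτ1 : τ ≤ 1/40000 := by
        rw [hτ]
        apply one_div_le_one_div_of_le (by norm_num)
        nlinarith
      have h7 : β ≤ 1/2 := by linarith
      have h8 : 6 * τ ≤ (1 - β) / (2048 * H + 1) := by
        rw [le_div_iff₀ (by positivity)]
        have h9 : τ * (40000 * H) = 1 := by
          rw [hτ]; field_simp
        have h10 : 6 * τ * (2048 * H + 1) ≤ 1/2 := by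
          have : τ * H = 1/40000 := by linarith
          have : τ * 1 ≤ τ * H := mul_le_mul_of_nonneg_left hH' hτ0.le
          nlinarith
        linarith
      linarith
    constructor
    · refine ⟨sub S a L, by simp, ?_⟩
      have h1 := (abs_lt.1 (hvote (sub S a L) (by simp))).1
      have h2 : m * (5 * τ) ≤ m * EV p M S (Phi H R u (out α0 A + e)) I (sub S a L) :=
        mul_le_mul_of_nonneg_left (hbig.trans hb2) hm'.le
      rw [hthr]
      linarith
    · rintro v ⟨hv, hthrv⟩
      by_contra hne
      push Not at hne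
      have h1 := (abs_lt.1 (hvote v hv)).2
      have h2 := hb1 v hv (fun a h3 h4 => hne a h3 h4)
      have h3 : m * EV p M S (Phi H R u (out α0 A + e)) I v ≤ m * τ :=
        mul_le_mul_of_nonneg_left (h2.trans hsmall) hm'.le
      rw [hthr] at hthrv
      nlinarith
  calc _ ≤ mu p (m+1) M (⋃ e ∈ Finset.range (H+1),
        ⋃ v ∈ (Finset.univ : Finset (Fin L → Bool)), Ev e v) := measure_mono hsub
    _ ≤ ∑ e ∈ Finset.range (H+1), ∑ v ∈ (Finset.univ : Finset (Fin L → Bool)),
        ENNReal.ofReal ((2^L)^2 / (τ^2 * m)) := by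
        refine (measure_biUnion_finset_le _ _).trans (Finset.sum_le_sum (fun e _ => ?_))
        exact (measure_biUnion_finset_le _ _).trans (Finset.sum_le_sum (fun v _ => hEvp e v))
    _ = _ := by
        rw [Finset.sum_const, Finset.sum_const, nsmul_eq_mul, nsmul_eq_mul, Finset.card_range,
          Finset.card_univ, Fintype.card_fun, Fintype.card_bool, Fintype.card_fin,
          ← mul_assoc, ENNReal.ofReal_mul (by positivity)]
        congr 1
        rw [ENNReal.ofReal_mul (by positivity)]
        congr 1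
        · rw [show ((H:ℝ)+1) = ((H+1 : ℕ) : ℝ) by push_cast; ring, ENNReal.ofReal_natCast]
        · rw [ENNReal.ofReal_pow (by norm_num)]
          push_cast; simp

end bad

end W5h82.Trace
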