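import Pool.Agent.W5h82.Trace.Ind

/-!
The multi-scale localiser: deterministic analysis.
-/

set_option autoImplicit false

namespace W5h82.Trace

/-- edit tolerance of scale `r` -/
def tol (H r : ℕ) : ℕ := 2 ^ r * H

/-- window length of scale `r` -/
def wid (H r : ℕ) : ℕ := 4096 * (2 ^ r * H)

lemma wid_eq (H r : ℕ) : wid H r = 4096 * tol H r := rfl

/-- `y` is a possible location in `t` of the position `x` of `u`. -/
def Loc (H R : ℕ) (u : List Bool) (x : ℕ) (t : List Bool) (y : ℕ) : Prop :=
  ∀ r ≤ R, Ind (16 * tol H r) (win u x (wid H r)) (win t y (wid H r))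

/-- few edits at all scales around `A` -/
def FineE (H R : ℕ) (α : ℕ → Act) (A : ℕ) : Prop :=
  ∀ r ≤ R, edits α (A - 4 * wid H r) (8 * wid H r) ≤ tol H r

/-- no self-similarity of `S` at all scales around `A` -/
def FineS (H R : ℕ) (S : ℕ → Bool) (A : ℕ) : Prop :=
  ∀ r ≤ R, ∀ B, wid H r ≤ B → B ≤ A + wid H r → A ≤ B + wid H r →
    (A + 256 * tol H r ≤ B ∨ B + 256 * tol H r ≤ A) →
    ¬ Ind (64 * tol H r) (sub S (A - wid H r) (wid H r)) (sub S (B - wid H r) (wid H r))

lemma take_seg (S : ℕ → Bool) (α : ℕ → Act) {A M e : ℕ} (hA : A < M) (he : e ≤ plen (α A)) :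
    (seg S α 0 M).take (out α A + e) = seg S α 0 A ++ (piece (S A) (α A)).take e := by
  obtain ⟨n, rfl⟩ := Nat.exists_eq_add_of_lt hA
  have h1 : seg S α 0 (A + n + 1) = seg S α 0 A ++ (piece (S A) (α A) ++ seg S α (A+1) n) := by
    rw [show A + n + 1 = A + (n+1) by ring, seg_add, seg_succ]; simp
  rw [h1, out_eq_length S, List.take_length_add_append, List.take_append_of_le_length]
  rw [piece_length]; exact he

lemma take_seg' (S : ℕ → Bool) (α : ℕ → Act) {A M : ℕ} (hA : A ≤ M) :
    (seg S α 0 M).take (out α A) = seg S α 0 A := by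
  obtain ⟨n, rfl⟩ := Nat.exists_eq_add_of_le hA
  rw [seg_add, out_eq_length S, List.take_left']
  rfl

/-- the window ending at the output position of the pointer `A` (plus `e` outputs made at `A`)
is close to the string before `A` -/
lemma ind_win_sub (S : ℕ → Bool) (α : ℕ → Act) {A M e w k : ℕ} (hA : A < M)
    (he : e ≤ plen (α A)) (he' : e ≤ ed (α A)) (hw : w ≤ A)
    (hk : edits α (A - w) (w + 1) ≤ k) (hwy : w ≤ out α A + e) :
    Ind (2 * k) (win (seg S α 0 M) (out α A + e) w) (sub S (A - w) w) := by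
  have hy : out α A + e ≤ (seg S α 0 M).length := by
    rw [← out_eq_length]
    have := out_mono α (show A + 1 ≤ M by omega)
    rw [out_succ] at this; omega
  have hsplit : (seg S α 0 M).take (out α A + e)
      = seg S α 0 (A - w) ++ (seg S α (A - w) w ++ (piece (S A) (α A)).take e) := by
    rw [take_seg S α hA he]
    have : seg S α 0 A = seg S α 0 (A - w) ++ seg S α (A - w) w := by
      have := seg_add S α 0 (A - w) w
      rwa [show A - w + w = A by omega, Nat.zero_add] at this
    rw [this, List.append_assoc]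
  have hedit : edits α (A - w) w + ed (α A) ≤ k := by
    have h := edits_add α (A - w) w 1
    rw [show A - w + w = A by omega, edits_succ α A 0, edits_zero] at h
    omega
  have hl := seg_length S α (A - w) w
  have h1 := sum_plen_le α (A - w) w
  have h2 := le_sum_plen α (A - w) w
  have hpl : ((piece (S A) (α A)).take e).length = e := by
    rw [List.length_take, piece_length]; omega
  have hI : Ind k (win (seg S α 0 M) (out α A + e) w)
      (seg S α (A - w) w ++ (piece (S A) (α A)).take e) := by
    apply ind_win_of_append hy hwy hsplit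
    · rw [List.length_append, hpl]; omega
    · rw [List.length_append, hpl]; omega
  have hJ : Ind (edits α (A - w) w + e) (seg S α (A - w) w ++ (piece (S A) (α A)).take e)
      (sub S (A - w) w ++ []) := by
    apply (ind_seg S α (A - w) w).append
    exact ⟨[], by simp, by simp, by rw [hpl]; simp⟩
  rw [List.append_nil] at hJ
  refine (hI.trans hJ).mono ?_
  omega

lemma exists_ptr (α : ℕ → Act) {a b y : ℕ} (h1 : out α a ≤ y) (h2 : y < out α b) :
    ∃ c, a ≤ c ∧ c < b ∧ out α c ≤ y ∧ y < out α (c+1) := by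
  have hab : a < b := by
    by_contra hh
    have := out_mono α (show b ≤ a by omega)
    omega
  induction b, hab using Nat.le_induction with
  | base => exact ⟨a, le_refl _, by omega, h1, h2⟩
  | succ b hb ih =>
    by_cases h : y < out α b
    · obtain ⟨c, h3, h4, h5, h6⟩ := ih h
      exact ⟨c, h3, by omega, h5, h6⟩
    · exact ⟨b, by omega, by omega, by omega, h2⟩

lemma ed_ge_of_lt (a : Act) {e : ℕ} (h : e < plen a) : e ≤ ed a := by
  unfold plen at h; unfold ed; split at h <;> split <;> simp_all <;> omega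

section

variable {H R M : ℕ} {S : ℕ → Bool} {α0 α1 : ℕ → Act} {A x : ℕ}

lemma FineE.edits_le {α : ℕ → Act} (h : FineE H R α A) {r : ℕ} (hr : r ≤ R) {a n : ℕ}
    (h1 : A ≤ a + 4 * wid H r) (h2 : a + n ≤ A + 4 * wid H r) : edits α a n ≤ tol H r := by
  refine le_trans ?_ (h r hr)
  apply edits_le_of_subset
  · omega
  · omega

/-- windows at matching positions are similar -/
lemma ind_match (hH : 1 ≤ H) (hE0 : FineE H R α0 A) {r : ℕ} (hr : r ≤ R) {a : ℕ}
    (ha1 : A ≤ a + wid H r) (ha2 : a ≤ A + wid H r) (haM : a < M) (hwa : wid H r ≤ a)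
    {y : ℕ} (hy1 : out α0 a ≤ y) (hy2 : y < out α0 (a+1) ∨ y = out α0 a)
    (hwy : wid H r ≤ y) :
    Ind (2 * tol H r) (win (seg S α0 0 M) y (wid H r)) (sub S (a - wid H r) (wid H r)) := by
  obtain ⟨e, rfl⟩ := Nat.exists_eq_add_of_le hy1
  have he : e ≤ plen (α0 a) ∧ e ≤ ed (α0 a) := by
    rcases hy2 with h | h
    · rw [out_succ] at h
      exact ⟨by omega, ed_ge_of_lt _ (by omega)⟩
    · exact ⟨by omega, by omega⟩
  have hpos : 1 ≤ wid H r := by
    have : 0 < 2 ^ r * H := Nat.mul_pos (by positivity) (by omega)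
    unfold wid; omega
  apply ind_win_sub S α0 haM he.1 he.2 hwa _ hwy
  apply hE0.edits_le hr
  · omega
  · omega

lemma tol_pos (hH : 1 ≤ H) (r : ℕ) : 1 ≤ tol H r :=
  Nat.mul_pos (by positivity) (by omega)

lemma tol_mono {r r' : ℕ} (h : r ≤ r') : tol H r ≤ tol H r' :=
  Nat.mul_le_mul_right _ (Nat.pow_le_pow_right (by norm_num) h)

lemma tol_succ (r : ℕ) : tol H (r+1) = 2 * tol H r := by
  unfold tol; ring

lemma out_ge_wid (hE1 : FineE H R α1 A) (hA : 2 * wid H R ≤ A) {r : ℕ} (hr : r ≤ R) :
    wid H r ≤ out α1 A := by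
  have h1 := le_out_add α1 (A - 2 * wid H r) (2 * wid H r)
  have hw : wid H r ≤ wid H R := by
    have := tol_mono (H := H) hr
    rw [wid_eq, wid_eq]; omega
  rw [show A - 2 * wid H r + 2 * wid H r = A by omega] at h1
  have h2 : edits α1 (A - 2 * wid H r) (2 * wid H r) ≤ tol H r := by
    apply hE1.edits_le hr <;> omega
  rw [wid_eq] at *
  omega

/-- (a) the true location is a possible location -/
lemma loc_true (hH : 1 ≤ H) (hE0 : FineE H R α0 A) (hE1 : FineE H R α1 A)
    (hA : 2 * wid H R ≤ A) (hAM : A < M)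
    (hx1 : out α0 A ≤ x) (hx2 : x < out α0 (A+1) ∨ x = out α0 A) :
    Loc H R (seg S α0 0 M) x (seg S α1 0 M) (out α1 A) := by
  intro r hr
  have hw : wid H r ≤ wid H R := by
    have := tol_mono (H := H) hr
    rw [wid_eq, wid_eq]; omega
  have h1 := ind_match (S := S) (M := M) hH hE0 hr (a := A) (by omega) (by omega) hAM (by omega)
    hx1 hx2 (le_trans (out_ge_wid hE0 hA hr) hx1)
  have h2 := ind_match (S := S) (M := M) hH hE1 hr (a := A) (by omega) (by omega) hAM (by omega)
    (le_refl _) (Or.inr rfl) (out_ge_wid hE1 hA hr)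
  exact (h1.trans h2.symm).mono (by omega)

/-- (c) coarse scales are automatically fine near the true location -/
lemma loc_coarse (hH : 1 ≤ H) (hE0 : FineE H R α0 A) (hE1 : FineE H R α1 A)
    (hA : 2 * wid H R ≤ A) (hAM : A < M)
    (hx1 : out α0 A ≤ x) (hx2 : x < out α0 (A+1) ∨ x = out α0 A)
    {y : ℕ} (hy1 : y ≤ out α1 A + 512 * H) (hy2 : out α1 A ≤ y + 512 * H)
    (hyM : y ≤ (seg S α1 0 M).length) {r : ℕ} (hr : r ≤ R) (h7 : 7 ≤ r) :
    Ind (16 * tol H r) (win (seg S α0 0 M) x (wid H r)) (win (seg S α1 0 M) y (wid H r)) := by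
  have h0 := loc_true (S := S) (M := M) hH hE0 hE1 hA hAM hx1 hx2
  have hw : wid H r ≤ wid H R := by
    have := tol_mono (H := H) hr
    rw [wid_eq, wid_eq]; omega
  have h1 := ind_match (S := S) (M := M) hH hE0 hr (a := A) (by omega) (by omega) hAM (by omega)
    hx1 hx2 (le_trans (out_ge_wid hE0 hA hr) hx1)
  have h2 := ind_match (S := S) (M := M) hH hE1 hr (a := A) (by omega) (by omega) hAM (by omega)
    (le_refl _) (Or.inr rfl) (out_ge_wid hE1 hA hr)
  have h128 : 128 * H ≤ tol H r := by
    unfold tol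
    exact Nat.mul_le_mul_right _ (by
      calc 128 = 2 ^ 7 := by norm_num
        _ ≤ 2 ^ r := Nat.pow_le_pow_right (by norm_num) h7)
  have hlen : out α1 A ≤ (seg S α1 0 M).length := by
    rw [← out_eq_length]; exact out_mono _ (by omega)
  have hbig : 2 * wid H r ≤ out α1 A + tol H r := by
    have h1 := le_out_add α1 (A - 2 * wid H r) (2 * wid H r)
    rw [show A - 2 * wid H r + 2 * wid H r = A by omega] at h1
    have h2 : edits α1 (A - 2 * wid H r) (2 * wid H r) ≤ tol H r := by
      apply hE1.edits_le hr <;> omega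
    omega
  have hwt := wid_eq H r
  rcases le_total y (out α1 A) with h | h
  · have h3 := ind_win_shift (t := seg S α1 0 M) (w := wid H r) hlen (by omega) h
    exact ((h1.trans h2.symm).trans h3.symm).mono (by omega)
  · have h3 := ind_win_shift (t := seg S α1 0 M) (w := wid H r) hyM (by omega) h
    exact ((h1.trans h2.symm).trans h3).mono (by omega)

/-- the location is a local notion -/
lemma loc_iff_local (hH : 1 ≤ H) (hE0 : FineE H R α0 A) (hE1 : FineE H R α1 A)
    (hA : 2 * wid H R ≤ A) (hAM : A < M)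
    (hx1 : out α0 A ≤ x) (hx2 : x < out α0 (A+1) ∨ x = out α0 A)
    {y : ℕ} (hy1 : y ≤ out α1 A + 512 * H) (hy2 : out α1 A ≤ y + 512 * H)
    (hyM : y ≤ (seg S α1 0 M).length) :
    Loc H R (seg S α0 0 M) x (seg S α1 0 M) y ↔
      ∀ r ≤ R, r < 7 → Ind (16 * tol H r) (win (seg S α0 0 M) x (wid H r))
        (win (seg S α1 0 M) y (wid H r)) := by
  constructor
  · intro h r hr _
    exact h r hr
  · intro h r hr
    rcases lt_or_ge r 7 with h7 | h7
    · exact h r hr h7
    · exact loc_coarse hH hE0 hE1 hA hAM hx1 hx2 hy1 hy2 hyM hr h7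

/-- (b) every possible location in the search range is near the true location -/
lemma loc_unique (hH : 1 ≤ H) (hE0 : FineE H R α0 A) (hE1 : FineE H R α1 A)
    (hS : FineS H R S A)
    (hA : 2 * wid H R ≤ A) (hA4 : A ≤ 4 * wid H R) (hAM : A + wid H R ≤ M)
    (hx1 : out α0 A ≤ x) (hx2 : x < out α0 (A+1) ∨ x = out α0 A)
    {y : ℕ} (hL : Loc H R (seg S α0 0 M) x (seg S α1 0 M) y)
    (hy1 : y ≤ x + 512 * tol H R) (hy2 : x ≤ y + 512 * tol H R) :
    y ≤ out α1 A + 512 * H ∧ out α1 A ≤ y + 512 * H := by
  have hposR : 1 ≤ tol H R := tol_pos hH R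
  have hwR := wid_eq H R
  -- global position estimates
  have e0 : edits α0 0 A ≤ tol H R := hE0.edits_le le_rfl (by omega) (by omega)
  have e1 : edits α1 0 A ≤ tol H R := hE1.edits_le le_rfl (by omega) (by omega)
  have o0 : out α0 0 = 0 := by simp [out, acts_zero]
  have o1 : out α1 0 = 0 := by simp [out, acts_zero]
  have a1 := out_add_le α0 0 A
  have a2 := le_out_add α0 0 A
  have a3 := out_add_le α1 0 A
  have a4 := le_out_add α1 0 A
  rw [Nat.zero_add] at a1 a2 a3 a4
  have ex : x ≤ out α0 A + tol H R := by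
    rcases hx2 with h | h
    · obtain ⟨e, rfl⟩ := Nat.exists_eq_add_of_le hx1
      rw [out_succ] at h
      have := ed_ge_of_lt (α0 A) (e := e) (by omega)
      have h' : edits α0 A 1 ≤ tol H R := hE0.edits_le le_rfl (by omega) (by omega)
      rw [edits_succ, edits_zero] at h'
      omega
    · omega
  by_contra hcon
  -- choose the scale
  have hD : ∃ r, r ≤ R ∧ (y ≤ out α1 A + 1024 * tol H r ∧ out α1 A ≤ y + 1024 * tol H r) := by
    exact ⟨R, le_rfl, by omega, by omega⟩
  classical
  let r := Nat.find hD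
  obtain ⟨hrR, hD1, hD2⟩ := Nat.find_spec hD
  have hr_def : Nat.find hD = r := rfl
  rw [hr_def] at hrR hD1 hD2
  have hD3 : ¬ (y ≤ out α1 A + 512 * tol H r ∧ out α1 A ≤ y + 512 * tol H r) := by
    rcases Nat.eq_zero_or_pos r with h0 | h0
    · rw [h0]
      simpa [tol] using hcon
    · intro hh
      have := Nat.find_min hD (m := r - 1) (by omega)
      apply this
      have e : tol H r = 2 * tol H (r-1) := by
        rw [← tol_succ]; congr 1; omega
      exact ⟨by omega, by omega, by omega⟩
  have hpos : 1 ≤ tol H r := tol_pos hH r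
  have hw := wid_eq H r
  have hwle : wid H r ≤ wid H R := by
    have := tol_mono (H := H) hrR
    rw [wid_eq, wid_eq]; omega
  -- the pointer of `y`
  have hlo : out α1 (A - wid H r) + wid H r ≤ out α1 A + tol H r := by
    have h1 := le_out_add α1 (A - wid H r) (wid H r)
    rw [show A - wid H r + wid H r = A by omega] at h1
    have : edits α1 (A - wid H r) (wid H r) ≤ tol H r := by
      apply hE1.edits_le hrR <;> omega
    omega
  have hhi : out α1 A + wid H r ≤ out α1 (A + wid H r) + tol H r := by
    have h1 := le_out_add α1 A (wid H r)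
    have : edits α1 A (wid H r) ≤ tol H r := by
      apply hE1.edits_le hrR <;> omega
    omega
  obtain ⟨c, hc1, hc2, hc3, hc4⟩ := exists_ptr α1 (a := A - wid H r) (b := A + wid H r) (y := y)
    (by omega) (by omega)
  have hcM : c < M := by omega
  have hfar : A + 256 * tol H r ≤ c ∨ c + 256 * tol H r ≤ A := by
    rcases lt_or_ge (out α1 A) y with h | h
    · left
      have hcA : A ≤ c := by
        by_contra hh
        have := out_mono α1 (show c + 1 ≤ A by omega)
        omega
      obtain ⟨d, rfl⟩ := Nat.exists_eq_add_of_le hcA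
      have h1 := out_add_le α1 A (d+1)
      have : edits α1 A (d+1) ≤ tol H r := by
        apply hE1.edits_le hrR <;> omega
      rw [← Nat.add_assoc] at h1
      omega
    · right
      have hcA : c ≤ A := by
        by_contra hh
        have h0 : y < out α1 A ∨ y = out α1 A := by omega
        have := out_mono α1 (show A ≤ c by omega)
        omega
      obtain ⟨d, rfl⟩ := Nat.exists_eq_add_of_le hcA
      have h1 := out_add_le α1 c d
      have : edits α1 c d ≤ tol H r := by
        apply hE1.edits_le hrR <;> omega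
      omega
  refine hS r hrR c (by omega) (by omega) (by omega) hfar ?_
  have g1 := ind_match (S := S) (M := M) hH hE0 hrR (a := A) (by omega) (by omega) (by omega)
    (by omega) hx1 hx2 (le_trans (out_ge_wid hE0 hA hrR) hx1)
  have hwy : wid H r ≤ y := by
    have hbig : 2 * wid H r ≤ out α1 A + tol H r := by
      have h1 := le_out_add α1 (A - 2 * wid H r) (2 * wid H r)
      rw [show A - 2 * wid H r + 2 * wid H r = A by omega] at h1
      have h2 : edits α1 (A - 2 * wid H r) (2 * wid H r) ≤ tol H r := by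
        apply hE1.edits_le hrR <;> omega
      omega
    omega
  have g2 := ind_match (S := S) (M := M) hH hE1 hrR (a := c) (by omega) (by omega) hcM
    (by omega) hc3 (Or.inl hc4) hwy
  have g3 := hL r hrR
  exact ((g1.symm.trans g3).trans g2).mono (by omega)

end

end W5h82.Trace
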