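import Pool.Agent.W5h82.Trace.Om
import Pool.Agent.W5h82.Trace.Loc

/-!
Random strings are not self-similar.
-/

set_option autoImplicit false

open MeasureTheory ENNReal

namespace W5h82.Trace

/-- the increasing enumeration of a finite set -/
noncomputable def emb (I : Finset ℕ) (k : ℕ) : ℕ :=
  if h : k < I.card then I.orderEmbOfFin rfl ⟨k, h⟩ else 0

lemma emb_mem {I : Finset ℕ} {k : ℕ} (h : k < I.card) : emb I k ∈ I := by
  unfold emb
  rw [dif_pos h]
  exact Finset.orderEmbOfFin_mem _ _ _

lemma emb_lt {I : Finset ℕ} {k l : ℕ} (h : k < l) (hl : l < I.card) : emb I k < emb I l := by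
  unfold emb
  rw [dif_pos hl, dif_pos (by omega)]
  exact (I.orderEmbOfFin rfl).strictMono h

lemma emb_eq {s : Finset ℕ} {K : ℕ} (hc : s.card = K) {k : ℕ} (hk : k < K) :
    emb s k = s.orderEmbOfFin hc ⟨k, hk⟩ := by
  subst hc
  simp [emb, hk]

lemma emb_image {K : ℕ} (f : Fin K → ℕ) (hf : StrictMono f) {k : ℕ} (hk : k < K) :
    emb (Finset.univ.image f) k = f ⟨k, hk⟩ := by
  have hc : (Finset.univ.image f).card = K := by
    rw [Finset.card_image_of_injective _ hf.injective]; simp
  have h1 := Finset.orderEmbOfFin_unique hc (f := f) (fun x => by simp) hf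
  rw [emb_eq hc hk]
  exact (congrFun h1 ⟨k, hk⟩).symm

lemma le_emb {I : Finset ℕ} : ∀ {k : ℕ}, k < I.card → k ≤ emb I k := by
  intro k
  induction k with
  | zero => intro _; omega
  | succ k ih =>
    intro h
    have := ih (by omega)
    have := emb_lt (I := I) (show k < k+1 by omega) h
    omega

lemma emb_le {I : Finset ℕ} {W : ℕ} (hI : I ⊆ Finset.range W) : ∀ {d k : ℕ}, k + d + 1 = I.card →
    emb I k + d < W := by
  intro d
  induction d with
  | zero =>
    intro k h
    have := hI (emb_mem (I := I) (k := k) (by omega))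
    rw [Finset.mem_range] at this; omega
  | succ d ih =>
    intro k h
    have h1 := ih (k := k+1) (by omega)
    have := emb_lt (I := I) (show k < k+1 by omega) (by omega)
    omega

lemma exists_emb {x z : List Bool} {W : ℕ} (hx : x.length = W) (h : z.Sublist x) :
    ∃ I ∈ Finset.powersetCard z.length (Finset.range W),
      ∀ k, k < z.length → z.getD k false = x.getD (emb I k) false := by
  obtain ⟨f, hf⟩ := List.sublist_iff_exists_fin_orderEmbedding_get_eq.1 h
  have hm : StrictMono (fun k : Fin z.length => (f k).val) := fun a b hab => f.strictMono hab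
  refine ⟨Finset.univ.image (fun k : Fin z.length => (f k).val), ?_, ?_⟩
  · rw [Finset.mem_powersetCard]
    constructor
    · intro y hy
      simp only [Finset.mem_image, Finset.mem_univ, true_and] at hy
      obtain ⟨k, rfl⟩ := hy
      rw [Finset.mem_range, ← hx]
      exact (f k).isLt
    · rw [Finset.card_image_of_injective _ hm.injective]; simp
  · intro k hk
    rw [emb_image _ hm hk]
    have := hf ⟨k, hk⟩
    simp only [List.get_eq_getElem] at this
    rw [List.getD_eq_getElem _ _ hk, List.getD_eq_getElem _ _ (f ⟨k, hk⟩).isLt]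
    exact this

lemma ind_imp {x y : List Bool} {W w K : ℕ} (hx : x.length = W) (hy : y.length = W)
    (hK : K + w = W) (h : Ind (2*w) x y) :
    ∃ I ∈ Finset.powersetCard K (Finset.range W), ∃ J ∈ Finset.powersetCard K (Finset.range W),
      ∀ k < K, x.getD (emb I k) false = y.getD (emb J k) false := by
  obtain ⟨z, h1, h2, h3⟩ := h
  have hz : K ≤ z.length := by omega
  have hl : (z.take K).length = K := by simp [hz]
  obtain ⟨I, hI, hI'⟩ := exists_emb hx ((List.take_sublist K z).trans h1)
  obtain ⟨J, hJ, hJ'⟩ := exists_emb hy ((List.take_sublist K z).trans h2)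
  rw [hl] at hI hJ hI' hJ'
  exact ⟨I, hI, J, hJ, fun k hk => by rw [← hI' k hk, hJ' k hk]⟩

lemma sub_getD (S : ℕ → Bool) (a n k : ℕ) (hk : k < n) : (sub S a n).getD k false = S (a+k) := by
  have : k < (sub S a n).length := by simpa using hk
  rw [List.getD_eq_getElem _ _ this]
  simp [sub]

lemma choose_le (w : ℕ) : (128*w).choose w ≤ 384^w := by
  have h1 := Nat.choose_le_pow_div (α := ℝ) w (128*w)
  have h2 := Real.pow_div_factorial_le_exp (x := (w:ℝ)) (by positivity) w
  have h3 : Real.exp (w:ℝ) ≤ 3^w := by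
    have : Real.exp 1 ≤ 3 := by
      have := Real.exp_one_lt_d9; linarith
    calc Real.exp (w:ℝ) = (Real.exp 1)^w := by rw [← Real.exp_nat_mul]; simp
      _ ≤ 3^w := pow_le_pow_left₀ (Real.exp_pos _).le this w
  have h4 : (((128*w).choose w : ℕ) : ℝ) ≤ (384:ℝ)^w := by
    calc _ ≤ (((128*w : ℕ) : ℝ)^w) / (w.factorial : ℝ) := h1
      _ = 128^w * ((w:ℝ)^w / w.factorial) := by push_cast; rw [mul_pow]; ring
      _ ≤ 128^w * 3^w := by
          apply mul_le_mul_of_nonneg_left (h2.trans h3) (by positivity)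
      _ = 384^w := by rw [← mul_pow]; norm_num
  exact_mod_cast h4

section
variable (p : ℝ) [hp : Fact (0 < p ∧ p < 1)] {m M : ℕ}

lemma prob_ind_lt {w A B : ℕ} (hA : 128*w ≤ A) (hB : B ≤ M) (hAB : A + w < B) :
    mu p m M {ω | Ind (2*w) (sub (bit ω) (A - 128*w) (128*w)) (sub (bit ω) (B - 128*w) (128*w))}
      ≤ (2⁻¹:ℝ≥0∞)^(100*w) := by
  classical
  set P := Finset.powersetCard (127*w) (Finset.range (128*w)) with hP
  have hPc : P.card ≤ 384^w := by
    rw [hP, Finset.card_powersetCard, Finset.card_range]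
    have : (128*w).choose (127*w) = (128*w).choose w := by
      rw [← Nat.choose_symm (by omega : w ≤ 128*w)]
      congr 1; omega
    rw [this]; exact choose_le w
  have key : ∀ I ∈ P, ∀ J ∈ P, mu p m M {ω | ∀ k < 127*w,
      bit ω (A - 128*w + emb I k) = bit ω (B - 128*w + emb J k)} ≤ (2⁻¹:ℝ≥0∞)^(127*w) := by
    intro I hI J hJ
    rw [hP, Finset.mem_powersetCard] at hI hJ
    apply prob_eqs
    · intro k hk
      have h1 := emb_le hI.1 (d := 127*w - 1 - k) (k := k) (by omega)
      have h2 := le_emb (I := J) (k := k) (by omega)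
      omega
    · intro k hk
      have h1 := emb_le hJ.1 (d := 127*w - 1 - k) (k := k) (by omega)
      omega
    · intro k l hkl hl
      have := emb_lt (I := J) hkl (by omega)
      omega
  calc _ ≤ mu p m M (⋃ I ∈ P, ⋃ J ∈ P, {ω | ∀ k < 127*w,
      bit ω (A - 128*w + emb I k) = bit ω (B - 128*w + emb J k)}) := by
        apply measure_mono
        intro ω hω
        rw [Set.mem_ofPred_eq] at hω
        obtain ⟨I, hI, J, hJ, h⟩ := ind_imp (K := 127*w) (W := 128*w) (by simp) (by simp)
          (by omega) hω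
        simp only [Set.mem_iUnion]
        refine ⟨I, hI, J, hJ, ?_⟩
        intro k hk
        have h' := h k hk
        rw [Finset.mem_powersetCard] at hI hJ
        have h1 := emb_le hI.1 (d := 127*w - 1 - k) (k := k) (by omega)
        have h2 := emb_le hJ.1 (d := 127*w - 1 - k) (k := k) (by omega)
        rwa [sub_getD _ _ _ _ (by omega), sub_getD _ _ _ _ (by omega)] at h'
    _ ≤ ∑ I ∈ P, ∑ J ∈ P, (2⁻¹:ℝ≥0∞)^(127*w) := by
        refine (measure_biUnion_finset_le _ _).trans (Finset.sum_le_sum (fun I hI => ?_))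
        exact (measure_biUnion_finset_le _ _).trans (Finset.sum_le_sum (fun J hJ => key I hI J hJ))
    _ = ((P.card * P.card : ℕ) : ℝ≥0∞) * (2⁻¹:ℝ≥0∞)^(127*w) := by
        rw [Finset.sum_const, Finset.sum_const, nsmul_eq_mul, nsmul_eq_mul]; push_cast; ring
    _ ≤ ((2^(27*w) : ℕ) : ℝ≥0∞) * (2⁻¹:ℝ≥0∞)^(127*w) := by
        apply mul_le_mul_left
        have : P.card * P.card ≤ 2^(27*w) := by
          calc P.card * P.card ≤ 384^w * 384^w := Nat.mul_le_mul hPc hPc
            _ = (384*384)^w := by rw [← Nat.mul_pow]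
            _ ≤ (2^27)^w := Nat.pow_le_pow_left (by norm_num) w
            _ = 2^(27*w) := by rw [← pow_mul]
        exact_mod_cast this
    _ = (2⁻¹:ℝ≥0∞)^(100*w) := by
        rw [show 127*w = 27*w + 100*w by ring, pow_add, ← mul_assoc]
        push_cast
        rw [← mul_pow, ENNReal.mul_inv_cancel (by simp) (by simp), one_pow, one_mul]

lemma prob_ind {w A B : ℕ} (hA : 128*w ≤ A) (hB : 128*w ≤ B) (hAM : A ≤ M) (hBM : B ≤ M)
    (hAB : A + w < B ∨ B + w < A) :
    mu p m M {ω | Ind (2*w) (sub (bit ω) (A - 128*w) (128*w)) (sub (bit ω) (B - 128*w) (128*w))}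
      ≤ (2⁻¹:ℝ≥0∞)^(100*w) := by
  rcases hAB with h | h
  · exact prob_ind_lt p hA hBM h
  · refine le_trans (measure_mono ?_) (prob_ind_lt p (m := m) hB hAM h)
    intro ω hω
    exact Ind.symm hω

/-- self-similarity at scale `r` around `A` -/
def BadS (m M H r A : ℕ) : Set (Om m M) :=
  {ω | ∃ B, wid H r ≤ B ∧ B ≤ A + wid H r ∧ A ≤ B + wid H r ∧
    (A + 256 * tol H r ≤ B ∨ B + 256 * tol H r ≤ A) ∧
    Ind (64 * tol H r) (sub (bit ω) (A - wid H r) (wid H r))
      (sub (bit ω) (B - wid H r) (wid H r))}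

lemma prob_BadS {H r A : ℕ} (hH : 1 ≤ H) (hA : wid H r ≤ A) (hAM : A + wid H r ≤ M) :
    mu p m M (BadS m M H r A) ≤ (2⁻¹:ℝ≥0∞)^(2000 * tol H r) := by
  classical
  have ht := tol_pos hH r
  have hw := wid_eq H r
  set w := 32 * tol H r with hwdef
  have hW : wid H r = 128 * w := by omega
  calc _ ≤ mu p m M (⋃ B ∈ (Finset.Icc (A - wid H r) (A + wid H r)).filter
      (fun B => 128*w ≤ B ∧ (A + w < B ∨ B + w < A)),
      {ω | Ind (2*w) (sub (bit ω) (A - 128*w) (128*w)) (sub (bit ω) (B - 128*w) (128*w))}) := by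
        apply measure_mono
        rintro ω ⟨B, h1, h2, h3, h4, h5⟩
        simp only [Set.mem_iUnion, Finset.mem_filter, Finset.mem_Icc]
        refine ⟨B, ⟨⟨by omega, by omega⟩, by omega, by omega⟩, ?_⟩
        rw [hW, show 64 * tol H r = 2 * w by omega] at h5
        exact h5
    _ ≤ ∑ B ∈ (Finset.Icc (A - wid H r) (A + wid H r)).filter
      (fun B => 128*w ≤ B ∧ (A + w < B ∨ B + w < A)), (2⁻¹:ℝ≥0∞)^(100*w) := by
        refine (measure_biUnion_finset_le _ _).trans (Finset.sum_le_sum (fun B hB => ?_))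
        simp only [Finset.mem_filter, Finset.mem_Icc] at hB
        exact prob_ind p (by omega) hB.2.1 (by omega) (by omega) hB.2.2
    _ ≤ ((2^(1200 * tol H r) : ℕ) : ℝ≥0∞) * (2⁻¹:ℝ≥0∞)^(100*w) := by
        rw [Finset.sum_const, nsmul_eq_mul]
        apply mul_le_mul_left
        have h1 : ((Finset.Icc (A - wid H r) (A + wid H r)).filter
          (fun B => 128*w ≤ B ∧ (A + w < B ∨ B + w < A))).card ≤ 2 * wid H r + 1 := by
          refine (Finset.card_filter_le _ _).trans ?_
          rw [Nat.card_Icc]; omega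
        have h2 : 2 * wid H r + 1 ≤ 2^(1200 * tol H r) := by
          have h3 : tol H r < 2^(tol H r) := Nat.lt_two_pow_self
          calc 2 * wid H r + 1 ≤ 2^14 * tol H r := by omega
            _ ≤ 2^14 * 2^(tol H r) := Nat.mul_le_mul_left _ h3.le
            _ = 2^(14 + tol H r) := by rw [pow_add]
            _ ≤ 2^(1200 * tol H r) := Nat.pow_le_pow_right (by norm_num) (by omega)
        exact_mod_cast h1.trans h2
    _ = (2⁻¹:ℝ≥0∞)^(2000 * tol H r) := by
        rw [show 100*w = 1200 * tol H r + 2000 * tol H r by omega, pow_add, ← mul_assoc]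
        push_cast
        rw [← mul_pow, ENNReal.mul_inv_cancel (by simp) (by simp), one_pow, one_mul]

end

end W5h82.Trace
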