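import Pool.Agent.W5h82.Trace.Om
import Pool.Agent.W5h82.Trace.Loc

/-!
Tail bounds for the number of edits.
-/

set_option autoImplicit false

open MeasureTheory ENNReal

namespace W5h82.Trace

section
variable (p : ℝ) [hp : Fact (0 < p ∧ p < 1)]

lemma lintegral_prod_actL (f : Act → ℝ≥0∞) (n : ℕ) :
    ∫⁻ l, (l.map f).prod ∂(actL p n) = (∫⁻ x, f x ∂(act p))^n := by
  induction n with
  | zero =>
    simp [actL]
  | succ n ih =>
    rw [lintegral_actL_succ]
    simp only [List.map_cons, List.prod_cons]
    have : ∀ x, ∫⁻ l, f x * (l.map f).prod ∂(actL p n) = f x * (∫⁻ x, f x ∂(act p))^n := by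
      intro x
      rw [lintegral_const_mul _ Measurable.of_discrete, ih]
    simp only [this]
    rw [lintegral_mul_const _ Measurable.of_discrete, pow_succ, mul_comm]

/-- Chernoff bound -/
lemma chernoff (g : Act → ℕ) (lam : ℝ≥0∞) (h1 : 1 ≤ lam) (n k : ℕ) :
    lam^k * actL p n {l | k ≤ (l.map g).sum} ≤ (∫⁻ x, lam^(g x) ∂(act p))^n := by
  rw [← lintegral_prod_actL]
  calc _ ≤ ∫⁻ l, ({l | k ≤ (l.map g).sum} : Set (List Act)).indicator (fun _ => lam^k) l
        ∂(actL p n) := by
        rw [lintegral_indicator MeasurableSet.of_discrete]; simp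
    _ ≤ _ := by
        apply lintegral_mono
        intro l
        have e : ∀ l : List Act, (l.map (fun x => lam^(g x))).prod = lam^((l.map g).sum) := by
          intro l
          induction l with
          | nil => simp
          | cons x l ih => simp [ih, pow_add]
        simp only [e]
        unfold Set.indicator
        split
        · rename_i h
          exact pow_le_pow_right₀ h1 h
        · simp

lemma ed_pow (lam : ℝ≥0∞) (x : Act) :
    lam^(ed x) = lam^x.1.length * (if x.2 then 1 else lam) := by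
  unfold ed
  split <;> simp [pow_add]

/-- few edits: tail bound. -/
theorem tail_edits (κ : ℕ) (hc : p ≤ (1/2)^(κ+20)) (n k : ℕ) (hn : n ≤ 2^15 * k) :
    actL p n {l | k ≤ (l.map ed).sum} ≤ (2⁻¹:ℝ≥0∞)^(κ*k) := by
  obtain ⟨h0, hlt⟩ := hp.out
  set lam : ℝ≥0∞ := 2^(κ+1) with hlam
  have hX : ∫⁻ x, lam^(ed x) ∂(act p) ≤ ENNReal.ofReal (1 + (1/2)^16) := by
    simp only [ed_pow]
    rw [lintegral_act_pow h0]
    have hl : lam = ENNReal.ofReal (2^(κ+1)) := by
      rw [hlam, ENNReal.ofReal_pow (by norm_num)]; simp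
    rw [hl, ← ENNReal.ofReal_mul (by positivity), mul_one,
      show (2:ℝ≥0∞) = ENNReal.ofReal 2 by simp, ← ENNReal.ofReal_mul (by norm_num),
      show (1:ℝ≥0∞) = ENNReal.ofReal 1 by simp, ← ENNReal.ofReal_sub _ (by positivity),
      ← ENNReal.ofReal_mul (by positivity), ← ENNReal.ofReal_add (by linarith) (by positivity)]
    have hpl : p * 2^(κ+1) ≤ (1/2)^19 := by
      calc p * 2^(κ+1) ≤ (1/2)^(κ+20) * 2^(κ+1) := by
            apply mul_le_mul_of_nonneg_right hc (by positivity)
        _ = (1/2)^19 := by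
            rw [show κ + 20 = (κ+1) + 19 by ring, pow_add, mul_comm, ← mul_assoc, ← mul_pow]
            norm_num
    have hpl0 : 0 ≤ p * 2^(κ+1) := by positivity
    have hden : 0 < 1 - 2 * (p/4 * 2^(κ+1)) := by
      have : (1/2:ℝ)^19 ≤ 1 := by norm_num
      linarith
    rw [← ENNReal.ofReal_inv_of_pos hden, ← ENNReal.ofReal_mul (by positivity)]
    apply ENNReal.ofReal_le_ofReal
    rw [inv_mul_le_iff₀ hden]
    norm_num at hpl ⊢
    nlinarith
  have h := chernoff p ed lam (by rw [hlam]; exact one_le_pow₀ (by norm_num)) n k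
  have hX2 : (∫⁻ x, lam^(ed x) ∂(act p))^n ≤ 2^k := by
    calc _ ≤ (ENNReal.ofReal (1 + (1/2)^16))^n := pow_le_pow_left' hX n
      _ ≤ (ENNReal.ofReal (1 + (1/2)^16))^(2^15*k) :=
          pow_le_pow_right₀ (by rw [ENNReal.one_le_ofReal]; norm_num) hn
      _ = ((ENNReal.ofReal (1 + (1/2)^16))^(2^15))^k := by rw [pow_mul]
      _ ≤ 2^k := by
          apply pow_le_pow_left'
          rw [← ENNReal.ofReal_pow (by positivity), show (2:ℝ≥0∞) = ENNReal.ofReal 2 by simp]
          apply ENNReal.ofReal_le_ofReal
          calc (1 + (1/2:ℝ)^16)^(2^15) ≤ (Real.exp ((1/2)^16))^(2^15) := by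
                apply pow_le_pow_left₀ (by positivity)
                have := Real.add_one_le_exp ((1/2:ℝ)^16)
                linarith
            _ = Real.exp (1/2) := by
                rw [← Real.exp_nat_mul]; congr 1; norm_num
            _ ≤ 2 := by
                have h1 : Real.exp (1/2) * Real.exp (1/2) = Real.exp 1 := by
                  rw [← Real.exp_add]; norm_num
                have h2 := Real.exp_one_lt_d9
                have h3 := Real.exp_pos (1/2:ℝ)
                nlinarith
  have h2 := h.trans hX2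
  have e1 : lam^k = 2^k * 2^(κ*k) := by
    rw [hlam, ← pow_mul, ← pow_add]; congr 1; ring
  rw [e1] at h2
  have h3 : (2:ℝ≥0∞)^(κ*k) * actL p n {l | k ≤ (l.map ed).sum} ≤ 1 := by
    have h2k : (2:ℝ≥0∞)^k ≠ 0 := by positivity
    have h2k' : (2:ℝ≥0∞)^k ≠ ⊤ := by simp
    rw [mul_assoc] at h2
    have := (ENNReal.mul_le_mul_iff_right h2k h2k').1 (h2.trans_eq (mul_one _).symm)
    exact this
  rw [← ENNReal.inv_pow]
  exact (ENNReal.le_inv_iff_mul_le).2 (by rwa [mul_comm] at h3)

/-- rare long insertions: tail bound for their total length -/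
theorem tail_ins (h4 : p ≤ 1/4) (B n k : ℕ) :
    actL p n {l | k ≤ (l.map (fun x => if B ≤ x.1.length then x.1.length else 0)).sum}
      ≤ (2⁻¹:ℝ≥0∞)^k * (1 + 2 * (2⁻¹)^B)^n := by
  obtain ⟨h0, hlt⟩ := hp.out
  have h := chernoff p (fun x => if B ≤ x.1.length then x.1.length else 0) 2 (by norm_num) n k
  have hX : ∫⁻ x, (2:ℝ≥0∞)^(if B ≤ x.1.length then x.1.length else 0) ∂(act p)
      ≤ 1 + 2 * (2⁻¹)^B := by
    calc _ ≤ ∫⁻ x : Act, (1 + (2⁻¹)^B * (4^x.1.length * (if x.2 then 1 else 1))) ∂(act p) := by
          apply lintegral_mono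
          intro x
          simp only [ite_self, mul_one]
          split
          · rename_i hB
            have : (2:ℝ≥0∞)^x.1.length ≤ (2⁻¹)^B * 4^x.1.length := by
              have e4 : (4:ℝ≥0∞)^x.1.length = 2^B * (2^(x.1.length - B) * 2^x.1.length) := by
                rw [← mul_assoc, ← pow_add, show B + (x.1.length - B) = x.1.length by omega,
                  ← mul_pow]; norm_num
              rw [e4, ← mul_assoc, ← mul_pow, ENNReal.inv_mul_cancel (by simp) (by simp),
                one_pow, one_mul]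
              calc (2:ℝ≥0∞)^x.1.length = 1 * 2^x.1.length := (one_mul _).symm
                _ ≤ _ := by
                  apply mul_le_mul_left
                  exact one_le_pow₀ (by norm_num)
            exact this.trans le_add_self
          · simp
      _ = 1 + (2⁻¹)^B * ((1 - 2 * (ENNReal.ofReal (p/4) * 4))⁻¹
          * (ENNReal.ofReal (1-p) * 1 + ENNReal.ofReal (p/2) * 1)) := by
          rw [lintegral_add_left Measurable.of_discrete, lintegral_const_mul _
            Measurable.of_discrete, lintegral_act_pow h0]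
          simp
      _ ≤ 1 + 2 * (2⁻¹)^B := by
          rw [mul_comm (2:ℝ≥0∞) ((2⁻¹)^B)]
          apply add_le_add le_rfl
          apply mul_le_mul_right
          rw [mul_one, mul_one, show (4:ℝ≥0∞) = ENNReal.ofReal 4 by simp,
            ← ENNReal.ofReal_mul (by positivity),
            show (2:ℝ≥0∞) = ENNReal.ofReal 2 by simp, ← ENNReal.ofReal_mul (by norm_num),
            show (1:ℝ≥0∞) = ENNReal.ofReal 1 by simp, ← ENNReal.ofReal_sub _ (by positivity),
            ← ENNReal.ofReal_add (by linarith) (by positivity)]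
          have hden : 0 < 1 - 2 * (p/4 * 4) := by linarith
          rw [← ENNReal.ofReal_inv_of_pos hden, ← ENNReal.ofReal_mul (by positivity)]
          apply ENNReal.ofReal_le_ofReal
          rw [inv_mul_le_iff₀ hden]
          linarith
  have h2 := h.trans (pow_le_pow_left' hX n)
  have e : actL p n {l | k ≤ (l.map (fun x => if B ≤ x.1.length then x.1.length else 0)).sum}
      = (2⁻¹)^k * (2^k * actL p n
        {l | k ≤ (l.map (fun x => if B ≤ x.1.length then x.1.length else 0)).sum}) := by
    rw [← mul_assoc, ← mul_pow, ENNReal.inv_mul_cancel (by simp) (by simp), one_pow, one_mul]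
  rw [e]
  exact mul_le_mul_right h2 _

end

end W5h82.Trace
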