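import Pool.Agent.W5h82.Trace.Asm
import Pool.Agent.W5h82.Trace.SelfSim
import Pool.Agent.W5h82.Trace.Tail
import Pool.Agent.W5h82.Trace.Deck

/-!
Local bad events and their probabilities.
-/

set_option autoImplicit false

open MeasureTheory ENNReal

namespace W5h82.Trace

variable {m M : ℕ}

/-- cells near the position `A` -/
def near (m M A ρ : ℕ) : Set (Idx m M) := {k | A ≤ k.2.val + ρ ∧ k.2.val ≤ A + ρ}

lemma near_disjoint {A B ρ : ℕ} (h : A + 2 * ρ < B) : Disjoint (near m M A ρ) (near m M B ρ) := by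
  rw [Set.disjoint_left]
  rintro k ⟨h1, h2⟩ ⟨h3, h4⟩
  omega

lemma near_mono {A ρ ρ' : ℕ} (h : ρ ≤ ρ') : near m M A ρ ⊆ near m M A ρ' := by
  rintro k ⟨h1, h2⟩
  exact ⟨by omega, by omega⟩

lemma DepOn.mono {ι X : Type*} {A : Set (ι → X)} {J K : Set ι} (h : DepOn A J) (hJK : J ⊆ K) :
    DepOn A K := fun ω ω' e => h ω ω' (fun i hi => e i (hJK hi))

lemma bit_near {ω ω' : Om m M} {A ρ : ℕ} (h : ∀ k ∈ near m M A ρ, ω k = ω' k) {j : ℕ}
    (h1 : A ≤ j + ρ) (h2 : j ≤ A + ρ) : bit ω j = bit ω' j := by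
  unfold bit
  split
  · rename_i hj
    rw [h (none, ⟨j, hj⟩) ⟨h1, h2⟩]
  · rfl

lemma ac_near {ω ω' : Om m M} {A ρ : ℕ} (h : ∀ k ∈ near m M A ρ, ω k = ω' k) (i : Fin m) {j : ℕ}
    (h1 : A ≤ j + ρ) (h2 : j ≤ A + ρ) : ac ω i j = ac ω' i j := by
  unfold ac
  split
  · rename_i hj
    rw [h (some i, ⟨j, hj⟩) ⟨h1, h2⟩]
  · rfl

lemma acts_congr {α α' : ℕ → Act} {a n : ℕ} (h : ∀ j, a ≤ j → j < a + n → α j = α' j) :
    acts α a n = acts α' a n := by
  unfold acts
  apply List.map_congr_left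
  intro j hj
  rw [List.mem_range'_1] at hj
  exact h j hj.1 hj.2

lemma sub_congr {S S' : ℕ → Bool} {a n : ℕ} (h : ∀ j, a ≤ j → j < a + n → S j = S' j) :
    sub S a n = sub S' a n := by
  unfold sub
  apply List.map_congr_left
  intro j hj
  rw [List.mem_range'_1] at hj
  exact h j hj.1 hj.2

lemma segL_congr {S S' : ℕ → Bool} (l : List Act) : ∀ {a : ℕ},
    (∀ j, a ≤ j → j < a + l.length → S j = S' j) → segL S a l = segL S' a l := by
  induction l with
  | nil => intro a _; rfl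
  | cons x l ih =>
    intro a h
    rw [segL, segL, h a le_rfl (by simp), ih (fun j h1 h2 => h j (by omega) (by simp; omega))]

lemma seg_congr {S S' : ℕ → Bool} {α α' : ℕ → Act} {a n : ℕ}
    (hS : ∀ j, a ≤ j → j < a + n → S j = S' j) (h : ∀ j, a ≤ j → j < a + n → α j = α' j) :
    seg S α a n = seg S' α' a n := by
  unfold seg
  rw [acts_congr h]
  apply segL_congr
  simpa using hS

/-- bad events of scale `r` at `A` -/
def badE (m M H r A : ℕ) : Set (Om m M) :=
  {ω | ∃ i, tol H r < edits (ac ω i) (A - 4 * wid H r) (8 * wid H r)}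

def badR (m M H r A : ℕ) : Set (Om m M) := badE m M H r A ∪ BadS m M H r A

lemma badE_dep (H r A : ℕ) : DepOn (badE m M H r A) (near m M A (8 * wid H r)) := by
  intro ω ω' h
  unfold badE edits
  simp only [Set.mem_ofPred_eq]
  apply exists_congr
  intro i
  rw [acts_congr (fun j h1 h2 => ac_near h i (by omega) (by omega))]

lemma BadS_dep (H r A : ℕ) : DepOn (BadS m M H r A) (near m M A (8 * wid H r)) := by
  intro ω ω' h
  unfold BadS
  simp only [Set.mem_ofPred_eq]
  apply exists_congr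
  intro B
  apply and_congr_right; intro h1
  apply and_congr_right; intro h2
  apply and_congr_right; intro h3
  apply and_congr_right; intro h4
  rw [sub_congr (S := bit ω) (S' := bit ω') (fun j h5 h6 => bit_near h (by omega) (by omega)),
    sub_congr (S := bit ω) (S' := bit ω') (fun j h5 h6 => bit_near h (by omega) (by omega))]

lemma badR_dep (H r A : ℕ) : DepOn (badR m M H r A) (near m M A (8 * wid H r)) := by
  intro ω ω' h
  unfold badR
  rw [Set.mem_union, Set.mem_union, badE_dep H r A ω ω' h, BadS_dep H r A ω ω' h]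

lemma fineE_of {H R A : ℕ} {ω : Om m M} (h : ∀ r ≤ R, ω ∉ badR m M H r A) (i : Fin m) :
    FineE H R (ac ω i) A := by
  intro r hr
  by_contra hcon
  exact h r hr (Or.inl ⟨i, by omega⟩)

lemma fineS_of {H R A : ℕ} {ω : Om m M} (h : ∀ r ≤ R, ω ∉ badR m M H r A) :
    FineS H R (bit ω) A := by
  intro r hr B h1 h2 h3 h4 h5
  exact h r hr (Or.inr ⟨B, h1, h2, h3, h4, h5⟩)

section prob
variable (p : ℝ) [hp : Fact (0 < p ∧ p < 1)]

lemma prob_badE1 {κ H r A : ℕ} (hc : p ≤ (1/2)^(κ+20)) (hM : A + 4 * wid H r ≤ M)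
    (hM' : 8 * wid H r ≤ M) (i : Fin m) :
    mu p m M {ω | tol H r < edits (ac ω i) (A - 4 * wid H r) (8 * wid H r)}
      ≤ (2⁻¹:ℝ≥0∞)^(κ * tol H r) := by
  have h1 := measure_acts p (m := m) (M := M) i (a := A - 4 * wid H r) (n := 8 * wid H r)
    (by omega) {l | tol H r ≤ (l.map ed).sum}
  calc _ ≤ mu p m M {ω | acts (ac ω i) (A - 4 * wid H r) (8 * wid H r) ∈
        {l | tol H r ≤ (l.map ed).sum}} := by
        apply measure_mono
        intro ω hω
        simp only [Set.mem_ofPred_eq] at hω ⊢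
        exact hω.le
    _ = _ := h1
    _ ≤ _ := by
        apply tail_edits p κ hc
        rw [wid_eq]; omega

lemma prob_badE {κ H r A : ℕ} (hc : p ≤ (1/2)^(κ+20)) (hM : A + 4 * wid H r ≤ M)
    (hM' : 8 * wid H r ≤ M) :
    mu p m M (badE m M H r A) ≤ m * (2⁻¹:ℝ≥0∞)^(κ * tol H r) := by
  have : badE m M H r A ⊆ ⋃ i ∈ (Finset.univ : Finset (Fin m)),
      {ω | tol H r < edits (ac ω i) (A - 4 * wid H r) (8 * wid H r)} := by
    rintro ω ⟨i, hi⟩
    simp only [Finset.mem_univ, Set.iUnion_true, Set.mem_iUnion]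
    exact ⟨i, hi⟩
  refine (measure_mono this).trans ((measure_biUnion_finset_le _ _).trans ?_)
  refine (Finset.sum_le_sum (fun i _ => prob_badE1 p hc hM hM' i)).trans ?_
  simp

lemma prob_badR {κ H r A : ℕ} (hH : 1 ≤ H) (hκ : 200 ≤ κ) (hc : p ≤ (1/2)^(κ+20))
    (hm : m ≤ 2^((κ-200)*H))
    (hA : wid H r ≤ A) (hM : A + 4 * wid H r ≤ M) (hM' : 8 * wid H r ≤ M) :
    mu p m M (badR m M H r A) ≤ (2⁻¹:ℝ≥0∞)^(199 * tol H r) := by
  have ht := tol_pos hH r
  have htH : H ≤ tol H r := by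
    have := tol_mono (H := H) (Nat.zero_le r)
    simpa [tol] using this
  have h1 : (m:ℝ≥0∞) * (2⁻¹)^(κ * tol H r) ≤ (2⁻¹)^(200 * tol H r) := by
    have h2 : (m:ℝ≥0∞) ≤ 2^((κ-200) * tol H r) := by
      have : m ≤ 2^((κ-200) * tol H r) :=
        hm.trans (Nat.pow_le_pow_right (by norm_num) (Nat.mul_le_mul_left _ htH))
      exact_mod_cast this
    calc _ ≤ 2^((κ-200) * tol H r) * (2⁻¹:ℝ≥0∞)^(κ * tol H r) := mul_le_mul_left h2 _
      _ = _ := by
        have e : κ * tol H r = (κ-200) * tol H r + 200 * tol H r := by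
          rw [← Nat.add_mul]; congr 1; omega
        rw [e, pow_add, ← mul_assoc, ← mul_pow, ENNReal.mul_inv_cancel (by simp) (by simp),
          one_pow, one_mul]
  refine (measure_union_le _ _).trans ?_
  calc _ ≤ (2⁻¹:ℝ≥0∞)^(200 * tol H r) + (2⁻¹)^(200 * tol H r) := by
        apply add_le_add ((prob_badE p hc hM hM').trans h1)
        refine (prob_BadS p hH hA (by omega)).trans ?_
        exact pow_le_pow_right_of_le_one' (by simp) (by omega)
    _ = (2⁻¹:ℝ≥0∞)^(200 * tol H r) * 2 := by rw [mul_two]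
    _ ≤ (2⁻¹:ℝ≥0∞)^(199 * tol H r + 1) * 2 := by
        apply mul_le_mul_left
        exact pow_le_pow_right_of_le_one' (by simp) (by omega)
    _ = (2⁻¹:ℝ≥0∞)^(199 * tol H r) := by
        rw [pow_succ, mul_assoc, ENNReal.inv_mul_cancel (by simp) (by simp), mul_one]

/-- `K-1`-mers around `A` are not distinct -/
def badK (m M K D A : ℕ) : Set (Om m M) :=
  {ω | ∃ a b, A ≤ a + D ∧ a < b ∧ b ≤ A + D ∧ sub (bit ω) a (K-1) = sub (bit ω) b (K-1)}

lemma badK_dep (K D A : ℕ) : DepOn (badK m M K D A) (near m M A (D+K)) := by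
  intro ω ω' h
  unfold badK
  simp only [Set.mem_ofPred_eq]
  apply exists_congr; intro a
  apply exists_congr; intro b
  apply and_congr_right; intro h1
  apply and_congr_right; intro h2
  apply and_congr_right; intro h3
  rw [sub_congr (S := bit ω) (S' := bit ω') (fun j h5 h6 => bit_near h (by omega) (by omega)),
    sub_congr (S := bit ω) (S' := bit ω') (fun j h5 h6 => bit_near h (by omega) (by omega))]

lemma prob_same {K a b : ℕ} (hab : a < b) (hb : b + (K-1) ≤ M) :
    mu p m M {ω | sub (bit ω) a (K-1) = sub (bit ω) b (K-1)} ≤ (2⁻¹:ℝ≥0∞)^(K-1) := by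
  refine (measure_mono ?_).trans (prob_eqs p (fun k => a + k) (fun k => b + k) (K-1)
    (fun k _ => by omega) (fun k hk => by omega) (fun k l hkl _ => by omega))
  intro ω hω k hk
  simp only [Set.mem_ofPred_eq] at hω
  have := congrArg (fun l => l[k]?) hω
  rw [sub_getElem? _ _ _ _ hk, sub_getElem? _ _ _ _ hk] at this
  exact Option.some.inj this

lemma prob_badK {K D A : ℕ} (hM : A + D + K ≤ M) :
    mu p m M (badK m M K D A) ≤ ((2*D+1)^2 : ℕ) * (2⁻¹:ℝ≥0∞)^(K-1) := by
  classical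
  have : badK m M K D A ⊆ ⋃ q ∈ ((Finset.Icc (A-D) (A+D)) ×ˢ (Finset.Icc (A-D) (A+D))).filter
      (fun q => q.1 < q.2), {ω | sub (bit ω) q.1 (K-1) = sub (bit ω) q.2 (K-1)} := by
    rintro ω ⟨a, b, h1, h2, h3, h4⟩
    simp only [Set.mem_iUnion, Finset.mem_filter, Finset.mem_product, Finset.mem_Icc]
    exact ⟨(a, b), ⟨⟨⟨by omega, by omega⟩, by omega, by omega⟩, h2⟩, h4⟩
  refine (measure_mono this).trans ((measure_biUnion_finset_le _ _).trans ?_)
  refine (Finset.sum_le_sum (g := fun _ => (2⁻¹:ℝ≥0∞)^(K-1)) (fun q hq => ?_)).trans ?_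
  · simp only [Finset.mem_filter, Finset.mem_product, Finset.mem_Icc] at hq
    exact prob_same p hq.2 (by omega)
  · rw [Finset.sum_const, nsmul_eq_mul]
    apply mul_le_mul_left
    have h1 : ((Finset.Icc (A-D) (A+D)) ×ˢ (Finset.Icc (A-D) (A+D))).card ≤ (2*D+1)^2 := by
      rw [Finset.card_product, Nat.card_Icc, sq]
      exact Nat.mul_le_mul (by omega) (by omega)
    exact_mod_cast (Finset.card_filter_le _ _).trans h1

end prob

end W5h82.Trace
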