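import Pool.Agent.W5h82.Trace.Asm

/-!
The decoder for short strings: deterministic analysis.
-/

set_option autoImplicit false

namespace W5h82.Trace

open Classical in
/-- cut the `n` symbols following the anchor -/
noncomputable def cut (K n : ℕ) (anchor z : List Bool) : List Bool :=
  if h : ∃ j, (z.drop j).take K = anchor then (z.drop (h.choose + K)).take n else []

lemma cut_eq {S : ℕ → Bool} {K n N0 c l : ℕ} (hcK : c + K ≤ N0) (hcl : N0 + n ≤ c + l)
    (hK : 1 ≤ K)
    (hd : ∀ a, c ≤ a → a + K ≤ c + l → sub S a (K-1) = sub S (N0 - K) (K-1) → a = N0 - K) :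
    cut K n (sub S (N0 - K) K) (sub S c l) = sub S N0 n := by
  classical
  have hex : ∃ j, ((sub S c l).drop j).take K = sub S (N0 - K) K := by
    refine ⟨N0 - K - c, ?_⟩
    rw [sub_window S _ _ _ _ (by omega)]
    congr 1; omega
  unfold cut
  rw [dif_pos hex]
  have hj := hex.choose_spec
  set j := hex.choose with hjdef
  have hlen := congrArg List.length hj
  rw [List.length_take, List.length_drop, sub_length, sub_length] at hlen
  have hjK : j + K ≤ l := by omega
  rw [sub_window S _ _ _ _ hjK] at hj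
  have h2 := congrArg (List.take (K-1)) hj
  rw [sub_take _ _ _ _ (by omega), sub_take _ _ _ _ (by omega)] at h2
  have h3 := hd (c+j) (by omega) (by omega) h2
  rw [sub_window S _ _ _ _ (by omega)]
  congr 1; omega

/-- the decoder for short strings -/
noncomputable def decE (Acc : ℕ → Set (List Bool)) (K x1 x2 cap : ℕ) (anchor : List Bool)
    (n : ℕ) : List Bool := cut K n anchor (blk Acc K x1 x2 cap)

/-- half width of the margin -/
def mg (H : ℕ) : ℕ := 2^15 * H

theorem decE_eq {S : ℕ → Bool} {α0 : ℕ → Act} {Acc : ℕ → Set (List Bool)} {H R K L N0 n : ℕ}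
    (hH : 1 ≤ H) (hK : K = 14334 * H) (hL : L = 16384 * H) (hN0 : 2 * mg H ≤ N0)
    (hgood : ∀ A, N0 ≤ A + mg H → A < N0 + n + mg H → GoodAcc L H Acc S α0 A ∧ FineE H R α0 A)
    (hd : ∀ a b, N0 ≤ a + 2 * mg H → a < b → b ≤ N0 + n + 2 * mg H →
      sub S a (K-1) ≠ sub S b (K-1)) :
    decE Acc K (out α0 (N0 - mg H)) (out α0 (N0 + n + mg H)) (n + 3 * mg H) (sub S (N0 - K) K) n
      = sub S N0 n := by
  have hmg : mg H = 2^15 * H := rfl
  have e0 : tol H 0 = H := by simp [tol]
  have w0 : wid H 0 = 4096 * H := by simp [wid]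
  have hed : ∀ A, N0 ≤ A + mg H → A < N0 + n + mg H → ∀ a k, A ≤ a + 4 * wid H 0 →
      a + k ≤ A + 4 * wid H 0 → edits α0 a k ≤ H := by
    intro A h1 h2 a k h3 h4
    have := (hgood A h1 h2).2.edits_le (Nat.zero_le R) h3 h4
    omega
  set x1 := out α0 (N0 - mg H) with hx1
  set x2 := out α0 (N0 + n + mg H) with hx2
  have hx12 : x1 < x2 := by
    have g1 := le_out_add α0 (N0 - mg H) (H+1)
    have g2 := hed (N0 - mg H) (by omega) (by omega) (N0 - mg H) (H+1) (by omega) (by omega)
    have g3 := out_mono α0 (show N0 - mg H + (H+1) ≤ N0 + n + mg H by omega)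
    omega
  obtain ⟨A1, hA1a, hA1b, hA1c, hA1d⟩ := exists_ptr α0 (a := N0 - mg H) (b := N0 + n + mg H)
    (y := x1) (by omega) (by omega)
  obtain ⟨A2, hA2a, hA2b, hA2c, hA2d⟩ := exists_ptr α0 (a := N0 - mg H) (b := N0 + n + mg H)
    (y := x2 - 1) (by omega) (by omega)
  have hA1 : A1 ≤ N0 - mg H + H := by
    by_contra hcon
    push Not at hcon
    have g1 := le_out_add α0 (N0 - mg H) (H+1)
    have g2 := hed (N0 - mg H) (by omega) (by omega) (N0 - mg H) (H+1) (by omega) (by omega)
    have g3 := out_mono α0 (show N0 - mg H + (H+1) ≤ A1 by omega)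
    omega
  have hA2 : N0 + n + mg H ≤ A2 + H + 1 := by
    by_contra hcon
    push Not at hcon
    have g1 := le_out_add α0 (A2+1) (H+1)
    have g2 := hed A2 (by omega) (by omega) (A2+1) (H+1) (by omega) (by omega)
    have g3 := out_mono α0 (show A2 + 1 + (H+1) ≤ N0 + n + mg H by omega)
    omega
  obtain ⟨c, l, hblk, b1, b2, b3⟩ := block_good (S := S) (α0 := α0) (Acc := Acc) (H := H) (R := R)
    (K := K) (L := L) (x1 := x1) (x2 := x2) (A1 := A1) (A2 := A2) (cap := n + 3 * mg H)
    (by omega) (by omega) (by omega) hx12 hA1c hA1d hA2c hA2d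
    (by
      rintro A h1 h2 -
      exact hgood A (by omega) (by omega))
    (by
      intro a b h1 h2 h3 h4 h5
      rcases lt_trichotomy a b with h | h | h
      · exact absurd h5 (hd a b (by omega) h (by omega))
      · exact h
      · exact absurd h5.symm (hd b a (by omega) h (by omega)))
    (by omega)
  unfold decE
  rw [hblk]
  apply cut_eq
  · omega
  · omega
  · omega
  · intro a h1 h2 h3
    rcases lt_trichotomy a (N0 - K) with h | h | h
    · exact absurd h3 (hd a (N0 - K) (by omega) h (by omega))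
    · exact h
    · exact absurd h3.symm (hd (N0 - K) a (by omega) h (by omega))

end W5h82.Trace
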