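import Pool.Agent.W5h82.Trace.Local
import Pool.Agent.W5h82.Trace.Cost
import Pool.Agent.W5h82.Trace.Exact

/-!
The decoder for short strings: probability of failure.
-/

set_option autoImplicit false

open MeasureTheory ENNReal

namespace W5h82.Trace

/-- A voting scheme together with its local bad events. -/
structure Votes (p : ℝ) (H R m M : ℕ)
    (Acc : List Bool → (Fin m → List Bool) → ℕ → Set (List Bool))
    (BV : ℕ → Set (Om (m+1) M)) : Prop where
  prob : ∀ A, 2 * wid H R ≤ A → A ≤ 4 * wid H R → mu p (m+1) M (BV A) ≤ (2⁻¹:ℝ≥0∞)^(60*H)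
  dep : ∀ A, DepOn (BV A) (near (m+1) M A (wid H H))
  good : ∀ A ω, 2 * wid H R ≤ A → A ≤ 4 * wid H R → ω ∉ BV A → fineAt H R ω A →
    GoodAcc (16384 * H) H (Acc (tr ω 0) (fun i : Fin m => tr ω i.succ)) (bit ω) (ac ω 0) A

lemma pw {a b c x : ℕ} (h : a + c ≤ b) (hx : x ≤ 2^a) :
    (x:ℝ≥0∞) * (2⁻¹)^b ≤ (2⁻¹)^c := by
  have hx' : (x:ℝ≥0∞) ≤ 2^a := by exact_mod_cast hx
  calc (x:ℝ≥0∞) * (2⁻¹)^b ≤ 2^a * (2⁻¹:ℝ≥0∞)^(a+c) := by
        apply mul_le_mul' hx'
        exact pow_le_pow_right_of_le_one' (by simp) h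
    _ = (2⁻¹)^c := by
        rw [pow_add, ← mul_assoc, ← mul_pow, ENNReal.mul_inv_cancel (by simp) (by simp),
          one_pow, one_mul]

lemma tol_ge (H r : ℕ) (hH : 1 ≤ H) : H + r ≤ tol H r := by
  unfold tol
  have h1 : r + 1 ≤ 2^r := Nat.lt_two_pow_self
  calc H + r ≤ (r+1) * H := by nlinarith
    _ ≤ 2^r * H := Nat.mul_le_mul_right _ h1

lemma geom_le (R : ℕ) : ∑ r ∈ Finset.range (R+1), (2⁻¹:ℝ≥0∞)^r ≤ 2 := by
  refine (ENNReal.sum_le_tsum _).trans ?_
  rw [ENNReal.tsum_geometric]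
  have : (1:ℝ≥0∞) - 2⁻¹ = 2⁻¹ := by
    rw [ENNReal.sub_eq_of_eq_add (by simp)]
    rw [← two_mul, ENNReal.mul_inv_cancel (by simp) (by simp)]
  rw [this, inv_inv]

lemma sum_scales {f : ℕ → ℝ≥0∞} {H R c : ℕ} (hH : 1 ≤ H) (hc : 1 ≤ c)
    (hf : ∀ r ≤ R, f r ≤ (2⁻¹)^(c * tol H r)) :
    ∑ r ∈ Finset.range (R+1), f r ≤ 2 * (2⁻¹)^(c*H) := by
  calc _ ≤ ∑ r ∈ Finset.range (R+1), (2⁻¹:ℝ≥0∞)^(c*H) * (2⁻¹)^r := by
        apply Finset.sum_le_sum
        intro r hr
        rw [Finset.mem_range] at hr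
        refine (hf r (by omega)).trans ?_
        rw [← pow_add]
        apply pow_le_pow_right_of_le_one' (by simp)
        have := tol_ge H r hH
        calc c * H + r ≤ c * H + c * r := by nlinarith
          _ = c * (H + r) := by ring
          _ ≤ c * tol H r := Nat.mul_le_mul_left _ this
    _ = (2⁻¹:ℝ≥0∞)^(c*H) * ∑ r ∈ Finset.range (R+1), (2⁻¹:ℝ≥0∞)^r := by rw [Finset.mul_sum]
    _ ≤ (2⁻¹:ℝ≥0∞)^(c*H) * 2 := mul_le_mul_right (geom_le R) _
    _ = _ := mul_comm _ _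

section
variable (p : ℝ) [hp : Fact (0 < p ∧ p < 1)] {κ H R m M : ℕ}

lemma wid_le {H r R : ℕ} (h : r ≤ R) : wid H r ≤ wid H R := by
  have := tol_mono (H := H) h
  rw [wid_eq, wid_eq]; omega

lemma prob_scales (hH : 1 ≤ H) (hκ : 200 ≤ κ) (hc : p ≤ (1/2)^(κ+20))
    (hm : m + 1 ≤ 2^((κ-200)*H)) (hM : M = 16 * wid H R) {A : ℕ} (hA : wid H R ≤ A)
    (hA4 : A ≤ 4 * wid H R) :
    mu p (m+1) M (⋃ r ∈ Finset.range (R+1), badR (m+1) M H r A) ≤ (2⁻¹:ℝ≥0∞)^(190*H) := by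
  refine (measure_biUnion_finset_le _ _).trans ?_
  refine (sum_scales (c := 199) hH (by norm_num) (fun r hr => ?_)).trans ?_
  · have := wid_le (H := H) hr
    exact prob_badR p hH hκ hc hm (by omega) (by omega) (by omega)
  · have := pw (a := 1) (b := 199*H) (c := 190*H) (x := 2) (by omega) (by norm_num)
    simpa using this

theorem exact_prob {Acc : List Bool → (Fin m → List Bool) → ℕ → Set (List Bool)}
    {BV : ℕ → Set (Om (m+1) M)} (V : Votes p H R m M Acc BV) (hH : 10 ≤ H) (hκ : 200 ≤ κ)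
    (hc : p ≤ (1/2)^(κ+20)) (hm : m + 1 ≤ 2^((κ-200)*H)) (hM : M = 16 * wid H R)
    {n : ℕ} (hn : n ≤ 2^(20*H)) (hnR : n + 2 * mg H ≤ wid H R) :
    mu p (m+1) M {ω | ¬ (decE (Acc (tr ω 0) (fun i : Fin m => tr ω i.succ)) (14334 * H)
        (out (ac ω 0) (3 * wid H R - mg H)) (out (ac ω 0) (3 * wid H R + n + mg H)) (n + 3 * mg H)
        (sub (bit ω) (3 * wid H R - 14334 * H) (14334 * H)) n = sub (bit ω) (3 * wid H R) n)}
      ≤ (2⁻¹:ℝ≥0∞)^(20*H) := by
  classical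
  set N0 := 3 * wid H R with hN0
  set D := n + 2 * mg H with hD
  have hmg : mg H = 2^15 * H := rfl
  have hsub : {ω : Om (m+1) M | ¬ (decE (Acc (tr ω 0) (fun i : Fin m => tr ω i.succ)) (14334 * H)
        (out (ac ω 0) (N0 - mg H)) (out (ac ω 0) (N0 + n + mg H)) (n + 3 * mg H)
        (sub (bit ω) (N0 - 14334 * H) (14334 * H)) n = sub (bit ω) N0 n)}
      ⊆ (⋃ A ∈ Finset.Ico (N0 - mg H) (N0 + n + mg H),
          (BV A ∪ ⋃ r ∈ Finset.range (R+1), badR (m+1) M H r A)) ∪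
        badK (m+1) M (14334 * H) D N0 := by
    intro ω hω
    by_contra hcon
    rw [Set.mem_union, not_or] at hcon
    obtain ⟨h1, h2⟩ := hcon
    apply hω
    apply decE_eq (R := R) (L := 16384 * H) (by omega) rfl rfl (by omega)
    · intro A hA1 hA2
      have h3 : ω ∉ BV A ∪ ⋃ r ∈ Finset.range (R+1), badR (m+1) M H r A := by
        intro h4
        apply h1
        simp only [Set.mem_iUnion]
        exact ⟨A, by rw [Finset.mem_Ico]; omega, h4⟩
      rw [Set.mem_union, not_or] at h3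
      have hf : fineAt H R ω A := by
        intro r hr h4
        apply h3.2
        simp only [Set.mem_iUnion]
        exact ⟨r, by rw [Finset.mem_range]; omega, h4⟩
      exact ⟨V.good A ω (by omega) (by omega) h3.1 hf, fineE_of hf 0⟩
    · intro a b ha hab hb heq
      exact h2 ⟨a, b, by omega, hab, by omega, heq⟩
  refine (measure_mono hsub).trans ((measure_union_le _ _).trans ?_)
  have hH2 : H ≤ 2^H := Nat.lt_two_pow_self.le
  have hmg2 : 2 * mg H ≤ 2^(16+H) := by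
    rw [hmg, pow_add]
    calc 2 * (2^15 * H) = 2^16 * H := by ring
      _ ≤ 2^16 * 2^H := Nat.mul_le_mul_left _ hH2
  have hmg3 : 2 * mg H ≤ 2^(20*H) := hmg2.trans (Nat.pow_le_pow_right (by norm_num) (by omega))
  have hDle : D ≤ 2^(20*H+1) := by rw [pow_succ]; omega
  have part1 : mu p (m+1) M (⋃ A ∈ Finset.Ico (N0 - mg H) (N0 + n + mg H),
          (BV A ∪ ⋃ r ∈ Finset.range (R+1), badR (m+1) M H r A)) ≤ (2⁻¹:ℝ≥0∞)^(20*H+1) := by
    refine (measure_biUnion_finset_le _ _).trans ?_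
    calc _ ≤ ∑ A ∈ Finset.Ico (N0 - mg H) (N0 + n + mg H), (2:ℝ≥0∞) * (2⁻¹)^(60*H) := by
          apply Finset.sum_le_sum
          intro A hA
          rw [Finset.mem_Ico] at hA
          refine (measure_union_le _ _).trans ?_
          rw [two_mul]
          apply add_le_add (V.prob A (by omega) (by omega))
          refine (prob_scales p (by omega) hκ hc hm hM (by omega) (by omega)).trans ?_
          exact pow_le_pow_right_of_le_one' (by simp) (by omega)
      _ ≤ ((D * 2 : ℕ) : ℝ≥0∞) * (2⁻¹)^(60*H) := by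
          rw [Finset.sum_const, nsmul_eq_mul, Nat.card_Ico, ← mul_assoc]
          apply mul_le_mul_left
          push_cast
          apply mul_le_mul_left
          have : N0 + n + mg H - (N0 - mg H) ≤ D := by omega
          exact_mod_cast this
      _ ≤ _ := by
          apply pw (a := 20*H+2) (by omega)
          rw [show 20*H+2 = (20*H+1)+1 by ring, pow_succ]
          omega
  have part2 : mu p (m+1) M (badK (m+1) M (14334 * H) D N0) ≤ (2⁻¹:ℝ≥0∞)^(20*H+1) := by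
    refine (prob_badK p (by omega)).trans ?_
    apply pw (a := 40*H+6) (by omega)
    calc (2 * D + 1)^2 ≤ (2^(20*H+3))^2 := by
          apply Nat.pow_le_pow_left
          have h1 : 2^(20*H+3) = 4 * 2^(20*H+1) := by
            rw [show 20*H+3 = (20*H+1)+2 by ring, pow_add]; ring
          have h2 : 1 ≤ 2^(20*H+1) := Nat.one_le_two_pow
          omega
      _ = 2^(40*H+6) := by rw [← pow_mul]; congr 1; ring
  calc _ ≤ (2⁻¹:ℝ≥0∞)^(20*H+1) + (2⁻¹:ℝ≥0∞)^(20*H+1) := add_le_add part1 part2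
    _ = (2⁻¹:ℝ≥0∞)^(20*H) := by
        rw [← mul_two, pow_succ, mul_assoc, ENNReal.inv_mul_cancel (by simp) (by simp), mul_one]

end

end W5h82.Trace
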