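import Pool.Agent.W5h82.Trace.Evt

/-!
The joint law of the string and its traces; averaging over the margins.
-/

set_option autoImplicit false

open MeasureTheory ENNReal

namespace W5h82.Trace

variable {m M : ℕ}

lemma segL_shift (S : ℕ → Bool) (a : ℕ) (l : List Act) : ∀ b,
    segL S (a+b) l = segL (fun j => S (a+j)) b l := by
  induction l with
  | nil => intro b; rfl
  | cons x l ih =>
    intro b
    rw [segL, segL, show a + b + 1 = a + (b+1) by ring, ih (b+1)]

section law
variable (p : ℝ) [hp : Fact (0 < p ∧ p < 1)]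

lemma coin_apply (b : Bool) : coin {b} = 2⁻¹ := by
  cases b <;> simp [coin]

lemma prob_bit {j : ℕ} (hj : j < M) (b : Bool) :
    mu p m M {ω | bit ω j = b} = 2⁻¹ := by
  have h1 : (mu p m M).map (Function.eval (none, (⟨j, hj⟩ : Fin M))) = cellM p :=
    (measurePreserving_eval (fun _ : Idx m M => cellM p) (none, ⟨j, hj⟩)).map_eq
  have h2 : (cellM p).map Prod.fst = coin := by
    unfold cellM
    rw [Measure.map_fst_prod, measure_univ, one_smul]
  have h3 : {ω : Om m M | bit ω j = b}
      = Function.eval (none, (⟨j, hj⟩ : Fin M)) ⁻¹' (Prod.fst ⁻¹' {b}) := by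
    ext ω
    simp [bit, hj]
  rw [h3, ← Measure.map_apply Measurable.of_discrete MeasurableSet.of_discrete, h1,
    ← Measure.map_apply Measurable.of_discrete MeasurableSet.of_discrete, h2, coin_apply]

lemma prob_bits (N0 : ℕ) (s : ℕ → Bool) (n : ℕ) (h : N0 + n ≤ M) :
    mu p m M {ω | ∀ k < n, bit ω (N0+k) = s k} = (2⁻¹:ℝ≥0∞)^n := by
  induction n with
  | zero => simp
  | succ n ih =>
    have e : {ω : Om m M | ∀ k < n+1, bit ω (N0+k) = s k}
        = {ω | ∀ k < n, bit ω (N0+k) = s k} ∩ {ω | bit ω (N0+n) = s n} := by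
      ext ω
      simp only [Set.mem_ofPred_eq, Set.mem_inter_iff]
      constructor
      · intro h'
        exact ⟨fun k hk => h' k (by omega), h' n (by omega)⟩
      · rintro ⟨h1, h2⟩ k hk
        rcases Nat.lt_succ_iff_lt_or_eq.1 hk with h' | rfl
        · exact h1 k h'
        · exact h2
    have hind := indep_events (ν := cellM p) (A := {ω : Om m M | ∀ k < n, bit ω (N0+k) = s k})
      (B := {ω : Om m M | bit ω (N0+n) = s n})
      (J := {k | k.2.val < N0 + n}) (K := {k | k.2.val = N0+n})
      (by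
        intro ω ω' h'
        simp only [Set.mem_ofPred_eq]
        apply forall₂_congr
        intro k hk
        have : bit ω (N0+k) = bit ω' (N0+k) := by
          unfold bit
          split
          · rename_i hj
            rw [h' (none, ⟨N0+k, hj⟩) (by simp only [Set.mem_ofPred_eq]; omega)]
          · rfl
        rw [this])
      (by
        intro ω ω' h'
        simp only [Set.mem_ofPred_eq]
        have : bit ω (N0+n) = bit ω' (N0+n) := by
          unfold bit
          split
          · rename_i hj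
            rw [h' (none, ⟨N0+n, hj⟩) (by simp only [Set.mem_ofPred_eq])]
          · rfl
        rw [this])
      (by
        rw [Set.disjoint_left]
        intro x hx hy
        simp only [Set.mem_ofPred_eq] at hx hy
        omega)
    have hm : (Measure.pi fun _ : Idx m M => cellM p) = mu p m M := rfl
    rw [hm] at hind
    rw [e, hind, ih (by omega), prob_bit p (by omega), pow_succ]

/-- joint law of the actions of all traces -/
lemma prob_all_acts {a n : ℕ} (h : a + n ≤ M) (G : Fin m → Set (List Act)) :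
    mu p m M {ω | ∀ i, acts (ac ω i) a n ∈ G i} = ∏ i, actL p n (G i) := by
  classical
  have hT : ∀ T : Finset (Fin m), mu p m M {ω | ∀ i ∈ T, acts (ac ω i) a n ∈ G i}
      = ∏ i ∈ T, actL p n (G i) := by
    intro T
    induction T using Finset.induction_on with
    | empty => simp
    | insert i T hi ih =>
      have e : {ω : Om m M | ∀ j ∈ insert i T, acts (ac ω j) a n ∈ G j}
          = {ω | acts (ac ω i) a n ∈ G i} ∩ {ω | ∀ j ∈ T, acts (ac ω j) a n ∈ G j} := by
        ext ω; simp
      have hind := indep_events (ν := cellM p) (A := {ω : Om m M | acts (ac ω i) a n ∈ G i})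
        (B := {ω : Om m M | ∀ j ∈ T, acts (ac ω j) a n ∈ G j})
        (J := JT m M i a n) (K := {k | ∃ j ∈ T, k ∈ JT m M j a n})
        (by intro ω ω' h'; simp only [Set.mem_ofPred_eq]; rw [acts_dep i a n ω ω' h'])
        (by
          intro ω ω' h'
          simp only [Set.mem_ofPred_eq]
          apply forall₂_congr
          intro j hj
          rw [acts_dep j a n ω ω' (fun k hk => h' k ⟨j, hj, hk⟩)])
        (by
          rw [Set.disjoint_left]
          rintro x hx ⟨j, hj, hy⟩
          exact Set.disjoint_left.1 (JT_disjoint (fun h' => hi (by rw [h']; exact hj)) a n a n) hx hy)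
      have hm : (Measure.pi fun _ : Idx m M => cellM p) = mu p m M := rfl
      rw [hm] at hind
      rw [e, hind, Finset.prod_insert hi, measure_acts p i h, ih]
  have := hT Finset.univ
  simpa using this

/-- extension of a finite string by `false` -/
def ext {n : ℕ} (s : Fin n → Bool) : ℕ → Bool := fun k => if h : k < n then s ⟨k, h⟩ else false

/-- law of the traces of a fixed string -/
lemma prob_traces {n N0 : ℕ} (h : N0 + n ≤ M) (S : ℕ → Bool) (T : Set (Fin m → List Bool)) :
    mu p m M {ω | (fun i => segL S 0 (acts (ac ω i) N0 n)) ∈ T}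
      = ∑' t : Fin m → List Bool, T.indicator
        (fun t => ∏ i, actL p n {l | segL S 0 l = t i}) t := by
  classical
  set g : Om m M → (Fin m → List Bool) := fun ω i => segL S 0 (acts (ac ω i) N0 n) with hg
  have h1 : mu p m M {ω | g ω ∈ T} = ((mu p m M).map g) T := by
    rw [Measure.map_apply Measurable.of_discrete MeasurableSet.of_discrete]; rfl
  rw [h1, ← Measure.tsum_indicator_apply_singleton _ T MeasurableSet.of_discrete]
  congr 1
  ext t
  have h2 : ((mu p m M).map g) {t} = ∏ i, actL p n {l | segL S 0 l = t i} := by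
    rw [Measure.map_apply Measurable.of_discrete MeasurableSet.of_discrete,
      ← prob_all_acts p h (fun i => {l | segL S 0 l = t i})]
    congr 1
    ext ω
    simp only [Set.mem_preimage, Set.mem_singleton_iff, Set.mem_ofPred_eq, hg]
    rw [funext_iff]
  by_cases ht : t ∈ T <;> simp [Set.indicator, ht, h2]

theorem joint_law {n N0 : ℕ} (h : N0 + n ≤ M) (F : (Fin n → Bool) → (Fin m → List Bool) → Prop) :
    mu p m M {ω | F (fun k : Fin n => bit ω (N0+k)) (fun i => seg (bit ω) (ac ω i) N0 n)}
      = ∑ s : Fin n → Bool, (2⁻¹:ℝ≥0∞)^n * ∑' t : Fin m → List Bool,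
        {t | F s t}.indicator (fun t => ∏ i, actL p n {l | segL (ext s) 0 l = t i}) t := by
  classical
  have e : {ω : Om m M | F (fun k : Fin n => bit ω (N0+k)) (fun i => seg (bit ω) (ac ω i) N0 n)}
      = ⋃ s ∈ (Finset.univ : Finset (Fin n → Bool)), ({ω | ∀ k < n, bit ω (N0+k) = ext s k} ∩
        {ω | (fun i => segL (ext s) 0 (acts (ac ω i) N0 n)) ∈ {t | F s t}}) := by
    ext ω
    simp only [Set.mem_ofPred_eq, Finset.mem_univ, Set.iUnion_true, Set.mem_iUnion,
      Set.mem_inter_iff]
    have hkey : ∀ s : Fin n → Bool, (∀ k < n, bit ω (N0+k) = ext s k) →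
        s = (fun k : Fin n => bit ω (N0+k)) ∧
        ∀ i, segL (ext s) 0 (acts (ac ω i) N0 n) = seg (bit ω) (ac ω i) N0 n := by
      intro s hs
      constructor
      · funext k
        rw [hs k.val k.isLt]
        simp [ext]
      · intro i
        unfold seg
        have := segL_shift (bit ω) N0 (acts (ac ω i) N0 n) 0
        rw [Nat.add_zero] at this
        rw [this]
        apply segL_congr
        intro j _ h2
        rw [acts_length, Nat.zero_add] at h2
        exact (hs j h2).symm
    constructor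
    · intro hF
      have hs : ∀ k < n, bit ω (N0+k) = ext (fun k : Fin n => bit ω (N0+k)) k := by
        intro k hk; simp [ext, hk]
      refine ⟨fun k : Fin n => bit ω (N0+k), hs, ?_⟩
      have h2 := (hkey _ hs).2
      simp only [h2]
      exact hF
    · rintro ⟨s, hs, hF⟩
      obtain ⟨h1, h2⟩ := hkey s hs
      simp only [h2] at hF
      rw [h1] at hF
      exact hF
  rw [e, measure_biUnion_finset]
  · apply Finset.sum_congr rfl
    intro s _
    have hind := indep_events (ν := cellM p)
      (A := {ω : Om m M | ∀ k < n, bit ω (N0+k) = ext s k})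
      (B := {ω : Om m M | (fun i => segL (ext s) 0 (acts (ac ω i) N0 n)) ∈ {t | F s t}})
      (J := {k | k.1 = none}) (K := {k | k.1 ≠ none})
      (by
        intro ω ω' h'
        simp only [Set.mem_ofPred_eq]
        apply forall₂_congr
        intro k hk
        have : bit ω (N0+k) = bit ω' (N0+k) := by
          unfold bit
          split
          · rename_i hj
            rw [h' (none, ⟨N0+k, hj⟩) (by simp)]
          · rfl
        rw [this])
      (by
        intro ω ω' h'
        simp only [Set.mem_ofPred_eq]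
        have : ∀ i, acts (ac ω i) N0 n = acts (ac ω' i) N0 n := by
          intro i
          apply acts_dep
          intro k hk
          apply h'
          simp [hk.1]
        simp only [this])
      (by
        rw [Set.disjoint_left]
        intro x hx hy
        exact hy hx)
    have hm : (Measure.pi fun _ : Idx m M => cellM p) = mu p m M := rfl
    rw [hm] at hind
    rw [hind, prob_bits p N0 (ext s) n h, prob_traces p h]
  · intro s _ s' _ hss
    rw [Function.onFun, Set.disjoint_left]
    rintro ω ⟨h1, _⟩ ⟨h2, _⟩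
    apply hss
    funext k
    have a1 := h1 k.val k.isLt
    have a2 := h2 k.val k.isLt
    rw [a1] at a2
    simpa [ext] using a2
  · intro _ _; exact MeasurableSet.of_discrete

/-- averaging over the coordinates outside `J` -/
theorem exists_fiber {ι X : Type*} [Fintype ι] [MeasurableSpace X] [Countable X]
    [DiscreteMeasurableSpace X] (ν : Measure X) [IsProbabilityMeasure ν] (J : Set ι)
    (A : Set (ι → X)) :
    ∃ ω₀, (Measure.pi fun _ : ι => ν) A ≤ (Measure.pi fun _ : ι => ν) {ω' | ov J ω₀ ω' ∈ A} := by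
  rw [← (mp_ov ν J).measure_preimage (MeasurableSet.of_discrete).nullMeasurableSet,
    Measure.prod_apply MeasurableSet.of_discrete]
  apply exists_lintegral_le
  apply ne_of_lt
  calc _ ≤ ∫⁻ _ : ι → X, 1 ∂(Measure.pi fun _ : ι => ν) := lintegral_mono (fun ω => prob_le_one)
    _ < ⊤ := by simp

end law

/-- the cells of the positions `N0, …, N0+n-1` -/
def mid (m M N0 n : ℕ) : Set (Idx m M) := {k | N0 ≤ k.2.val ∧ k.2.val < N0 + n}

lemma bit_mid {N0 n : ℕ} (ω₀ ω : Om m M) {j : ℕ} (h1 : N0 ≤ j) (h2 : j < N0 + n) :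
    bit (ov (mid m M N0 n) ω₀ ω) j = bit ω j := by
  unfold bit
  split
  · rw [ov_mem]; exact ⟨h1, h2⟩
  · rfl

lemma bit_out {N0 n : ℕ} (ω₀ ω : Om m M) {j : ℕ} (h : j < N0 ∨ N0 + n ≤ j) :
    bit (ov (mid m M N0 n) ω₀ ω) j = bit ω₀ j := by
  unfold bit
  split
  · rw [ov_not_mem]
    rintro ⟨h1, h2⟩
    simp only at h1 h2
    omega
  · rfl

lemma ac_mid {N0 n : ℕ} (ω₀ ω : Om m M) (i : Fin m) {j : ℕ} (h1 : N0 ≤ j) (h2 : j < N0 + n) :
    ac (ov (mid m M N0 n) ω₀ ω) i j = ac ω i j := by
  unfold ac
  split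
  · rw [ov_mem]; exact ⟨h1, h2⟩
  · rfl

lemma ac_out {N0 n : ℕ} (ω₀ ω : Om m M) (i : Fin m) {j : ℕ} (h : j < N0 ∨ N0 + n ≤ j) :
    ac (ov (mid m M N0 n) ω₀ ω) i j = ac ω₀ i j := by
  unfold ac
  split
  · rw [ov_not_mem]
    rintro ⟨h1, h2⟩
    simp only at h1 h2
    omega
  · rfl

/-- decomposition of a trace of the extended string -/
lemma tr_ov {N0 n : ℕ} (hM : N0 + n ≤ M) (ω₀ ω : Om m M) (i : Fin m) :
    seg (bit (ov (mid m M N0 n) ω₀ ω)) (ac (ov (mid m M N0 n) ω₀ ω) i) 0 M
      = seg (bit ω₀) (ac ω₀ i) 0 N0 ++ seg (bit ω) (ac ω i) N0 n ++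
        seg (bit ω₀) (ac ω₀ i) (N0+n) (M - N0 - n) := by
  have h3 := seg_add (bit (ov (mid m M N0 n) ω₀ ω)) (ac (ov (mid m M N0 n) ω₀ ω) i) 0 N0 n
  have h4 := seg_add (bit (ov (mid m M N0 n) ω₀ ω)) (ac (ov (mid m M N0 n) ω₀ ω) i) 0 (N0 + n)
    (M - N0 - n)
  rw [Nat.zero_add] at h3 h4
  rw [show N0 + n + (M - N0 - n) = M by omega] at h4
  rw [h4, h3]
  congr 1
  · congr 1
    · exact seg_congr (fun j _ h2 => bit_out ω₀ ω (Or.inl (by omega)))
        (fun j _ h2 => ac_out ω₀ ω i (Or.inl (by omega)))
    · exact seg_congr (fun j h1 h2 => bit_mid ω₀ ω h1 h2) (fun j h1 h2 => ac_mid ω₀ ω i h1 h2)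
  · exact seg_congr (fun j h1 _ => bit_out ω₀ ω (Or.inr h1))
      (fun j h1 _ => ac_out ω₀ ω i (Or.inr h1))

lemma out_ov_pre {N0 n a : ℕ} (ω₀ ω : Om m M) (i : Fin m) (ha : a ≤ N0) :
    out (ac (ov (mid m M N0 n) ω₀ ω) i) a = out (ac ω₀ i) a := by
  unfold out
  rw [acts_congr (fun j _ h2 => ac_out ω₀ ω i (Or.inl (by omega)))]

lemma out_ov_mid {N0 n : ℕ} (ω₀ ω : Om m M) (i : Fin m) :
    out (ac (ov (mid m M N0 n) ω₀ ω) i) (N0 + n)
      = out (ac ω₀ i) N0 + (seg (bit ω) (ac ω i) N0 n).length := by
  rw [out_add, out_ov_pre ω₀ ω i le_rfl, seg_length,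
    acts_congr (fun j h1 h2 => ac_mid ω₀ ω i h1 h2)]

lemma out_ov_post {N0 n b : ℕ} (ω₀ ω : Om m M) (i : Fin m) :
    out (ac (ov (mid m M N0 n) ω₀ ω) i) (N0 + n + b)
      = out (ac ω₀ i) N0 + (seg (bit ω) (ac ω i) N0 n).length
        + ((acts (ac ω₀ i) (N0+n) b).map plen).sum := by
  rw [out_add, out_ov_mid, acts_congr (fun j h1 _ => ac_out ω₀ ω i (Or.inr h1))]

end W5h82.Trace
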