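import Pool.Agent.W5h82.Trace.VotesI
import Pool.Agent.W5h82.Trace.Joint

/-!
Existence of good decoders.
-/

set_option autoImplicit false

open MeasureTheory ENNReal

namespace W5h82.Trace

section transfer
variable (p : ℝ) [hp : Fact (0 < p ∧ p < 1)] {m M n N0 : ℕ}

theorem transfer (Dec : Om m M → (Fin m → List Bool) → List Bool)
    (ok : List Bool → List Bool → Prop) (Fail : Set (Om m M)) {q : ℝ}
    (hF : (mu p m M).real Fail ≤ q)
    (h : ∀ ω₀ ω', ov (mid m M N0 n) ω₀ ω' ∉ Fail →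
      ok (sub (bit ω') N0 n) (Dec ω₀ (fun i => seg (bit ω') (ac ω' i) N0 n))) :
    ∃ D : (Fin m → List Bool) → List Bool, 1 - q ≤ (mu p m M).real
      {ω' | ok (sub (bit ω') N0 n) (D (fun i => seg (bit ω') (ac ω' i) N0 n))} := by
  obtain ⟨ω₀, hω₀⟩ := exists_fiber (cellM p) (mid m M N0 n) Failᶜ
  refine ⟨Dec ω₀, ?_⟩
  have hm : (Measure.pi fun _ : Idx m M => cellM p) = mu p m M := rfl
  rw [hm] at hω₀
  have h1 : (mu p m M).real Failᶜ = 1 - (mu p m M).real Fail := by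
    rw [measureReal_compl MeasurableSet.of_discrete]; simp
  have h2 : (mu p m M).real Failᶜ ≤ (mu p m M).real
      {ω' | ov (mid m M N0 n) ω₀ ω' ∈ Failᶜ} := by
    rw [measureReal_def, measureReal_def]
    exact ENNReal.toReal_mono (measure_ne_top _ _) hω₀
  have h3 : (mu p m M).real {ω' | ov (mid m M N0 n) ω₀ ω' ∈ Failᶜ} ≤ (mu p m M).real
      {ω' | ok (sub (bit ω') N0 n) (Dec ω₀ (fun i => seg (bit ω') (ac ω' i) N0 n))} :=
    measureReal_mono (fun ω' hω' => h ω₀ ω' hω') (measure_ne_top _ _)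
  linarith

end transfer

section decoder
variable (p : ℝ) [hp : Fact (0 < p ∧ p < 1)] {κ H m : ℕ}

/-- padding of the traces by the known outputs of the margins -/
def pad {m M : ℕ} (ω₀ : Om m M) (N0 n : ℕ) (t : Fin m → List Bool) (i : Fin m) : List Bool :=
  seg (bit ω₀) (ac ω₀ i) 0 N0 ++ t i ++ seg (bit ω₀) (ac ω₀ i) (N0+n) (M - N0 - n)

lemma pad_eq {m M N0 n : ℕ} (hM : N0 + n ≤ M) (ω₀ ω' : Om m M) (i : Fin m) :
    pad ω₀ N0 n (fun i => seg (bit ω') (ac ω' i) N0 n) i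
      = seg (bit (ov (mid m M N0 n) ω₀ ω')) (ac (ov (mid m M N0 n) ω₀ ω') i) 0 M :=
  (tr_ov hM ω₀ ω' i).symm

/-- the padded string agrees with the string in the middle -/
lemma sub_mid {m M N0 n : ℕ} (ω₀ ω' : Om m M) :
    sub (bit (ov (mid m M N0 n) ω₀ ω')) N0 n = sub (bit ω') N0 n :=
  sub_congr (fun _ h1 h2 => bit_mid ω₀ ω' h1 h2)

lemma exists_decoder (hH : 10 ≤ H) (hκ : 200 ≤ κ) (hc : p ≤ (1/2)^(κ+20))
    (hm : m + 1 ≤ 2^((κ-200)*H)) (n : ℕ) (hn : 1 ≤ n)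
    (hV : ∀ R M, M = 16 * wid H R → H ≤ R →
      ∃ (Acc : List Bool → (Fin m → List Bool) → ℕ → Set (List Bool))
        (BV : ℕ → Set (Om (m+1) M)), Votes p H R m M Acc BV) :
    ∃ (M N0 : ℕ) (_ : N0 + n ≤ M) (D : (Fin (m+1) → List Bool) → List Bool),
      1 - 1/(n:ℝ) ≤ (mu p (m+1) M).real
        {ω' | ∃ k : ℕ, (k:ℝ) ≤ n * (1/2)^H ∧ Ind k (sub (bit ω') N0 n)
          (D (fun i => seg (bit ω') (ac ω' i) N0 n))} := by
  classical
  set R := n + 3 * H + 10 with hR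
  set M := 16 * wid H R with hM
  set N0 := 3 * wid H R with hN0
  obtain ⟨Acc, BV, V⟩ := hV R M hM (by omega)
  have hmg : mg H = 2^15 * H := rfl
  have hn' : (0:ℝ) < n := by exact_mod_cast hn
  have hwR : n + 2 * mg H ≤ wid H R := by
    have h1 : n + 1 ≤ 2^n := Nat.lt_two_pow_self
    have h2 : 2^n * 2^10 ≤ 2^R := by
      rw [← pow_add]; exact Nat.pow_le_pow_right (by norm_num) (by omega)
    have h3 : wid H R = 4096 * (2^R * H) := rfl
    have h4 : (n+1) * 2^10 * H ≤ 2^R * H :=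
      Nat.mul_le_mul_right _ ((Nat.mul_le_mul_right _ h1).trans h2)
    have h5 : 4096 * ((n+1) * 2^10 * H) = 2^22 * (n * H) + 2^22 * H := by ring
    have h6 : n ≤ n * H := Nat.le_mul_of_pos_right n (by omega)
    omega
  have hNM : N0 + n ≤ M := by omega
  refine ⟨M, N0, hNM, ?_⟩
  rcases lt_or_ge n (2^(20*H)) with hsmall | hlarge
  · -- short strings
    have hP := exact_prob p V hH hκ hc hm hM (n := n) hsmall.le hwR
    set Fail : Set (Om (m+1) M) := {ω | ¬ (decE (Acc (tr ω 0) (fun i : Fin m => tr ω i.succ))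
        (14334 * H) (out (ac ω 0) (N0 - mg H)) (out (ac ω 0) (N0 + n + mg H)) (n + 3 * mg H)
        (sub (bit ω) (N0 - 14334 * H) (14334 * H)) n = sub (bit ω) N0 n)} with hFail
    have hq : (mu p (m+1) M).real Fail ≤ 1/(n:ℝ) := by
      have h1 : (mu p (m+1) M).real Fail ≤ (1/2)^(20*H) := by
        rw [measureReal_def]
        have h2 : ((2⁻¹:ℝ≥0∞)^(20*H)).toReal = (1/2)^(20*H) := by
          rw [ENNReal.toReal_pow]; simp
        rw [← h2]
        exact ENNReal.toReal_mono (by simp) hP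
      refine h1.trans ?_
      rw [one_div_pow]
      apply one_div_le_one_div_of_le hn'
      exact_mod_cast hsmall.le
    apply transfer p (fun ω₀ t => decE (Acc (pad ω₀ N0 n t 0) (fun i : Fin m => pad ω₀ N0 n t i.succ))
        (14334 * H) (out (ac ω₀ 0) (N0 - mg H))
        (out (ac ω₀ 0) N0 + (t 0).length + ((acts (ac ω₀ 0) (N0+n) (mg H)).map plen).sum)
        (n + 3 * mg H) (sub (bit ω₀) (N0 - 14334 * H) (14334 * H)) n)
      (fun s z => ∃ k : ℕ, (k:ℝ) ≤ n * (1/2)^H ∧ Ind k s z) Fail hq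
    intro ω₀ ω' hω
    simp only [hFail, Set.mem_ofPred_eq, not_not] at hω
    refine ⟨0, by rw [Nat.cast_zero]; positivity, ?_⟩
    have e1 : ∀ i, pad ω₀ N0 n (fun i => seg (bit ω') (ac ω' i) N0 n) i
        = tr (ov (mid (m+1) M N0 n) ω₀ ω') i := fun i => pad_eq hNM ω₀ ω' i
    have e2 : out (ac (ov (mid (m+1) M N0 n) ω₀ ω') 0) (N0 - mg H) = out (ac ω₀ 0) (N0 - mg H) :=
      out_ov_pre ω₀ ω' 0 (by omega)
    have e3 := out_ov_post (N0 := N0) (n := n) (b := mg H) ω₀ ω' 0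
    have e4 : sub (bit (ov (mid (m+1) M N0 n) ω₀ ω')) (N0 - 14334 * H) (14334 * H)
        = sub (bit ω₀) (N0 - 14334 * H) (14334 * H) :=
      sub_congr (fun j _ h2 => bit_out ω₀ ω' (Or.inl (by omega)))
    have e5 := sub_mid (N0 := N0) (n := n) ω₀ ω'
    rw [e2, e3, e4, e5] at hω
    simp only [e1]
    rw [hω]
    exact Ind.refl _
  · -- long strings
    have hP := approx_prob p V hH hκ hc hm hM (n := n) hlarge (by omega) (by omega) (by omega)
    set Fail : Set (Om (m+1) M) := {ω | ¬ ∃ k : ℕ, (k:ℝ) ≤ n * (1/2)^H ∧ Ind k (sub (bit ω) N0 n)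
        (decA (Acc (tr ω 0) (fun i : Fin m => tr ω i.succ)) (14334 * H)
        (out (ac ω 0) N0) (out (ac ω 0) (N0 + n)) (wid H (3*H)))} with hFail
    apply transfer p (fun ω₀ t => decA (Acc (pad ω₀ N0 n t 0) (fun i : Fin m => pad ω₀ N0 n t i.succ))
        (14334 * H) (out (ac ω₀ 0) N0) (out (ac ω₀ 0) N0 + (t 0).length) (wid H (3*H)))
      (fun s z => ∃ k : ℕ, (k:ℝ) ≤ n * (1/2)^H ∧ Ind k s z) Fail hP
    intro ω₀ ω' hω
    simp only [hFail, Set.mem_ofPred_eq, not_not] at hω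
    have e1 : ∀ i, pad ω₀ N0 n (fun i => seg (bit ω') (ac ω' i) N0 n) i
        = tr (ov (mid (m+1) M N0 n) ω₀ ω') i := fun i => pad_eq hNM ω₀ ω' i
    have e2 : out (ac (ov (mid (m+1) M N0 n) ω₀ ω') 0) N0 = out (ac ω₀ 0) N0 :=
      out_ov_pre ω₀ ω' 0 le_rfl
    have e3 := out_ov_mid (N0 := N0) (n := n) ω₀ ω' 0
    have e5 := sub_mid (N0 := N0) (n := n) ω₀ ω'
    rw [e2, e3, e5] at hω
    simp only [e1]
    exact hω

end decoder

end W5h82.Trace
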