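import Pool.Agent.W5h82.Trace.ActM

/-!
Strong Markov property of the channel and the approximate inverse of the channel.
-/

set_option autoImplicit false

open MeasureTheory ENNReal

namespace W5h82.Trace

/-- Outputs together with the pointer after each output. -/
def emL (S : ℕ → Bool) : ℕ → List Act → List (Bool × ℕ)
  | _, [] => []
  | a, x :: l => x.1.map (fun b => (b, a)) ++ ((if x.2 then [(S a, a+1)] else []) ++ emL S (a+1) l)

lemma emL_fst (S : ℕ → Bool) (a : ℕ) (l : List Act) : (emL S a l).map Prod.fst = segL S a l := by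
  induction l generalizing a with
  | nil => simp [emL, segL]
  | cons x l ih =>
    rw [emL, segL, List.map_append, List.map_append, ih, List.map_map]
    unfold piece
    rw [List.append_assoc]
    congr 1
    · simp [Function.comp_def]
    · congr 1
      split <;> simp

section
variable (p : ℝ) [hp : Fact (0 < p ∧ p < 1)] (S : ℕ → Bool)

/-- expectation of a function of the outputs with pointers -/
noncomputable def EE (a n : ℕ) (H : List (Bool × ℕ) → ℝ) : ℝ := ∫ l, H (emL S a l) ∂(actL p n)

/-- expectation of a function of the output -/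
noncomputable def RR (a n : ℕ) (g : List Bool → ℝ) : ℝ := ∫ l, g (segL S a l) ∂(actL p n)

lemma RR_eq (a n : ℕ) (g : List Bool → ℝ) :
    RR p S a n g = EE p S a n (fun e => g (e.map Prod.fst)) := by
  unfold RR EE
  simp only [emL_fst]

variable {S}

lemma EE_zero (a : ℕ) (H : List (Bool × ℕ) → ℝ) : EE p S a 0 H = H [] := by
  unfold EE actL
  rw [integral_dirac]
  simp [emL]

lemma EE_abs_le (a n : ℕ) (H : List (Bool × ℕ) → ℝ) (C : ℝ) (hH : ∀ e, |H e| ≤ C) :
    |EE p S a n H| ≤ C := by
  unfold EE
  have h := norm_integral_le_of_norm_le_const (μ := actL p n) (f := fun l => H (emL S a l)) (C := C)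
    (Filter.Eventually.of_forall (fun l => by rw [Real.norm_eq_abs]; exact hH _))
  simpa using h

lemma EE_step (a n : ℕ) (H : List (Bool × ℕ) → ℝ) (C : ℝ) (hH : ∀ e, |H e| ≤ C) :
    EE p S a (n+1) H = (1-p) * EE p S (a+1) n (fun e => H ((S a, a+1) :: e))
      + (p/2) * EE p S (a+1) n H
      + (p/4) * (EE p S a (n+1) (fun e => H ((true, a) :: e))
        + EE p S a (n+1) (fun e => H ((false, a) :: e))) := by
  have hC : 0 ≤ C := le_trans (abs_nonneg _) (hH [])
  have hb : ∀ G : List (Bool × ℕ) → ℝ, (∀ e, |G e| ≤ C) → ∀ x : Act,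
      |∫ l, G (emL S a (x :: l)) ∂(actL p n)| ≤ C := by
    intro G hG x
    have h := norm_integral_le_of_norm_le_const (μ := actL p n)
      (f := fun l => G (emL S a (x :: l))) (C := C)
      (Filter.Eventually.of_forall (fun l => by rw [Real.norm_eq_abs]; exact hG _))
    simpa using h
  unfold EE
  rw [integral_actL_succ p n (fun l => H (emL S a l)) C (fun _ => hH _),
    integral_act_step p (fun x => ∫ l, H (emL S a (x :: l)) ∂(actL p n)) C (hb H hH),
    integral_actL_succ p n (fun l => H ((true, a) :: emL S a l)) C (fun _ => hH _),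
    integral_actL_succ p n (fun l => H ((false, a) :: emL S a l)) C (fun _ => hH _)]
  simp [emL]

lemma EE_sub (a n : ℕ) (H G : List (Bool × ℕ) → ℝ) (C : ℝ) (hH : ∀ e, |H e| ≤ C)
    (hG : ∀ e, |G e| ≤ C) :
    EE p S a n (fun e => H e - G e) = EE p S a n H - EE p S a n G := by
  unfold EE
  exact integral_sub (integrable_bdd C (fun _ => hH _)) (integrable_bdd C (fun _ => hG _))

lemma EE_const (a n : ℕ) (c : ℝ) : EE p S a n (fun _ => c) = c := by
  unfold EE; simp

end

/-! ### stopping -/

open Classical in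
/-- value of `g` on the rest of the output at the first time when the history satisfies `Φ`. -/
noncomputable def stopG (Φ : List Bool → Prop) (g : List Bool → ℝ) :
    List Bool → List (Bool × ℕ) → ℝ
  | h, [] => if Φ h then g [] else 0
  | h, (b, q) :: e => if Φ h then g (((b, q) :: e).map Prod.fst) else stopG Φ g (h ++ [b]) e

open Classical in
/-- value of `f` at the pointer at the first time when the history satisfies `Φ`. -/
noncomputable def stopP (Φ : List Bool → Prop) (f : ℕ → ℝ) :
    List Bool → ℕ → List (Bool × ℕ) → ℝ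
  | h, cur, [] => if Φ h then f cur else 0
  | h, cur, (b, q) :: e => if Φ h then f cur else stopP Φ f (h ++ [b]) q e

/-- the continuation after a history which does not satisfy `Φ` -/
noncomputable def nxtG (Φ : List Bool → Prop) (g : List Bool → ℝ) (h : List Bool) :
    List (Bool × ℕ) → ℝ
  | [] => 0
  | (b, _) :: e => stopG Φ g (h ++ [b]) e

noncomputable def nxtP (Φ : List Bool → Prop) (f : ℕ → ℝ) (h : List Bool) :
    List (Bool × ℕ) → ℝ
  | [] => 0
  | (b, q) :: e => stopP Φ f (h ++ [b]) q e

variable {Φ : List Bool → Prop} {g : List Bool → ℝ} {f : ℕ → ℝ}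

lemma stopG_pos {h : List Bool} (hh : Φ h) (e : List (Bool × ℕ)) :
    stopG Φ g h e = g (e.map Prod.fst) := by
  cases e with
  | nil => simp [stopG, hh]
  | cons x e => obtain ⟨b, q⟩ := x; simp [stopG, hh]

lemma stopG_neg {h : List Bool} (hh : ¬ Φ h) (e : List (Bool × ℕ)) :
    stopG Φ g h e = nxtG Φ g h e := by
  cases e with
  | nil => simp [stopG, nxtG, hh]
  | cons x e => obtain ⟨b, q⟩ := x; simp [stopG, nxtG, hh]

lemma stopP_pos {h : List Bool} (hh : Φ h) (cur : ℕ) (e : List (Bool × ℕ)) :
    stopP Φ f h cur e = f cur := by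
  cases e with
  | nil => simp [stopP, hh]
  | cons x e => obtain ⟨b, q⟩ := x; simp [stopP, hh]

lemma stopP_neg {h : List Bool} (hh : ¬ Φ h) (cur : ℕ) (e : List (Bool × ℕ)) :
    stopP Φ f h cur e = nxtP Φ f h e := by
  cases e with
  | nil => simp [stopP, nxtP, hh]
  | cons x e => obtain ⟨b, q⟩ := x; simp [stopP, nxtP, hh]

lemma stopG_abs_le {C : ℝ} (hg : ∀ y, |g y| ≤ C) (e : List (Bool × ℕ)) : ∀ h : List Bool,
    |stopG Φ g h e| ≤ C := by
  have hC : 0 ≤ C := le_trans (abs_nonneg _) (hg [])
  induction e with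
  | nil =>
    intro h
    unfold stopG
    split
    · exact hg _
    · simpa using hC
  | cons x e ih =>
    intro h
    obtain ⟨b, q⟩ := x
    unfold stopG
    split
    · exact hg _
    · exact ih _

lemma stopP_abs_le {C : ℝ} (hf : ∀ y, |f y| ≤ C) (e : List (Bool × ℕ)) : ∀ (h : List Bool) (cur : ℕ),
    |stopP Φ f h cur e| ≤ C := by
  have hC : 0 ≤ C := le_trans (abs_nonneg _) (hf 0)
  induction e with
  | nil =>
    intro h cur
    unfold stopP
    split
    · exact hf _
    · simpa using hC
  | cons x e ih =>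
    intro h cur
    obtain ⟨b, q⟩ := x
    unfold stopP
    split
    · exact hf _
    · exact ih _ _

lemma nxtG_abs_le {C : ℝ} (hg : ∀ y, |g y| ≤ C) (h : List Bool) (e : List (Bool × ℕ)) :
    |nxtG Φ g h e| ≤ C := by
  have hC : 0 ≤ C := le_trans (abs_nonneg _) (hg [])
  cases e with
  | nil => simpa [nxtG] using hC
  | cons x e => exact stopG_abs_le hg _ _

lemma nxtP_abs_le {C : ℝ} (hf : ∀ y, |f y| ≤ C) (h : List Bool) (e : List (Bool × ℕ)) :
    |nxtP Φ f h e| ≤ C := by
  have hC : 0 ≤ C := le_trans (abs_nonneg _) (hf 0)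
  cases e with
  | nil => simpa [nxtP] using hC
  | cons x e => exact stopP_abs_le hf _ _ _

section
variable (p : ℝ) [hp : Fact (0 < p ∧ p < 1)] {S : ℕ → Bool}

/-- Strong Markov property. -/
theorem markov {M : ℕ} {C : ℝ} (hg : ∀ y, |g y| ≤ C)
    (hf : ∀ cur ≤ M, f cur = RR p S cur (M - cur) g) (hf' : ∀ y, |f y| ≤ C) :
    ∀ n a, a + n = M →
      (∀ h, EE p S a n (stopG Φ g h) = EE p S a n (stopP Φ f h a)) ∧
      (∀ h, EE p S a n (nxtG Φ g h) = EE p S a n (nxtP Φ f h)) := by
  have hC : 0 ≤ C := le_trans (abs_nonneg _) (hg [])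
  intro n
  induction n with
  | zero =>
    intro a ha
    constructor
    · intro h
      rw [EE_zero, EE_zero]
      by_cases hh : Φ h
      · rw [stopG_pos hh, stopP_pos hh, hf a (by omega), RR_eq, show M - a = 0 by omega, EE_zero]
      · rw [stopG_neg hh, stopP_neg hh]; rfl
    · intro h
      rw [EE_zero, EE_zero]; rfl
  | succ n ih =>
    intro a ha
    obtain ⟨ih1, ih2⟩ := ih (a+1) (by omega)
    -- the difference
    have key : ∀ h, EE p S a (n+1) (nxtG Φ g h) - EE p S a (n+1) (nxtP Φ f h)
        = (p/4) * ((EE p S a (n+1) (stopG Φ g (h ++ [true]))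
            - EE p S a (n+1) (stopP Φ f (h ++ [true]) a))
          + (EE p S a (n+1) (stopG Φ g (h ++ [false]))
            - EE p S a (n+1) (stopP Φ f (h ++ [false]) a))) := by
      intro h
      rw [EE_step p a n (nxtG Φ g h) C (nxtG_abs_le hg h),
        EE_step p a n (nxtP Φ f h) C (nxtP_abs_le hf' h), ih2 h]
      have e1 : EE p S (a+1) n (fun e => nxtG Φ g h ((S a, a+1) :: e))
          = EE p S (a+1) n (fun e => nxtP Φ f h ((S a, a+1) :: e)) := ih1 (h ++ [S a])
      rw [e1]
      simp only [nxtG, nxtP]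
      ring
    have stop_diff : ∀ h, EE p S a (n+1) (stopG Φ g h) - EE p S a (n+1) (stopP Φ f h a)
        = 0 ∨ EE p S a (n+1) (stopG Φ g h) - EE p S a (n+1) (stopP Φ f h a)
        = EE p S a (n+1) (nxtG Φ g h) - EE p S a (n+1) (nxtP Φ f h) := by
      intro h
      by_cases hh : Φ h
      · left
        have e1 : stopG Φ g h = fun e => g (e.map Prod.fst) := by
          funext e; exact stopG_pos hh e
        have e2 : stopP Φ f h a = fun _ => f a := by
          funext e; exact stopP_pos hh a e
        rw [e1, e2, EE_const, hf a (by omega), RR_eq, show M - a = n + 1 by omega, sub_self]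
      · right
        have e1 : stopG Φ g h = nxtG Φ g h := by
          funext e; exact stopG_neg hh e
        have e2 : stopP Φ f h a = nxtP Φ f h := by
          funext e; exact stopP_neg hh a e
        rw [e1, e2]
    have bound : ∀ k : ℕ, ∀ h, |EE p S a (n+1) (nxtG Φ g h) - EE p S a (n+1) (nxtP Φ f h)|
        ≤ (p/2)^k * (2*C) := by
      obtain ⟨h0, h1⟩ := hp.out
      intro k
      induction k with
      | zero =>
        intro h
        have a1 := EE_abs_le p a (n+1) (S := S) (nxtG Φ g h) C (nxtG_abs_le hg h)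
        have a2 := EE_abs_le p a (n+1) (S := S) (nxtP Φ f h) C (nxtP_abs_le hf' h)
        rw [pow_zero, one_mul]
        calc _ ≤ |EE p S a (n+1) (nxtG Φ g h)| + |EE p S a (n+1) (nxtP Φ f h)| := abs_sub _ _
          _ ≤ _ := by linarith
      | succ k ihk =>
        intro h
        rw [key h]
        have st : ∀ h, |EE p S a (n+1) (stopG Φ g h) - EE p S a (n+1) (stopP Φ f h a)|
            ≤ (p/2)^k * (2*C) := by
          intro h
          rcases stop_diff h with h' | h'
          · rw [h', abs_zero]; positivity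
          · rw [h']; exact ihk h
        rw [abs_mul, abs_of_pos (by positivity)]
        calc _ ≤ (p/4) * ((p/2)^k * (2*C) + (p/2)^k * (2*C)) := by
              apply mul_le_mul_of_nonneg_left _ (by positivity)
              exact (abs_add_le _ _).trans (add_le_add (st _) (st _))
          _ = _ := by ring
    have zero : ∀ h, EE p S a (n+1) (nxtG Φ g h) - EE p S a (n+1) (nxtP Φ f h) = 0 := by
      obtain ⟨h0, h1⟩ := hp.out
      intro h
      by_contra hne
      have hpos : 0 < |EE p S a (n+1) (nxtG Φ g h) - EE p S a (n+1) (nxtP Φ f h)| :=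
        abs_pos.2 hne
      have hlim : Filter.Tendsto (fun k : ℕ => (p/2)^k * (2*C)) Filter.atTop (nhds 0) := by
        have := (tendsto_pow_atTop_nhds_zero_of_lt_one (r := p/2) (by positivity)
          (by linarith)).mul_const (2*C)
        simpa using this
      have := ge_of_tendsto' hlim (fun k => bound k h)
      linarith
    constructor
    · intro h
      rcases stop_diff h with h' | h'
      · linarith
      · have := zero h; linarith
    · intro h
      have := zero h; linarith

/-! ### the approximate inverse -/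

lemma RR_abs_le (a n : ℕ) (g : List Bool → ℝ) (C : ℝ) (hg : ∀ y, |g y| ≤ C) :
    |RR p S a n g| ≤ C := by
  rw [RR_eq]
  exact EE_abs_le p a n _ C (fun _ => hg _)

lemma RR_step (a n : ℕ) (g : List Bool → ℝ) (C : ℝ) (hg : ∀ y, |g y| ≤ C) :
    RR p S a (n+1) g = (1-p) * RR p S (a+1) n (fun y => g (S a :: y))
      + (p/2) * RR p S (a+1) n g
      + (p/4) * (RR p S a (n+1) (fun y => g (true :: y))
        + RR p S a (n+1) (fun y => g (false :: y))) := by
  simp only [RR_eq]
  rw [EE_step p a n _ C (fun _ => hg _)]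
  simp

lemma RR_add (a n : ℕ) (g h : List Bool → ℝ) (C : ℝ) (hg : ∀ y, |g y| ≤ C) (hh : ∀ y, |h y| ≤ C) :
    RR p S a n (fun y => g y + h y) = RR p S a n g + RR p S a n h := by
  unfold RR
  exact integral_add (integrable_bdd C (fun _ => hg _)) (integrable_bdd C (fun _ => hh _))

lemma RR_mul (a n : ℕ) (g : List Bool → ℝ) (c : ℝ) :
    RR p S a n (fun y => c * g y) = c * RR p S a n g := by
  unfold RR
  exact integral_const_mul c _

/-- truncated tail operator -/
noncomputable def Tn (p : ℝ) : ℕ → (List Bool → ℝ) → (List Bool → ℝ)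
  | 0, _ => fun _ => 0
  | I+1, g => fun y => (1/(1-p)) * (g y.tail + (-(p/2)) * g y)
      + (-((p/2)/(1-p))) * Tn p I (fun y => g y.tail) y

lemma Tn_succ (p : ℝ) (I : ℕ) (g : List Bool → ℝ) :
    Tn p (I+1) g = fun y => (1/(1-p)) * (g y.tail + (-(p/2)) * g y)
      + (-((p/2)/(1-p))) * Tn p I (fun y => g y.tail) y := rfl

lemma Tn_abs_le {p : ℝ} (h0 : 0 < p) (h1 : p ≤ 1/4) (I : ℕ) : ∀ (g : List Bool → ℝ) (C : ℝ),
    (∀ y, |g y| ≤ C) → ∀ y, |Tn p I g y| ≤ 2 * C := by
  induction I with
  | zero =>
    intro g C hg y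
    have hC : 0 ≤ C := le_trans (abs_nonneg _) (hg [])
    simp [Tn, hC]
  | succ I ih =>
    intro g C hg y
    have hC : 0 ≤ C := le_trans (abs_nonneg _) (hg [])
    rw [Tn_succ]
    have a1 := hg y.tail
    have a2 := hg y
    have a3 := ih (fun y => g y.tail) C (fun _ => hg _) y
    have hp1 : 0 < 1 - p := by linarith
    have b1 : 1/(1-p) ≤ 4/3 := by
      rw [div_le_div_iff₀ hp1 (by norm_num)]; linarith
    have b1' : 0 < 1/(1-p) := by positivity
    have b2 : (p/2)/(1-p) ≤ 1/6 := by
      rw [div_le_div_iff₀ hp1 (by norm_num)]; linarith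
    have b2' : 0 < (p/2)/(1-p) := by positivity
    have c1 : |g y.tail + -(p/2) * g y| ≤ C + (1/8) * C := by
      refine (abs_add_le _ _).trans (add_le_add a1 ?_)
      rw [abs_mul, abs_neg, abs_of_pos (by positivity)]
      exact mul_le_mul (by linarith) a2 (abs_nonneg _) (by norm_num)
    calc _ ≤ |1/(1-p) * (g y.tail + -(p/2) * g y)|
          + |-((p/2)/(1-p)) * Tn p I (fun y => g y.tail) y| := abs_add_le _ _
      _ ≤ (4/3) * (C + (1/8)*C) + (1/6) * (2*C) := by
          apply add_le_add
          · rw [abs_mul, abs_of_pos b1']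
            exact mul_le_mul b1 c1 (abs_nonneg _) (by norm_num)
          · rw [abs_mul, abs_neg, abs_of_pos b2']
            exact mul_le_mul b2 a3 (abs_nonneg _) (by norm_num)
      _ ≤ 2 * C := by linarith

lemma RR_Tn (h1 : p ≤ 1/4) (I : ℕ) : ∀ (g : List Bool → ℝ) (C : ℝ),
    (∀ y, |g y| ≤ C) → ∀ a n, |RR p S a (n+1) (Tn p I g) - RR p S (a+1) n g|
      ≤ ((p/2)/(1-p))^I * C := by
  obtain ⟨h0, _⟩ := hp.out
  have hp1 : 0 < 1 - p := by linarith
  induction I with
  | zero =>
    intro g C hg a n
    have : RR p S a (n+1) (Tn p 0 g) = 0 := by simp [RR, Tn]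
    rw [this, pow_zero, one_mul, zero_sub, abs_neg]
    exact RR_abs_le p _ _ g C hg
  | succ I ih =>
    intro g C hg a n
    have hC : 0 ≤ C := le_trans (abs_nonneg _) (hg [])
    have hgt : ∀ y : List Bool, |g y.tail| ≤ C := fun _ => hg _
    have hT := Tn_abs_le h0 h1 I (fun y => g y.tail) C hgt
    have e1 : RR p S a (n+1) (Tn p (I+1) g)
        = (1/(1-p)) * (RR p S a (n+1) (fun y => g y.tail) + (-(p/2)) * RR p S a (n+1) g)
          + (-((p/2)/(1-p))) * RR p S a (n+1) (Tn p I (fun y => g y.tail)) := by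
      have b1 : ∀ y : List Bool, |(-(p/2)) * g y| ≤ C := by
        intro y
        rw [abs_mul, abs_neg, abs_of_pos (by positivity)]
        calc (p/2) * |g y| ≤ 1 * C := mul_le_mul (by linarith) (hg y) (abs_nonneg _) (by norm_num)
          _ = C := one_mul _
      have b2 : ∀ y : List Bool, |(1/(1-p)) * (g y.tail + (-(p/2)) * g y)| ≤ (1/(1-p)) * (2*C) := by
        intro y
        rw [abs_mul, abs_of_pos (by positivity)]
        apply mul_le_mul_of_nonneg_left _ (by positivity)
        exact (abs_add_le _ _).trans (by linarith [hgt y, b1 y])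
      have b3 : ∀ y : List Bool, |(-((p/2)/(1-p))) * Tn p I (fun y => g y.tail) y|
          ≤ ((p/2)/(1-p)) * (2*C) := by
        intro y
        rw [abs_mul, abs_neg, abs_of_pos (by positivity)]
        exact mul_le_mul_of_nonneg_left (hT y) (by positivity)
      have h1' : (0:ℝ) ≤ (1/(1-p)) * (2*C) := by positivity
      have h2' : (0:ℝ) ≤ ((p/2)/(1-p)) * (2*C) := by positivity
      rw [Tn_succ, RR_add p a (n+1) _ _ ((1/(1-p)) * (2*C) + ((p/2)/(1-p)) * (2*C))
        (fun y => (b2 y).trans (by linarith)) (fun y => (b3 y).trans (by linarith)),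
        RR_mul, RR_mul, RR_add p a (n+1) _ _ C hgt b1, RR_mul]
    have e2 := RR_step p a n (S := S) (fun y => g y.tail) C hgt
    simp only [List.tail_cons] at e2
    have e3 := ih (fun y => g y.tail) C hgt a n
    have e4 : RR p S a (n+1) (Tn p (I+1) g) - RR p S (a+1) n g
        = (-((p/2)/(1-p))) * (RR p S a (n+1) (Tn p I (fun y => g y.tail))
          - RR p S (a+1) n (fun y => g y.tail)) := by
      have e2' : RR p S a (n+1) (fun y => g y.tail)
          = (1-p) * RR p S (a+1) n g + (p/2) * RR p S (a+1) n (fun y => g y.tail)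
            + (p/2) * RR p S a (n+1) g := by
        rw [e2]; ring
      rw [e1, e2']
      field_simp
      ring
    rw [e4, abs_mul, abs_neg, abs_of_pos (by positivity), pow_succ]
    calc _ ≤ ((p/2)/(1-p)) * (((p/2)/(1-p))^I * C) :=
          mul_le_mul_of_nonneg_left e3 (by positivity)
      _ = _ := by ring

/-- `h` on the rest if the first symbol is `b` -/
def Eb (b : Bool) (h : List Bool → ℝ) : List Bool → ℝ
  | [] => 0
  | c :: y => if c = b then h y else 0

lemma Eb_abs_le (b : Bool) (h : List Bool → ℝ) (C : ℝ) (hh : ∀ y, |h y| ≤ C) (y : List Bool) :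
    |Eb b h y| ≤ C := by
  have hC : 0 ≤ C := le_trans (abs_nonneg _) (hh [])
  cases y with
  | nil => simpa [Eb] using hC
  | cons c y =>
    by_cases hc : c = b
    · simpa [Eb, hc] using hh y
    · simpa [Eb, hc] using hC

/-- approximate inverse of the channel: estimates whether the input begins with `v`. -/
noncomputable def gv (p : ℝ) (I : ℕ) : List Bool → (List Bool → ℝ)
  | [] => fun _ => 1
  | b :: v => fun y => (1/(1-p)) * (Eb b (gv p I v) y + (-(p/4)) * gv p I v y
      + (-(p/2)) * Tn p I (Eb b (gv p I v)) y)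

lemma gv_cons (p : ℝ) (I : ℕ) (b : Bool) (v : List Bool) :
    gv p I (b :: v) = fun y => (1/(1-p)) * (Eb b (gv p I v) y + (-(p/4)) * gv p I v y
      + (-(p/2)) * Tn p I (Eb b (gv p I v)) y) := rfl

lemma gv_abs_le {p : ℝ} (h0 : 0 < p) (h1 : p ≤ 1/4) (I : ℕ) (v : List Bool) :
    ∀ y, |gv p I v y| ≤ 2 ^ v.length := by
  induction v with
  | nil => intro y; simp [gv]
  | cons b v ih =>
    intro y
    have hp1 : 0 < 1 - p := by linarith
    have b1 : 1/(1-p) ≤ 4/3 := by
      rw [div_le_div_iff₀ hp1 (by norm_num)]; linarith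
    have b1' : 0 < 1/(1-p) := by positivity
    set C : ℝ := 2 ^ v.length
    have hC : 0 < C := by positivity
    have a1 := Eb_abs_le b _ C ih y
    have a2 : |(-(p/4)) * gv p I v y| ≤ (1/16) * C := by
      rw [abs_mul, abs_neg, abs_of_pos (by positivity)]
      exact mul_le_mul (by linarith) (ih y) (abs_nonneg _) (by norm_num)
    have a3 : |(-(p/2)) * Tn p I (Eb b (gv p I v)) y| ≤ (1/8) * (2*C) := by
      rw [abs_mul, abs_neg, abs_of_pos (by positivity)]
      exact mul_le_mul (by linarith) (Tn_abs_le h0 h1 I _ C (Eb_abs_le b _ C ih) y)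
        (abs_nonneg _) (by norm_num)
    rw [gv_cons, abs_mul, abs_of_pos b1', List.length_cons, pow_succ]
    calc _ ≤ (4/3) * (C + (1/16)*C + (1/8)*(2*C)) := by
          apply mul_le_mul b1 _ (abs_nonneg _) (by norm_num)
          exact (abs_add_le _ _).trans (add_le_add ((abs_add_le _ _).trans (add_le_add a1 a2)) a3)
      _ ≤ C * 2 := by linarith

/-- mean of the approximate inverse -/
theorem RR_gv (h1 : p ≤ 1/4) (I : ℕ) (v : List Bool) : ∀ a n, v.length ≤ n →
    |RR p S a n (gv p I v) - (if sub S a v.length = v then 1 else 0)|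
      ≤ ((p/2)/(1-p))^(I+1) * 2^v.length := by
  obtain ⟨h0, _⟩ := hp.out
  have hp1 : 0 < 1 - p := by linarith
  set ρ : ℝ := (p/2)/(1-p) with hρ
  have hρ0 : 0 < ρ := by positivity
  induction v with
  | nil =>
    intro a n _
    simp only [gv, List.length_nil, sub_zero', ↓reduceIte, pow_zero, mul_one]
    have : RR p S a n (fun _ => (1:ℝ)) = 1 := by simp [RR]
    rw [this, sub_self, abs_zero]; positivity
  | cons b v ih =>
    intro a n hn
    obtain ⟨n, rfl⟩ : ∃ k, n = k + 1 := ⟨n - 1, by simp at hn; omega⟩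
    simp only [List.length_cons, add_le_add_iff_right] at hn
    set C : ℝ := 2 ^ v.length with hCdef
    have hC : 0 < C := by positivity
    have hg := gv_abs_le h0 h1 I v
    have hE := Eb_abs_le b _ C hg
    have hT := Tn_abs_le h0 h1 I _ C hE
    -- expand
    have e1 : RR p S a (n+1) (gv p I (b :: v)) = (1/(1-p)) *
        (RR p S a (n+1) (Eb b (gv p I v)) + (-(p/4)) * RR p S a (n+1) (gv p I v)
          + (-(p/2)) * RR p S a (n+1) (Tn p I (Eb b (gv p I v)))) := by
      have b1 : ∀ y : List Bool, |(-(p/4)) * gv p I v y| ≤ C := by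
        intro y
        rw [abs_mul, abs_neg, abs_of_pos (by positivity)]
        calc (p/4) * |gv p I v y| ≤ 1 * C :=
              mul_le_mul (by linarith) (hg y) (abs_nonneg _) (by norm_num)
          _ = C := one_mul _
      have b2 : ∀ y : List Bool, |(-(p/2)) * Tn p I (Eb b (gv p I v)) y| ≤ 2*C := by
        intro y
        rw [abs_mul, abs_neg, abs_of_pos (by positivity)]
        calc (p/2) * |Tn p I (Eb b (gv p I v)) y| ≤ 1 * (2*C) :=
              mul_le_mul (by linarith) (hT y) (abs_nonneg _) (by norm_num)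
          _ = 2*C := one_mul _
      have b3 : ∀ y : List Bool, |Eb b (gv p I v) y + (-(p/4)) * gv p I v y| ≤ 2*C := by
        intro y
        refine (abs_add_le _ _).trans ?_
        linarith [hE y, b1 y]
      rw [gv_cons, RR_mul, RR_add p a (n+1) _ _ (2*C) b3 b2, RR_add p a (n+1) _ _ C hE b1, RR_mul,
        RR_mul]
    have e2 : RR p S a (n+1) (Eb b (gv p I v))
        = (1-p) * (if S a = b then RR p S (a+1) n (gv p I v) else 0)
          + (p/2) * RR p S (a+1) n (Eb b (gv p I v)) + (p/4) * RR p S a (n+1) (gv p I v) := by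
      rw [RR_step p a n _ C hE]
      have f1 : ∀ c : Bool, ∀ a n, RR p S a n (fun y => Eb b (gv p I v) (c :: y))
          = if c = b then RR p S a n (gv p I v) else 0 := by
        intro c a n
        by_cases hc : c = b
        · simp [Eb, hc]
        · simp [Eb, hc, RR]
      rw [f1, f1, f1]
      cases b <;> simp
    have e3 := RR_Tn p h1 I (Eb b (gv p I v)) C hE a n (S := S)
    have e4 := ih (a+1) n hn
    have e5 : RR p S a (n+1) (gv p I (b :: v)) = (if S a = b then RR p S (a+1) n (gv p I v) else 0)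
        + (-ρ) * (RR p S a (n+1) (Tn p I (Eb b (gv p I v)))
            - RR p S (a+1) n (Eb b (gv p I v))) := by
      rw [e1, e2, hρ]
      field_simp
      ring
    have e6 : (if sub S a (b :: v).length = b :: v then (1:ℝ) else 0)
        = if S a = b then (if sub S (a+1) v.length = v then 1 else 0) else 0 := by
      rw [List.length_cons, sub_succ]
      by_cases hb : S a = b
      · simp [hb]
      · simp [hb]
    rw [e5, e6, List.length_cons, pow_succ (2:ℝ)]
    have e7 : |(if S a = b then RR p S (a+1) n (gv p I v) else 0)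
        - (if S a = b then (if sub S (a+1) v.length = v then (1:ℝ) else 0) else 0)|
        ≤ ρ^(I+1) * C := by
      by_cases hb : S a = b
      · simp only [hb, ↓reduceIte]; exact e4
      · simp only [hb, ↓reduceIte, sub_self, abs_zero]; positivity
    have e8 : |(-ρ) * (RR p S a (n+1) (Tn p I (Eb b (gv p I v)))
            - RR p S (a+1) n (Eb b (gv p I v)))| ≤ ρ^(I+1) * C := by
      rw [abs_mul, abs_neg, abs_of_pos hρ0, pow_succ]
      calc _ ≤ ρ * (ρ^I * C) := mul_le_mul_of_nonneg_left e3 hρ0.le
        _ = _ := by ring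
    calc _ = |((if S a = b then RR p S (a+1) n (gv p I v) else 0)
        - (if S a = b then (if sub S (a+1) v.length = v then (1:ℝ) else 0) else 0))
        + (-ρ) * (RR p S a (n+1) (Tn p I (Eb b (gv p I v)))
            - RR p S (a+1) n (Eb b (gv p I v)))| := by congr 1; ring
      _ ≤ ρ^(I+1) * C + ρ^(I+1) * C := (abs_add_le _ _).trans (add_le_add e7 e8)
      _ = _ := by ring

end

/-! ### the approximate inverse only looks at a bounded part -/

/-- `g y` depends only on the first `N` symbols of `y` -/
def Dep (N : ℕ) (g : List Bool → ℝ) : Prop := ∀ y y', y.take N = y'.take N → g y = g y'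

lemma Dep.mono {N N' : ℕ} {g : List Bool → ℝ} (h : Dep N g) (hN : N ≤ N') : Dep N' g := by
  intro y y' e
  apply h
  have := congrArg (List.take N) e
  rwa [List.take_take, List.take_take, min_eq_left hN] at this

lemma Dep.tail {N : ℕ} {g : List Bool → ℝ} (h : Dep N g) : Dep (N+1) (fun y => g y.tail) := by
  intro y y' e
  apply h
  cases y <;> cases y' <;> simp_all

lemma Dep.Tn {p : ℝ} (I : ℕ) : ∀ {N : ℕ} {g : List Bool → ℝ}, Dep N g → Dep (N+I) (Tn p I g) := by
  induction I with
  | zero => intro N g _ y y' _; rfl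
  | succ I ih =>
    intro N g h y y' e
    rw [Tn_succ]
    have h1 := (h.tail.mono (show N+1 ≤ N+(I+1) by omega)) y y' e
    have h2 := (h.mono (show N ≤ N+(I+1) by omega)) y y' e
    have h3 := (ih h.tail).mono (show N+1+I ≤ N+(I+1) by omega) y y' e
    simp only at h1 ⊢
    rw [h1, h2, h3]

lemma Dep.Eb {b : Bool} {N : ℕ} {g : List Bool → ℝ} (h : Dep N g) : Dep (N+1) (Eb b g) := by
  intro y y' e
  cases y with
  | nil => cases y' with
    | nil => rfl
    | cons c y' => simp at e
  | cons c y => cases y' with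
    | nil => simp at e
    | cons c' y' =>
      simp only [List.take_succ_cons, List.cons.injEq] at e
      have := h y y' e.2
      simp only [Trace.Eb, e.1, this]

lemma dep_gv (p : ℝ) (I : ℕ) (v : List Bool) : Dep (v.length * (I+1)) (gv p I v) := by
  induction v with
  | nil => intro y y' _; rfl
  | cons b v ih =>
    intro y y' e
    rw [gv_cons]
    have hN : (b :: v).length * (I+1) = v.length * (I+1) + 1 + I := by
      simp; ring
    rw [hN] at e
    have h1 := (ih.Eb (b := b)).mono (show v.length * (I+1) + 1 ≤ _ by omega) y y' e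
    have h2 := ih.mono (show v.length * (I+1) ≤ v.length * (I+1) + 1 + I by omega) y y' e
    have h3 := (Dep.Tn (p := p) I (ih.Eb (b := b))) y y' e
    simp only
    rw [h1, h2, h3]

end W5h82.Trace
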