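import Pool.Agent.W5h82.Trace.Evt

/-!
The deck votes are determined locally, when all traces are fine.
-/

set_option autoImplicit false

open MeasureTheory ENNReal

namespace W5h82.Trace

lemma win_mid {P Q Z : List Bool} {k w : ℕ} (hw : w ≤ k) (hk : k ≤ Q.length) :
    win (P ++ Q ++ Z) (P.length + k) w = win Q k w := by
  unfold win
  rw [List.append_assoc, List.take_length_add_append, List.take_append_of_le_length hk,
    show P.length + k - w = P.length + (k - w) by omega, List.drop_length_add_append]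

lemma take_drop_mid {P Q Z : List Bool} {k N : ℕ} (hk : k + N ≤ Q.length) :
    ((P ++ Q ++ Z).drop (P.length + k)).take N = (Q.drop k).take N := by
  rw [List.append_assoc, List.drop_length_add_append, List.drop_append_of_le_length (by omega),
    List.take_append_of_le_length (by simp; omega)]

section

variable {H R M : ℕ} {S : ℕ → Bool} {α0 α1 : ℕ → Act} {A x : ℕ}

lemma seg_split3 (S : ℕ → Bool) (α : ℕ → Act) {A W : ℕ} (h1 : W ≤ A) (h2 : A + W ≤ M) :
    seg S α 0 M = seg S α 0 (A - W) ++ seg S α (A - W) (2 * W) ++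
      seg S α (A + W) (M - A - W) := by
  have h3 := seg_add S α 0 (A - W) (2 * W)
  have h4 := seg_add S α 0 (A - W + 2 * W) (M - A - W)
  rw [Nat.zero_add] at h3 h4
  rw [show A - W + 2 * W + (M - A - W) = M by omega] at h4
  rw [h4, h3, show A - W + 2 * W = A + W by omega]

/-- local condition in terms of local outputs -/
def LC (H R : ℕ) (Q0 : List Bool) (k0 : ℕ) (Q1 : List Bool) (k : ℕ) : Prop :=
  ∀ r ≤ R, r < 7 → Ind (16 * tol H r) (win Q0 k0 (wid H r)) (win Q1 k (wid H r))

/-- sizes of the local outputs -/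
lemma local_sizes (hH : 1 ≤ H) (hHR : H ≤ R) (hE : FineE H R α1 A) (hWA : wid H H ≤ A)
    (S : ℕ → Bool) :
    out α1 (A - wid H H) + 4095 * tol H H ≤ out α1 A ∧
    out α1 A + 4095 * tol H H ≤ out α1 (A - wid H H) + (seg S α1 (A - wid H H) (2 * wid H H)).length ∧
    (seg S α1 0 (A - wid H H)).length = out α1 (A - wid H H) := by
  have hw := wid_eq H H
  have ht := tol_pos hH H
  have g1 := le_out_add α1 (A - wid H H) (wid H H)
  have g2 : edits α1 (A - wid H H) (wid H H) ≤ tol H H := hE.edits_le hHR (by omega) (by omega)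
  have g3 := le_out_add α1 A (wid H H)
  have g4 : edits α1 A (wid H H) ≤ tol H H := hE.edits_le hHR (by omega) (by omega)
  have g5 := seg_length_out S α1 (A - wid H H) (2 * wid H H)
  rw [show A - wid H H + wid H H = A by omega] at g1
  rw [show A - wid H H + 2 * wid H H = A + wid H H by omega] at g5
  refine ⟨by omega, by omega, (out_eq_length S α1 _).symm⟩

lemma win_local (hHR : H ≤ R) (hH : 10 ≤ H) (hE : FineE H R α1 A) (hWA : wid H H ≤ A)
    (hM : A + wid H H ≤ M) {k r : ℕ} (hr : r < 7)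
    (hk1 : out α1 A ≤ out α1 (A - wid H H) + k + 512 * H)
    (hk2 : out α1 (A - wid H H) + k ≤ out α1 A + 512 * H) :
    win (seg S α1 0 M) (out α1 (A - wid H H) + k) (wid H r) =
      win (seg S α1 (A - wid H H) (2 * wid H H)) k (wid H r) := by
  obtain ⟨s1, s2, s3⟩ := local_sizes (by omega) hHR hE hWA S
  have hw7 : wid H r ≤ 2^18 * H := by
    have := tol_mono (H := H) (show r ≤ 6 by omega)
    have h6 : tol H 6 = 64 * H := by unfold tol; norm_num
    rw [wid_eq]; omega
  have h10 : 1024 * H ≤ tol H H := by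
    unfold tol
    exact Nat.mul_le_mul_right _ (by
      calc 1024 = 2^10 := by norm_num
        _ ≤ 2^H := Nat.pow_le_pow_right (by norm_num) hH)
  rw [seg_split3 S α1 hWA hM, ← s3]
  apply win_mid
  · omega
  · omega

lemma loc_LC (hHR : H ≤ R) (hH : 10 ≤ H) (hE0 : FineE H R α0 A) (hE1 : FineE H R α1 A)
    (hA : 2 * wid H R ≤ A) (hM : A + wid H R ≤ M) {k0 k : ℕ}
    (hx1 : out α0 A ≤ out α0 (A - wid H H) + k0)
    (hx2 : out α0 (A - wid H H) + k0 < out α0 (A+1))
    (hk1 : out α1 A ≤ out α1 (A - wid H H) + k + 512 * H)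
    (hk2 : out α1 (A - wid H H) + k ≤ out α1 A + 512 * H) :
    Loc H R (seg S α0 0 M) (out α0 (A - wid H H) + k0) (seg S α1 0 M) (out α1 (A - wid H H) + k) ↔
      LC H R (seg S α0 (A - wid H H) (2 * wid H H)) k0
        (seg S α1 (A - wid H H) (2 * wid H H)) k := by
  have hwR : wid H H ≤ wid H R := by
    have := tol_mono (H := H) hHR
    rw [wid_eq, wid_eq]; omega
  have hwpos : 1 ≤ wid H H := by have := tol_pos (by omega : 1 ≤ H) H; rw [wid_eq]; omega
  have h10 : 1024 * H ≤ tol H H := by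
    unfold tol
    exact Nat.mul_le_mul_right _ (by
      calc 1024 = 2^10 := by norm_num
        _ ≤ 2^H := Nat.pow_le_pow_right (by norm_num) hH)
  obtain ⟨s1, s2, s3⟩ := local_sizes (by omega) hHR hE1 (by omega) S
  have hlen : out α1 (A - wid H H) + k ≤ (seg S α1 0 M).length := by
    rw [seg_split3 S α1 (by omega : wid H H ≤ A) (by omega), List.length_append,
      List.length_append, s3]
    omega
  rw [loc_iff_local (by omega) hE0 hE1 hA (by omega) hx1 (Or.inl hx2) hk2 hk1 hlen]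
  unfold LC
  apply forall₂_congr
  intro r hr
  apply forall_congr'
  intro h7
  have hex : out α0 (A - wid H H) + k0 ≤ out α0 A + 512 * H := by
    have hh := out_succ α0 A
    have h1 := ed_ge_of_lt (α0 A) (e := out α0 (A - wid H H) + k0 - out α0 A) (by omega)
    have h2 : edits α0 A 1 ≤ tol H 0 := by
      apply hE0.edits_le (Nat.zero_le R)
      · omega
      · have : wid H 0 = 4096 * H := by simp [wid]
        omega
    rw [edits_succ, edits_zero] at h2
    have : tol H 0 = H := by simp [tol]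
    omega
  rw [win_local hHR hH hE0 (by omega) (by omega) h7 (by omega) hex,
    win_local hHR hH hE1 (by omega) (by omega) h7 hk1 hk2]

variable {S' : ℕ → Bool} {α0' α1' : ℕ → Act}

/-- agreement near `A` -/
def Agree (A W : ℕ) (S S' : ℕ → Bool) (α α' : ℕ → Act) : Prop :=
  ∀ j, A ≤ j + W → j < A + W → S j = S' j ∧ α j = α' j

lemma Agree.symm {A W : ℕ} {α α' : ℕ → Act} (h : Agree A W S S' α α') : Agree A W S' S α' α :=
  fun j h1 h2 => ⟨(h j h1 h2).1.symm, (h j h1 h2).2.symm⟩

lemma Agree.seg_eq {A W : ℕ} {α α' : ℕ → Act} (h : Agree A W S S' α α') (hW : W ≤ A) :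
    seg S α (A - W) (2*W) = seg S' α' (A-W) (2*W) :=
  seg_congr (fun j h1 h2 => (h j (by omega) (by omega)).1)
    (fun j h1 h2 => (h j (by omega) (by omega)).2)

lemma Agree.out_eq {A W : ℕ} {α α' : ℕ → Act} (h : Agree A W S S' α α') (hW : W ≤ A) :
    ∃ d, out α A = out α (A-W) + d ∧ out α' A = out α' (A-W) + d := by
  refine ⟨((acts α (A-W) W).map plen).sum, ?_, ?_⟩
  · have := out_add α (A-W) W
    rwa [show A - W + W = A by omega] at this
  · have := out_add α' (A-W) W
    rw [show A - W + W = A by omega] at this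
    rw [this, acts_congr (fun j h1 h2 => (h j (by omega) (by omega)).2)]

/-- the stopping position is determined locally: one inequality -/
lemma stop_le (hHR : H ≤ R) (hH : 10 ≤ H) (hE0 : FineE H R α0 A) (hE1 : FineE H R α1 A)
    (hE0' : FineE H R α0' A) (hE1' : FineE H R α1' A)
    (hA : 2 * wid H R ≤ A) (hA4 : A ≤ 4 * wid H R) (hM : A + wid H R ≤ M)
    (ag0 : Agree A (wid H H) S S' α0 α0') (ag1 : Agree A (wid H H) S S' α1 α1')
    {k0 k k' : ℕ} (hW1 : 1 ≤ wid H H)
    (hx1 : out α0 A ≤ out α0 (A - wid H H) + k0)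
    (hx2 : out α0 (A - wid H H) + k0 < out α0 (A+1))
    (hx1' : out α0' A ≤ out α0' (A - wid H H) + k0)
    (hx2' : out α0' (A - wid H H) + k0 < out α0' (A+1))
    (hk1 : out α1 A ≤ out α1 (A - wid H H) + k + 512 * H)
    (hk2 : out α1 (A - wid H H) + k ≤ out α1 A + 512 * H)
    (hL : Loc H R (seg S α0 0 M) (out α0 (A - wid H H) + k0) (seg S α1 0 M)
      (out α1 (A - wid H H) + k))
    (hmin' : ∀ y' < out α1' (A - wid H H) + k',
      ¬ (out α0' (A - wid H H) + k0 ≤ y' + 512 * tol H R ∧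
        y' ≤ out α0' (A - wid H H) + k0 + 512 * tol H R ∧
        Loc H R (seg S' α0' 0 M) (out α0' (A - wid H H) + k0) (seg S' α1' 0 M) y')) :
    k' ≤ k := by
  by_contra hcon
  push Not at hcon
  have hwR : wid H H ≤ wid H R := by
    have := tol_mono (H := H) hHR
    rw [wid_eq, wid_eq]; omega
  obtain ⟨d, hd, hd'⟩ := ag1.out_eq (by omega)
  have hk1' : out α1' A ≤ out α1' (A - wid H H) + k + 512 * H := by omega
  have hk2' : out α1' (A - wid H H) + k ≤ out α1' A + 512 * H := by omega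
  rw [loc_LC hHR hH hE0 hE1 hA hM hx1 hx2 hk1 hk2, ag0.seg_eq (by omega), ag1.seg_eq (by omega),
    ← loc_LC (M := M) hHR hH hE0' hE1' hA hM hx1' hx2' hk1' hk2'] at hL
  obtain ⟨r1, r2⟩ := range_ok' hE0' hE1' hA4 (by omega) hx1' (Or.inl hx2')
  have h2 : 2 * H ≤ tol H R := by
    have := tol_mono (H := H) (show 1 ≤ R by omega)
    have h1 : tol H 1 = 2 * H := by unfold tol; ring
    omega
  exact hmin' _ (by omega) ⟨by omega, by omega, hL⟩

/-- a vote is determined locally -/
lemma vote_local {p : ℝ} {I L : ℕ} (hHR : H ≤ R) (hH : 10 ≤ H) (hE0 : FineE H R α0 A)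
    (hE1 : FineE H R α1 A) (hS : FineS H R S A)
    (hE0' : FineE H R α0' A) (hE1' : FineE H R α1' A) (hS' : FineS H R S' A)
    (hA : 2 * wid H R ≤ A) (hA4 : A ≤ 4 * wid H R) (hM : A + wid H R ≤ M)
    (ag0 : Agree A (wid H H) S S' α0 α0') (ag1 : Agree A (wid H H) S S' α1 α1')
    {e : ℕ} (he : e < plen (α0 A)) (hLI : L * (I+1) + 512 * H ≤ 4095 * tol H H)
    {v : List Bool} (hv : v.length = L) :
    (stopL (Phi H R (seg S α0 0 M) (out α0 A + e)) [] (seg S α1 0 M)).elim 0 (gv p I v) =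
    (stopL (Phi H R (seg S' α0' 0 M) (out α0' A + e)) [] (seg S' α1' 0 M)).elim 0 (gv p I v) := by
  have hwR : wid H H ≤ wid H R := by
    have := tol_mono (H := H) hHR
    rw [wid_eq, wid_eq]; omega
  have hwpos : 1 ≤ wid H H := by have := tol_pos (by omega : 1 ≤ H) H; rw [wid_eq]; omega
  have hplen : α0 A = α0' A := (ag0 A (by omega) (by omega)).2
  obtain ⟨d0, hd0, hd0'⟩ := ag0.out_eq (by omega)
  obtain ⟨d1, hd1, hd1'⟩ := ag1.out_eq (by omega)
  have hos := out_succ α0 A
  have hos' := out_succ α0' A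
  rw [← hplen] at hos'
  obtain ⟨y, hyl, hy1, hy2, hyL, hymin, hyst, -⟩ := stop_fine (M := M) (by omega) hE0 hE1 hS hA hA4
    hM (x := out α0 A + e) (by omega) (Or.inl (by omega))
  obtain ⟨y', hyl', hy1', hy2', hyL', hymin', hyst', -⟩ := stop_fine (M := M) (by omega) hE0' hE1'
    hS' hA hA4 hM (x := out α0' A + e) (by omega) (Or.inl (by omega))
  obtain ⟨s1, s2, s3⟩ := local_sizes (by omega) hHR hE1 (by omega) S
  obtain ⟨s1', s2', s3'⟩ := local_sizes (by omega) hHR hE1' (by omega) S'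
  have h10 : 1024 * H ≤ tol H H := by
    unfold tol
    exact Nat.mul_le_mul_right _ (by
      calc 1024 = 2^10 := by norm_num
        _ ≤ 2^H := Nat.pow_le_pow_right (by norm_num) hH)
  -- express positions by local offsets
  obtain ⟨k, hk⟩ := Nat.exists_eq_add_of_le (show out α1 (A - wid H H) ≤ y by omega)
  obtain ⟨k', hk'⟩ := Nat.exists_eq_add_of_le (show out α1' (A - wid H H) ≤ y' by omega)
  have ex : out α0 A + e = out α0 (A - wid H H) + (d0 + e) := by omega
  have ex' : out α0' A + e = out α0' (A - wid H H) + (d0 + e) := by omega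
  rw [ex] at hyL hymin hyst ⊢
  rw [ex'] at hyL' hymin' hyst' ⊢
  rw [hk] at hyL hymin hyst hy1 hy2
  rw [hk'] at hyL' hymin' hyst' hy1' hy2'
  have c1 : k' ≤ k := stop_le (M := M) hHR hH hE0 hE1 hE0' hE1' hA hA4 hM ag0 ag1 hwpos
    (by omega) (by omega) (by omega) (by omega) hy2 hy1 hyL hymin'
  have c2 : k ≤ k' := stop_le (M := M) hHR hH hE0' hE1' hE0 hE1 hA hA4 hM ag0.symm ag1.symm hwpos
    (by omega) (by omega) (by omega) (by omega) hy2' hy1' hyL' hymin
  have hkk : k = k' := le_antisymm c2 c1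
  subst hkk
  rw [hyst, hyst']
  simp only [Option.elim_some]
  apply dep_gv p I v
  rw [hv, seg_split3 S α1 (by omega : wid H H ≤ A) (by omega),
    seg_split3 S' α1' (by omega : wid H H ≤ A) (by omega), ← s3, ← s3', take_drop_mid (by omega),
    take_drop_mid (by omega), ag1.seg_eq (by omega)]

end

/-! ### the event -/

section event

/-- everything is fine at `A` -/
def fineAt {m M : ℕ} (H R : ℕ) (ω : Om m M) (A : ℕ) : Prop := ∀ r ≤ R, ω ∉ badR m M H r A

/-- the votes are wrong -/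
def VoteBad {m M : ℕ} (p : ℝ) (I L H R : ℕ) (ω : Om (m+1) M) (A : ℕ) : Prop :=
  ¬ GoodAcc L H (AccD p I L H R (tr ω 0) (fun i : Fin m => tr ω i.succ)) (bit ω) (ac ω 0) A

/-- local version of the event that the votes are wrong -/
def BVD (p : ℝ) (I L H R m M A : ℕ) : Set (Om (m+1) M) :=
  {ω | ∃ ω', (∀ k ∈ near (m+1) M A (wid H H), ω k = ω' k) ∧ fineAt H R ω' A ∧
    VoteBad p I L H R ω' A}

lemma BVD_dep (p : ℝ) (I L H R m M A : ℕ) :
    DepOn (BVD p I L H R m M A) (near (m+1) M A (wid H H)) := by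
  intro ω ω' h
  constructor
  · rintro ⟨ω'', h1, h2⟩
    exact ⟨ω'', fun k hk => by rw [← h k hk, h1 k hk], h2⟩
  · rintro ⟨ω'', h1, h2⟩
    exact ⟨ω'', fun k hk => by rw [h k hk, h1 k hk], h2⟩

variable {p : ℝ} {I L H R m M A : ℕ}

lemma agree_of {ω ω' : Om m M} (h : ∀ k ∈ near m M A (wid H H), ω k = ω' k) (i : Fin m) :
    Agree A (wid H H) (bit ω) (bit ω') (ac ω i) (ac ω' i) :=
  fun _ h1 h2 => ⟨bit_near h h1 h2.le, ac_near h i h1 h2.le⟩

lemma voteBad_local (hHR : H ≤ R) (hH : 10 ≤ H) (hA : 2 * wid H R ≤ A) (hA4 : A ≤ 4 * wid H R)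
    (hM : A + wid H R ≤ M) (hLI : L * (I+1) + 512 * H ≤ 4095 * tol H H)
    {ω ω' : Om (m+1) M} (h : ∀ k ∈ near (m+1) M A (wid H H), ω k = ω' k)
    (hf : fineAt H R ω A) (hf' : fineAt H R ω' A) (hV : VoteBad p I L H R ω A) :
    VoteBad p I L H R ω' A := by
  intro hgood
  apply hV
  have hwR : wid H H ≤ wid H R := by
    have := tol_mono (H := H) hHR
    rw [wid_eq, wid_eq]; omega
  have htp := tol_pos (show 1 ≤ H by omega) H
  have hweq := wid_eq H H
  have hLw : L + 1024 * H ≤ wid H H := by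
    have h1 : L ≤ L * (I+1) := Nat.le_mul_of_pos_right L (by omega)
    have h10 : 1024 * H ≤ tol H H := by
      unfold tol
      exact Nat.mul_le_mul_right _ (by
        calc 1024 = 2^10 := by norm_num
          _ ≤ 2^H := Nat.pow_le_pow_right (by norm_num) hH)
    omega
  intro x hx1 hx2
  obtain ⟨e, rfl⟩ := Nat.exists_eq_add_of_le hx1
  have he : e < plen (ac ω 0 A) := by rw [out_succ] at hx2; omega
  have hac : ac ω 0 A = ac ω' 0 A := (agree_of h 0 A (by omega) (by omega)).2
  have hgood' := hgood (out (ac ω' 0) A + e) (by omega) (by rw [out_succ, ← hac]; omega)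
  have hsets : AccD p I L H R (tr ω 0) (fun i : Fin m => tr ω i.succ) (out (ac ω 0) A + e)
      = AccD p I L H R (tr ω' 0) (fun i : Fin m => tr ω' i.succ) (out (ac ω' 0) A + e) := by
    ext v
    unfold AccD
    simp only [Set.mem_ofPred_eq]
    apply and_congr_right
    intro hv
    have : ∀ i : Fin m, (stopL (Phi H R (tr ω 0) (out (ac ω 0) A + e)) [] (tr ω i.succ)).elim 0
          (gv p I v)
        = (stopL (Phi H R (tr ω' 0) (out (ac ω' 0) A + e)) [] (tr ω' i.succ)).elim 0
          (gv p I v) := by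
      intro i
      exact vote_local hHR hH (fineE_of hf 0) (fineE_of hf i.succ) (fineS_of hf) (fineE_of hf' 0)
        (fineE_of hf' i.succ) (fineS_of hf') hA hA4 hM (agree_of h 0) (agree_of h i.succ) he hLI hv
    simp only [this]
  rw [hsets]
  refine ⟨hgood'.1, ?_⟩
  intro v hv
  obtain ⟨a, ha1, ha2, ha3⟩ := hgood'.2 v hv
  refine ⟨a, ha1, ha2, ?_⟩
  rw [ha3]
  apply sub_congr
  intro j h1 h2
  exact (bit_near h (by omega) (by omega)).symm

lemma BVD_good {ω : Om (m+1) M} (h : ω ∉ BVD p I L H R m M A) (hf : fineAt H R ω A) :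
    GoodAcc L H (AccD p I L H R (tr ω 0) (fun i : Fin m => tr ω i.succ)) (bit ω) (ac ω 0) A := by
  by_contra hcon
  exact h ⟨ω, fun _ _ => rfl, hf, hcon⟩

lemma BVD_sub (hHR : H ≤ R) (hH : 10 ≤ H) (hA : 2 * wid H R ≤ A) (hA4 : A ≤ 4 * wid H R)
    (hM : A + wid H R ≤ M) (hLI : L * (I+1) + 512 * H ≤ 4095 * tol H H) :
    BVD p I L H R m M A ⊆ BadD p I L H R m M A ∪ ⋃ r ∈ Finset.range (R+1), badR (m+1) M H r A := by
  rintro ω ⟨ω', h1, h2, h3⟩
  by_cases hf : fineAt H R ω A
  · left
    exact ⟨fineE_of hf 0, fineS_of hf,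
      voteBad_local hHR hH hA hA4 hM hLI (fun k hk => (h1 k hk).symm) h2 hf h3⟩
  · right
    unfold fineAt at hf
    push Not at hf
    obtain ⟨r, hr, hr'⟩ := hf
    simp only [Set.mem_iUnion, Finset.mem_range]
    exact ⟨r, by omega, hr'⟩

end event

end W5h82.Trace
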