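import Pool.Agent.W5h82.Trace.Stop

/-!
Majority votes.
-/

set_option autoImplicit false

namespace W5h82.Trace

/-- The acceptance sets are correct at the position `A`. -/
def GoodAcc (L H : ℕ) (Acc : ℕ → Set (List Bool)) (S : ℕ → Bool) (α0 : ℕ → Act) (A : ℕ) : Prop :=
  ∀ x, out α0 A ≤ x → x < out α0 (A+1) → (Acc x).Nonempty ∧
    ∀ v ∈ Acc x, ∃ a, a ≤ A + 1024 * H ∧ A ≤ a + 1024 * H ∧ v = sub S a L

open Classical in
/-- acceptance by majority -/
noncomputable def AccM (L H R : ℕ) {m : ℕ} (u : List Bool) (ts : Fin m → List Bool) (x : ℕ) :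
    Set (List Bool) :=
  {v | m < 2 * (Finset.univ.filter (fun i : Fin m =>
    ∃ rest, stopL (Phi H R u x) [] (ts i) = some rest ∧ rest.take L = v)).card}

lemma clean_seg {S : ℕ → Bool} {α : ℕ → Act} {a n : ℕ} (h : edits α a n = 0) :
    seg S α a n = sub S a n := by
  induction n generalizing a with
  | zero => rw [seg_zero, sub_zero']
  | succ n ih =>
    rw [edits_succ] at h
    have h1 : ed (α a) = 0 := by omega
    have h2 : edits α (a+1) n = 0 := by omega
    rw [seg_succ, sub_succ, ih h2]
    unfold ed at h1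
    have h3 : (α a).1.length = 0 := by omega
    have h4 : (α a).1 = [] := List.length_eq_zero_iff.1 h3
    have h5 : (α a).2 = true := by
      by_contra hh
      simp only [Bool.not_eq_true] at hh
      simp [hh] at h1
    unfold piece
    simp [h4, h5]

/-- half width of the region where a trace is required to be clean -/
def cw (H : ℕ) : ℕ := 2^19 * H

/-- no edits near `A` -/
def Clean (H : ℕ) (α : ℕ → Act) (A : ℕ) : Prop := edits α (A - cw H) (2 * cw H) = 0

section
variable {H R M : ℕ} {S : ℕ → Bool} {α0 α1 : ℕ → Act} {A x : ℕ}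

lemma range_ok' (hE0 : FineE H R α0 A) (hE1 : FineE H R α1 A) (hA4 : A ≤ 4 * wid H R)
    (hH : 1 ≤ H)
    (hx1 : out α0 A ≤ x) (hx2 : x < out α0 (A+1) ∨ x = out α0 A) :
    x ≤ out α1 A + 4 * tol H R ∧ out α1 A ≤ x + 4 * tol H R := by
  have hposR : 1 ≤ tol H R := tol_pos hH R
  have hwR := wid_eq H R
  have e0 : edits α0 0 A ≤ tol H R := hE0.edits_le le_rfl (by omega) (by omega)
  have e1 : edits α1 0 A ≤ tol H R := hE1.edits_le le_rfl (by omega) (by omega)
  have o0 : out α0 0 = 0 := by simp [out, acts_zero]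
  have o1 : out α1 0 = 0 := by simp [out, acts_zero]
  have a1 := out_add_le α0 0 A
  have a2 := le_out_add α0 0 A
  have a3 := out_add_le α1 0 A
  have a4 := le_out_add α1 0 A
  rw [Nat.zero_add] at a1 a2 a3 a4
  have ex : x ≤ out α0 A + tol H R := by
    rcases hx2 with h | h
    · obtain ⟨e, rfl⟩ := Nat.exists_eq_add_of_le hx1
      rw [out_succ] at h
      have := ed_ge_of_lt (α0 A) (e := e) (by omega)
      have h' : edits α0 A 1 ≤ tol H R := hE0.edits_le le_rfl (by omega) (by omega)
      rw [edits_succ, edits_zero] at h'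
      omega
    · omega
  omega

/-- structure of a trace which is clean near `A` -/
lemma clean_split (hC : Clean H α1 A) (hA : cw H ≤ A) (hAM : A + cw H ≤ M) {c : ℕ}
    (hc1 : A ≤ c + cw H) (hc2 : c ≤ A + cw H) :
    out α1 c + A = out α1 A + c ∧
    (seg S α1 0 M).take (out α1 c) = seg S α1 0 (A - cw H) ++ sub S (A - cw H) (c - (A - cw H)) ∧
    ∃ rest, (seg S α1 0 M).drop (out α1 c) = sub S c (A + cw H - c) ++ rest := by
  unfold Clean at hC
  have hcl : ∀ a n, A - cw H ≤ a → a + n ≤ A - cw H + 2 * cw H → edits α1 a n = 0 := by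
    intro a n h1 h2
    have := edits_le_of_subset α1 h1 h2
    omega
  have hout : ∀ c, A ≤ c + cw H → c ≤ A + cw H →
      out α1 c = out α1 (A - cw H) + (c - (A - cw H)) := by
    intro c h1 h2
    obtain ⟨d, hd⟩ := Nat.exists_eq_add_of_le (show A - cw H ≤ c by omega)
    have he := hcl (A - cw H) d le_rfl (by omega)
    have g1 := out_add_le α1 (A - cw H) d
    have g2 := le_out_add α1 (A - cw H) d
    rw [he] at g1 g2
    rw [hd]; omega
  refine ⟨?_, ?_, ?_⟩
  · have h1 := hout c hc1 hc2
    have h2 := hout A (by omega) (by omega)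
    omega
  · rw [take_seg' S α1 (by omega : c ≤ M)]
    obtain ⟨d, hd⟩ := Nat.exists_eq_add_of_le (show A - cw H ≤ c by omega)
    have h1 := seg_add S α1 0 (A - cw H) d
    rw [Nat.zero_add, ← hd] at h1
    rw [h1, clean_seg (hcl _ _ le_rfl (by omega))]
    congr 2; omega
  · obtain ⟨n, hn⟩ := Nat.exists_eq_add_of_le (show c ≤ M by omega)
    have h1 := seg_add S α1 0 c n
    rw [Nat.zero_add, ← hn] at h1
    rw [h1, out_eq_length S, List.drop_left']
    · obtain ⟨k, hk⟩ := Nat.exists_eq_add_of_le (show A + cw H - c ≤ n by omega)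
      rw [hk, seg_add, clean_seg (hcl _ _ (by omega) (by omega))]
      exact ⟨_, rfl⟩
    · rfl

lemma clean_win (hC : Clean H α1 A) (hA : cw H ≤ A) (hAM : A + cw H ≤ M) {c W : ℕ}
    (hc1 : A ≤ c + 512 * H) (hc2 : c ≤ A + 512 * H) (hW : W ≤ 2^18 * H) :
    win (seg S α1 0 M) (out α1 c) W = sub S (c - W) W := by
  have hcw : cw H = 2^19 * H := rfl
  obtain ⟨h1, h2, h3⟩ := clean_split (S := S) hC hA hAM (c := c) (by omega) (by omega)
  have hl := congrArg List.length h2
  rw [List.length_append, sub_length, List.length_take, min_eq_left] at hl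
  · unfold win
    rw [h2]
    have e1 : out α1 c - W = (seg S α1 0 (A - cw H)).length + (c - (A - cw H) - W) := by omega
    rw [e1, List.drop_length_add_append]
    have e2 : sub S (A - cw H) (c - (A - cw H))
        = sub S (A - cw H) (c - (A - cw H) - W) ++ sub S (c - W) W := by
      have := sub_add S (A - cw H) (c - (A - cw H) - W) W
      rw [show c - (A - cw H) - W + W = c - (A - cw H) by omega,
        show A - cw H + (c - (A - cw H) - W) = c - W by omega] at this
      exact this
    rw [e2, List.drop_left']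
    simp
  · rw [← out_eq_length]; exact out_mono _ (by omega)

/-- local condition in terms of the string -/
def LCond (H R : ℕ) (w : ℕ → List Bool) (S : ℕ → Bool) (c : ℕ) : Prop :=
  ∀ r ≤ R, r < 7 → Ind (16 * tol H r) (w (wid H r)) (sub S (c - wid H r) (wid H r))

/-- the stopping rule on a clean trace -/
lemma stop_clean (hH : 1 ≤ H) (hR : 1 ≤ R) (hE0 : FineE H R α0 A) (hE1 : FineE H R α1 A)
    (hS : FineS H R S A)
    (hA : 2 * wid H R ≤ A) (hA4 : A ≤ 4 * wid H R) (hAM : A + wid H R ≤ M)
    (hx1 : out α0 A ≤ x) (hx2 : x < out α0 (A+1) ∨ x = out α0 A) (hC : Clean H α1 A)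
    (hcA : cw H ≤ A) (hcM : A + cw H ≤ M) :
    ∃ c, c ≤ A + 512 * H ∧ A ≤ c + 512 * H ∧ LCond H R (win (seg S α0 0 M) x) S c ∧
      (∀ c' < c, A ≤ c' + 512 * H → ¬ LCond H R (win (seg S α0 0 M) x) S c') ∧
      ∀ L ≤ 2^18 * H, ∃ rest, stopL (Phi H R (seg S α0 0 M) x) [] (seg S α1 0 M) = some rest ∧
        rest.take L = sub S c L := by
  have hcw : cw H = 2^19 * H := rfl
  obtain ⟨y, hyl, hy1, hy2, hL, hmin, hst, -⟩ := stop_fine (M := M) hH hE0 hE1 hS hA hA4 hAM hx1 hx2
  have hw7 : ∀ r, r < 7 → wid H r ≤ 2^18 * H := by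
    intro r hr
    have := tol_mono (H := H) (show r ≤ 6 by omega)
    have h6 : tol H 6 = 64 * H := by unfold tol; norm_num
    rw [wid_eq]; omega
  -- position corresponding to `y`
  set c := A + y - out α1 A with hc
  have hoA : 512 * H ≤ out α1 A := by
    have h1 := out_ge_wid hE1 hA (Nat.zero_le R)
    have : wid H 0 = 4096 * H := by simp [wid]
    omega
  have hAbig : 512 * H ≤ A := by omega
  have hc1 : c ≤ A + 512 * H := by omega
  have hc2 : A ≤ c + 512 * H := by omega
  have hyc : ∀ c', A ≤ c' + 512 * H → c' ≤ A + 512 * H → out α1 c' + A = out α1 A + c' :=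
    fun c' h1 h2 => (clean_split (S := S) hC hcA hcM (c := c') (by omega) (by omega)).1
  have hy : out α1 c = y := by have := hyc c hc2 hc1; omega
  have hlen : ∀ c', c' ≤ A + 512 * H → out α1 c' ≤ (seg S α1 0 M).length := by
    intro c' h; rw [← out_eq_length]; exact out_mono _ (by omega)
  have hiff : ∀ c', A ≤ c' + 512 * H → c' ≤ A + 512 * H →
      (Loc H R (seg S α0 0 M) x (seg S α1 0 M) (out α1 c') ↔
        LCond H R (win (seg S α0 0 M) x) S c') := by
    intro c' h1 h2
    have h3 := hyc c' h1 h2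
    rw [loc_iff_local hH hE0 hE1 hA (by omega) hx1 hx2 (by omega) (by omega) (hlen c' h2)]
    unfold LCond
    apply forall₂_congr
    intro r _
    apply forall_congr'
    intro hr
    rw [clean_win hC hcA hcM h1 h2 (hw7 r hr)]
  refine ⟨c, hc1, hc2, (hiff c hc2 hc1).1 (by rw [hy]; exact hL), ?_, ?_⟩
  · intro c' hc' hc'' hcond
    have h3 := hyc c' hc'' (by omega)
    refine hmin (out α1 c') (by omega) ⟨?_, ?_, (hiff c' hc'' (by omega)).2 hcond⟩
    · obtain ⟨r1, r2⟩ := range_ok' hE0 hE1 hA4 hH hx1 hx2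
      have : 2 * H ≤ tol H R := by
        have := tol_mono (H := H) hR
        have h1 : tol H 1 = 2 * H := by unfold tol; ring
        omega
      omega
    · obtain ⟨r1, r2⟩ := range_ok' hE0 hE1 hA4 hH hx1 hx2
      have : 2 * H ≤ tol H R := by
        have := tol_mono (H := H) hR
        have h1 : tol H 1 = 2 * H := by unfold tol; ring
        omega
      omega
  · intro L hLL
    obtain ⟨_, _, rest, h4⟩ := clean_split (S := S) hC hcA hcM (c := c) (by omega) (by omega)
    refine ⟨_, hst, ?_⟩
    rw [← hy, h4]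
    obtain ⟨k, hk⟩ := Nat.exists_eq_add_of_le (show L ≤ A + cw H - c by omega)
    rw [hk, sub_add, List.append_assoc, List.take_left']
    simp

/-- correctness of the majority votes -/
theorem maj_good {m L : ℕ} {αs : Fin m → ℕ → Act} (hH : 1 ≤ H) (hR : 1 ≤ R)
    (hE0 : FineE H R α0 A) (hEs : ∀ i, FineE H R (αs i) A) (hS : FineS H R S A)
    (hA : 2 * wid H R ≤ A) (hA4 : A ≤ 4 * wid H R) (hAM : A + wid H R ≤ M)
    (hcA : cw H ≤ A) (hcM : A + cw H ≤ M) (hL : L ≤ 2^18 * H)
    (hmaj : open Classical in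
      2 * (Finset.univ.filter (fun i : Fin m => ¬ Clean H (αs i) A)).card < m) :
    GoodAcc L H (AccM L H R (seg S α0 0 M) (fun i => seg S (αs i) 0 M)) S α0 A := by
  classical
  intro x hx1 hx2
  -- some clean trace
  have hex : ∃ i, Clean H (αs i) A := by
    by_contra hh
    push Not at hh
    rw [Finset.filter_true_of_mem (fun i _ => hh i)] at hmaj
    simp at hmaj
    omega
  obtain ⟨i0, hi0⟩ := hex
  obtain ⟨c, hc1, hc2, hcc, hcm, hcr⟩ := stop_clean (M := M) hH hR hE0 (hEs i0) hS hA hA4 hAM hx1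
    (Or.inl hx2) hi0 hcA hcM
  have hall : ∀ i, Clean H (αs i) A → ∃ rest,
      stopL (Phi H R (seg S α0 0 M) x) [] (seg S (αs i) 0 M) = some rest ∧
        rest.take L = sub S c L := by
    intro i hi
    obtain ⟨c', hc1', hc2', hcc', hcm', hcr'⟩ := stop_clean (M := M) hH hR hE0 (hEs i) hS hA hA4
      hAM hx1 (Or.inl hx2) hi hcA hcM
    have : c' = c := by
      rcases lt_trichotomy c c' with h | h | h
      · exact absurd hcc (hcm' c h hc2)
      · exact h.symm
      · exact absurd hcc' (hcm c' h hc2')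
    rw [← this]
    exact hcr' L hL
  have hcount : (Finset.univ.filter (fun i : Fin m => Clean H (αs i) A)).card
      + (Finset.univ.filter (fun i : Fin m => ¬ Clean H (αs i) A)).card = m := by
    rw [Finset.card_filter_add_card_filter_not]; simp
  constructor
  · refine ⟨sub S c L, ?_⟩
    simp only [AccM, Set.mem_ofPred_eq]
    have : (Finset.univ.filter (fun i : Fin m => Clean H (αs i) A)).card ≤
        (Finset.univ.filter (fun i : Fin m =>
        ∃ rest, stopL (Phi H R (seg S α0 0 M) x) [] (seg S (αs i) 0 M) = some rest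
          ∧ rest.take L = sub S c L)).card := by
      apply Finset.card_le_card
      intro i hi
      simp only [Finset.mem_filter, Finset.mem_univ, true_and] at hi ⊢
      exact hall i hi
    omega
  · intro v hv
    simp only [AccM, Set.mem_ofPred_eq] at hv
    have hinter : ∃ i, Clean H (αs i) A ∧ ∃ rest,
        stopL (Phi H R (seg S α0 0 M) x) [] (seg S (αs i) 0 M) = some rest ∧ rest.take L = v := by
      by_contra hh
      push Not at hh
      have : (Finset.univ.filter (fun i : Fin m =>
        ∃ rest, stopL (Phi H R (seg S α0 0 M) x) [] (seg S (αs i) 0 M) = some rest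
          ∧ rest.take L = v)).card ≤
          (Finset.univ.filter (fun i : Fin m => ¬ Clean H (αs i) A)).card := by
        apply Finset.card_le_card
        intro i hi
        simp only [Finset.mem_filter, Finset.mem_univ, true_and] at hi ⊢
        intro hcl
        obtain ⟨rest, h1, h2⟩ := hi
        exact hh i hcl rest h1 h2
      omega
    obtain ⟨i, hi, rest, h1, h2⟩ := hinter
    obtain ⟨rest', h1', h2'⟩ := hall i hi
    rw [h1] at h1'
    rw [Option.some.inj h1'] at h2
    exact ⟨c, by omega, by omega, by rw [← h2, h2']⟩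

end

end W5h82.Trace
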