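import Pool.Agent.W5h82.Trace.ActM

/-!
Finite products of probability measures: resampling, independence, Chebyshev.
-/

set_option autoImplicit false

open MeasureTheory ENNReal

namespace W5h82.Trace

section general

variable {ι X : Type*} [Fintype ι] [MeasurableSpace X] [Countable X] [DiscreteMeasurableSpace X]
  (ν : Measure X) [IsProbabilityMeasure ν]

/-- `ω'` on `J`, `ω` elsewhere -/
noncomputable def ov (J : Set ι) (ω ω' : ι → X) : ι → X :=
  open Classical in fun i => if i ∈ J then ω' i else ω i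

omit [Fintype ι] [Countable X] [DiscreteMeasurableSpace X] [MeasurableSpace X] in
lemma ov_mem {J : Set ι} {ω ω' : ι → X} {i : ι} (h : i ∈ J) : ov J ω ω' i = ω' i := by
  simp [ov, h]

omit [Fintype ι] [Countable X] [DiscreteMeasurableSpace X] [MeasurableSpace X] in
lemma ov_not_mem {J : Set ι} {ω ω' : ι → X} {i : ι} (h : i ∉ J) : ov J ω ω' i = ω i := by
  simp [ov, h]

theorem mp_ov (J : Set ι) : MeasurePreserving (fun q : (ι → X) × (ι → X) => ov J q.1 q.2)
    ((Measure.pi fun _ : ι => ν).prod (Measure.pi fun _ : ι => ν)) (Measure.pi fun _ : ι => ν) := by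
  classical
  refine ⟨Measurable.of_discrete, ?_⟩
  symm
  apply Measure.pi_eq
  intro s hs
  rw [Measure.map_apply Measurable.of_discrete (MeasurableSet.univ_pi hs)]
  have : (fun q : (ι → X) × (ι → X) => ov J q.1 q.2) ⁻¹' (Set.pi Set.univ s)
      = (Set.pi Set.univ (fun i => if i ∈ J then Set.univ else s i)) ×ˢ
        (Set.pi Set.univ (fun i => if i ∈ J then s i else Set.univ)) := by
    ext q
    simp only [Set.mem_preimage, Set.mem_pi, Set.mem_univ, forall_const, Set.mem_prod]
    constructor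
    · intro h
      constructor
      · intro i
        by_cases hi : i ∈ J
        · simp [hi]
        · have := h i; rw [ov_not_mem hi] at this; simpa [hi] using this
      · intro i
        by_cases hi : i ∈ J
        · have := h i; rw [ov_mem hi] at this; simpa [hi] using this
        · simp [hi]
    · rintro ⟨h1, h2⟩ i
      by_cases hi : i ∈ J
      · rw [ov_mem hi]; have := h2 i; simpa [hi] using this
      · rw [ov_not_mem hi]; have := h1 i; simpa [hi] using this
  rw [this, Measure.prod_prod, Measure.pi_pi, Measure.pi_pi, ← Finset.prod_mul_distrib]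
  apply Finset.prod_congr rfl
  intro i _
  by_cases hi : i ∈ J <;> simp [hi]

/-- the event depends only on the coordinates in `J` -/
def DepOn (A : Set (ι → X)) (J : Set ι) : Prop :=
  ∀ ω ω' : ι → X, (∀ i ∈ J, ω i = ω' i) → (ω ∈ A ↔ ω' ∈ A)

/-- the function depends only on the coordinates in `J` -/
def FDep {β : Type*} (f : (ι → X) → β) (J : Set ι) : Prop :=
  ∀ ω ω' : ι → X, (∀ i ∈ J, ω i = ω' i) → f ω = f ω'

variable {ν}

theorem indep_events {A B : Set (ι → X)} {J K : Set ι} (hA : DepOn A J) (hB : DepOn B K)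
    (hJK : Disjoint J K) :
    (Measure.pi fun _ : ι => ν) (A ∩ B)
      = (Measure.pi fun _ : ι => ν) A * (Measure.pi fun _ : ι => ν) B := by
  rw [← (mp_ov ν J).measure_preimage (MeasurableSet.of_discrete).nullMeasurableSet]
  have : (fun q : (ι → X) × (ι → X) => ov J q.1 q.2) ⁻¹' (A ∩ B) = B ×ˢ A := by
    ext q
    simp only [Set.mem_preimage, Set.mem_inter_iff, Set.mem_prod]
    have h1 : ov J q.1 q.2 ∈ A ↔ q.2 ∈ A := hA _ _ (fun i hi => ov_mem hi)
    have h2 : ov J q.1 q.2 ∈ B ↔ q.1 ∈ B := hB _ _ (fun i hi => ov_not_mem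
      (fun h => Set.disjoint_left.1 hJK h hi))
    rw [h1, h2]; tauto
  rw [this, Measure.prod_prod, mul_comm]

theorem indep_integral {f g : (ι → X) → ℝ} {J K : Set ι} (hf : FDep f J) (hg : FDep g K)
    (hJK : Disjoint J K) :
    ∫ ω, f ω * g ω ∂(Measure.pi fun _ : ι => ν)
      = (∫ ω, f ω ∂(Measure.pi fun _ : ι => ν)) * (∫ ω, g ω ∂(Measure.pi fun _ : ι => ν)) := by
  conv_lhs => rw [← (mp_ov ν J).map_eq]
  rw [integral_map (Measurable.of_discrete).aemeasurable
    (Measurable.of_discrete).aestronglyMeasurable]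
  have : ∀ q : (ι → X) × (ι → X), f (ov J q.1 q.2) * g (ov J q.1 q.2) = g q.1 * f q.2 := by
    intro q
    rw [hf (ov J q.1 q.2) q.2 (fun i hi => ov_mem hi),
      hg (ov J q.1 q.2) q.1 (fun i hi => ov_not_mem (fun h => Set.disjoint_left.1 hJK h hi)),
      mul_comm]
  simp only [this]
  rw [integral_prod_mul (μ := Measure.pi fun _ : ι => ν) (ν := Measure.pi fun _ : ι => ν) g f,
    mul_comm]

/-- conditioning on the coordinates outside `J` -/
theorem measure_le_of_fiber {A : Set (ι → X)} (J : Set ι) (q : ℝ≥0∞)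
    (h : ∀ ω, (Measure.pi fun _ : ι => ν) {ω' | ov J ω ω' ∈ A} ≤ q) :
    (Measure.pi fun _ : ι => ν) A ≤ q := by
  rw [← (mp_ov ν J).measure_preimage (MeasurableSet.of_discrete).nullMeasurableSet,
    Measure.prod_apply MeasurableSet.of_discrete]
  calc _ ≤ ∫⁻ _ : ι → X, q ∂(Measure.pi fun _ : ι => ν) := lintegral_mono (fun ω => h ω)
    _ = q := by simp

/-- indicator as a real function -/
noncomputable def ind {Ω : Type*} (A : Set Ω) : Ω → ℝ := A.indicator (fun _ => 1)

lemma ind_le {Ω : Type*} (A : Set Ω) (ω : Ω) : |ind A ω| ≤ 1 := by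
  unfold ind Set.indicator
  split <;> simp

lemma ind_nonneg {Ω : Type*} (A : Set Ω) (ω : Ω) : 0 ≤ ind A ω := by
  unfold ind Set.indicator
  split <;> simp

lemma integral_ind {Ω : Type*} [MeasurableSpace Ω] [DiscreteMeasurableSpace Ω] (μ : Measure Ω)
    [IsFiniteMeasure μ] (A : Set Ω) : ∫ ω, ind A ω ∂μ = μ.real A := by
  unfold ind
  rw [integral_indicator MeasurableSet.of_discrete]
  simp

lemma FDep.ind {A : Set (ι → X)} {J : Set ι} (h : DepOn A J) : FDep (Trace.ind A) J := by
  intro ω ω' e
  unfold Trace.ind Set.indicator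
  have := h ω ω' e
  by_cases hA : ω ∈ A
  · simp [hA, this.1 hA]
  · have hA' : ω' ∉ A := fun h' => hA (this.2 h')
    simp [hA, hA']

/-- second moment of a sum of centred variables, most pairs uncorrelated -/
theorem sq_sum_le {Ω : Type*} [MeasurableSpace Ω] [DiscreteMeasurableSpace Ω] (μ : Measure Ω)
    [IsProbabilityMeasure μ] {κ : Type*} (s : Finset κ) (f : κ → Ω → ℝ) (K : ℝ)
    (hK : ∀ k ω, |f k ω| ≤ K) (rel : κ → κ → Prop) [DecidableRel rel] (q : ℝ) (N : ℕ)
    (h1 : ∀ k ∈ s, ∀ l ∈ s, rel k l → ∫ ω, f k ω * f l ω ∂μ ≤ q)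
    (h2 : ∀ k ∈ s, ∀ l ∈ s, ¬ rel k l → ∫ ω, f k ω * f l ω ∂μ = 0) (hq : 0 ≤ q)
    (hN : ∀ k ∈ s, (s.filter (fun l => rel k l)).card ≤ N) :
    ∫ ω, (∑ k ∈ s, f k ω)^2 ∂μ ≤ s.card * N * q := by
  have e1 : ∀ ω, (∑ k ∈ s, f k ω)^2 = ∑ k ∈ s, ∑ l ∈ s, f k ω * f l ω := by
    intro ω
    rw [sq, Finset.sum_mul_sum]
  simp only [e1]
  have hint : ∀ k l, Integrable (fun ω => f k ω * f l ω) μ := by
    intro k l
    apply integrable_bdd (K * K)
    intro ω
    rw [abs_mul]
    exact mul_le_mul (hK _ _) (hK _ _) (abs_nonneg _) (le_trans (abs_nonneg _) (hK k ω))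
  rw [integral_finsetSum _ (fun k _ => integrable_finsetSum _ (fun l _ => hint k l))]
  calc _ = ∑ k ∈ s, ∑ l ∈ s, ∫ ω, f k ω * f l ω ∂μ := by
        apply Finset.sum_congr rfl
        intro k _
        rw [integral_finsetSum _ (fun l _ => hint k l)]
    _ ≤ ∑ k ∈ s, (N : ℝ) * q := by
        apply Finset.sum_le_sum
        intro k hk
        calc ∑ l ∈ s, ∫ ω, f k ω * f l ω ∂μ
            ≤ ∑ l ∈ s, (if rel k l then q else 0) := by
              apply Finset.sum_le_sum
              intro l hl
              by_cases hr : rel k l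
              · simpa [hr] using h1 k hk l hl hr
              · simp [hr, h2 k hk l hl hr]
          _ = ((s.filter (fun l => rel k l)).card : ℝ) * q := by
              rw [← Finset.sum_filter, Finset.sum_const, nsmul_eq_mul]
          _ ≤ (N : ℝ) * q := by
              apply mul_le_mul_of_nonneg_right _ hq
              exact_mod_cast hN k hk
    _ = s.card * N * q := by
        rw [Finset.sum_const, nsmul_eq_mul]; ring

/-- Chebyshev / Markov inequality for a square -/
theorem cheb {Ω : Type*} [MeasurableSpace Ω] [DiscreteMeasurableSpace Ω] (μ : Measure Ω)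
    [IsProbabilityMeasure μ] (f : Ω → ℝ) (K : ℝ) (hK : ∀ ω, |f ω| ≤ K) {t : ℝ} (ht : 0 < t)
    {V : ℝ} (hV : ∫ ω, (f ω)^2 ∂μ ≤ V) :
    μ.real {ω | t ≤ |f ω|} ≤ V / t^2 := by
  rw [le_div_iff₀ (by positivity), mul_comm, ← integral_ind μ, ← integral_const_mul]
  refine le_trans ?_ hV
  apply integral_mono
  · apply integrable_bdd (t^2)
    intro ω
    rw [abs_mul, abs_of_pos (by positivity : 0 < t^2)]
    have := ind_le {ω | t ≤ |f ω|} ω
    nlinarith [sq_nonneg t]
  · apply integrable_bdd (K^2)
    intro ω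
    rw [abs_pow]
    exact pow_le_pow_left₀ (abs_nonneg _) (hK ω) 2
  · intro ω
    simp only
    unfold ind Set.indicator
    split
    · rename_i h
      simp only [Set.mem_ofPred_eq] at h
      rw [mul_one, ← sq_abs (f ω)]
      exact pow_le_pow_left₀ ht.le h 2
    · simp only [mul_zero]; positivity

/-- Chebyshev for the number of bad positions: the events are local. -/
theorem count_bad {n D : ℕ} (Bad : ℕ → Set (ι → X)) (q : ℝ) (hq0 : 0 ≤ q)
    (hq : ∀ a < n, (Measure.pi fun _ : ι => ν).real (Bad a) ≤ q)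
    (J : ℕ → Set ι) (hJ : ∀ a < n, DepOn (Bad a) (J a))
    (hdis : ∀ a < n, ∀ b < n, a + D < b → Disjoint (J a) (J b)) {t : ℝ} (ht : 0 < t) :
    (Measure.pi fun _ : ι => ν).real
      {ω | n * q + t ≤ ∑ a ∈ Finset.range n, ind (Bad a) ω} ≤ n * (2*D+1) * q / t^2 := by
  classical
  set μ := (Measure.pi fun _ : ι => ν) with hμ
  set m : ℕ → ℝ := fun a => μ.real (Bad a) with hm
  have hm1 : ∀ a, 0 ≤ m a ∧ m a ≤ 1 := fun a => ⟨measureReal_nonneg, measureReal_le_one⟩
  have hK : ∀ (k : ℕ) ω, |ind (Bad k) ω - m k| ≤ 1 := by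
    intro k ω
    have a1 := ind_nonneg (Bad k) ω
    have a2 := ind_le (Bad k) ω
    rw [abs_of_nonneg a1] at a2
    rw [abs_le]; constructor <;> linarith [(hm1 k).1, (hm1 k).2]
  have hcov : ∀ a b, ∫ ω, (ind (Bad a) ω - m a) * (ind (Bad b) ω - m b) ∂μ
      = μ.real (Bad a ∩ Bad b) - m a * m b := by
    intro a b
    have e : ∀ ω, (ind (Bad a) ω - m a) * (ind (Bad b) ω - m b)
        = ind (Bad a ∩ Bad b) ω - (m b * ind (Bad a) ω + (m a * ind (Bad b) ω - m a * m b)) := by
      intro ω
      have : ind (Bad a ∩ Bad b) ω = ind (Bad a) ω * ind (Bad b) ω := by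
        unfold ind Set.indicator
        by_cases h1 : ω ∈ Bad a <;> by_cases h2 : ω ∈ Bad b <;> simp [h1, h2]
      rw [this]; ring
    simp only [e]
    have i1 : ∀ a, Integrable (ind (Bad a)) μ := fun a => integrable_bdd 1 (ind_le _)
    rw [integral_sub (integrable_bdd 1 (ind_le _)), integral_add ((i1 a).const_mul _),
      integral_sub ((i1 b).const_mul _) (integrable_const _), integral_const_mul,
      integral_const_mul, integral_ind, integral_ind, integral_ind]
    · simp [hm]; ring
    · exact ((i1 b).const_mul _).sub (integrable_const _)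
    · exact ((i1 a).const_mul _).add (((i1 b).const_mul _).sub (integrable_const _))
  have hV := sq_sum_le μ (Finset.range n) (fun a ω => ind (Bad a) ω - m a) 1 hK
    (fun a b => a ≤ b + D ∧ b ≤ a + D) q (2*D+1)
    (by
      intro a ha b hb _
      rw [hcov]
      have h1 : μ.real (Bad a ∩ Bad b) ≤ μ.real (Bad a) := measureReal_mono Set.inter_subset_left
      have h2 := hq a (Finset.mem_range.1 ha)
      have h3 : 0 ≤ m a * m b := mul_nonneg (hm1 a).1 (hm1 b).1
      linarith)
    (by
      intro a ha b hb hr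
      rw [hcov]
      have hd : Disjoint (J a) (J b) := by
        rcases lt_or_ge (a + D) b with h | h
        · exact hdis a (Finset.mem_range.1 ha) b (Finset.mem_range.1 hb) h
        · have : b + D < a := by
            by_contra hh
            exact hr ⟨by omega, by omega⟩
          exact (hdis b (Finset.mem_range.1 hb) a (Finset.mem_range.1 ha) this).symm
      have := indep_events (ν := ν) (hJ a (Finset.mem_range.1 ha)) (hJ b (Finset.mem_range.1 hb)) hd
      simp only [hm, measureReal_def]
      rw [← hμ] at this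
      rw [this, ENNReal.toReal_mul, sub_self])
    hq0
    (by
      intro a ha
      calc _ ≤ (Finset.Icc (a - D) (a + D)).card := by
            apply Finset.card_le_card
            intro b hb
            simp only [Finset.mem_filter, Finset.mem_range, Finset.mem_Icc] at hb ⊢
            omega
        _ ≤ 2*D+1 := by rw [Nat.card_Icc]; omega)
  have hb : ∀ ω, |∑ a ∈ Finset.range n, (ind (Bad a) ω - m a)| ≤ n := by
    intro ω
    calc _ ≤ ∑ a ∈ Finset.range n, |ind (Bad a) ω - m a| := Finset.abs_sum_le_sum_abs _ _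
      _ ≤ ∑ a ∈ Finset.range n, (1:ℝ) := Finset.sum_le_sum (fun a _ => hK a ω)
      _ = n := by simp
  have hc := cheb μ (fun ω => ∑ a ∈ Finset.range n, (ind (Bad a) ω - m a)) n hb ht hV
  refine le_trans (measureReal_mono ?_) (hc.trans_eq ?_)
  · intro ω hω
    simp only [Set.mem_ofPred_eq] at hω ⊢
    rw [Finset.sum_sub_distrib]
    have : ∑ a ∈ Finset.range n, m a ≤ n * q := by
      calc _ ≤ ∑ a ∈ Finset.range n, q :=
            Finset.sum_le_sum (fun a ha => hq a (Finset.mem_range.1 ha))
        _ = n * q := by simp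
    have h2 := le_abs_self (∑ a ∈ Finset.range n, ind (Bad a) ω - ∑ a ∈ Finset.range n, m a)
    linarith
  · simp only [Finset.card_range]
    push_cast
    ring

end general

end W5h82.Trace
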