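import Pool.Agent.W5h82.Trace.Inv
import Pool.Agent.W5h82.Trace.Loc

/-!
The stopping rule given by the localiser.
-/

set_option autoImplicit false

namespace W5h82.Trace

open Classical in
/-- the rest of the output at the first time when the history satisfies `Φ` -/
noncomputable def stopL (Φ : List Bool → Prop) : List Bool → List Bool → Option (List Bool)
  | h, [] => if Φ h then some [] else none
  | h, b :: t => if Φ h then some (b :: t) else stopL Φ (h ++ [b]) t

/-- pointer after `y` outputs -/
def ptrAt (cur : ℕ) (e : List (Bool × ℕ)) (y : ℕ) : ℕ :=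
  match y with
  | 0 => cur
  | k+1 => (e.getD k (false, 0)).2

open Classical in
/-- the pointer at the first time when the history satisfies `Φ` -/
noncomputable def stopQ (Φ : List Bool → Prop) : List Bool → ℕ → List (Bool × ℕ) → Option ℕ
  | h, cur, [] => if Φ h then some cur else none
  | h, cur, (b, q) :: e => if Φ h then some cur else stopQ Φ (h ++ [b]) q e

lemma stopP_eq_elim (Φ : List Bool → Prop) (f : ℕ → ℝ) (e : List (Bool × ℕ)) :
    ∀ (h : List Bool) (cur : ℕ), stopP Φ f h cur e = (stopQ Φ h cur e).elim 0 f := by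
  induction e with
  | nil =>
    intro h cur
    by_cases hh : Φ h <;> simp [stopP, stopQ, hh]
  | cons x e ih =>
    intro h cur
    obtain ⟨b, q⟩ := x
    by_cases hh : Φ h
    · simp [stopP, stopQ, hh]
    · simp [stopP, stopQ, hh, ih]

lemma stop_spec (Φ : List Bool → Prop) (g : List Bool → ℝ) (f : ℕ → ℝ) (e : List (Bool × ℕ)) :
    ∀ (h : List Bool) (cur : ℕ),
    ((∀ y ≤ e.length, ¬ Φ (h ++ (e.map Prod.fst).take y)) ∧ stopP Φ f h cur e = 0 ∧
      stopG Φ g h e = 0 ∧ stopL Φ h (e.map Prod.fst) = none) ∨
    (∃ y ≤ e.length, Φ (h ++ (e.map Prod.fst).take y) ∧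
      (∀ y' < y, ¬ Φ (h ++ (e.map Prod.fst).take y')) ∧ stopP Φ f h cur e = f (ptrAt cur e y) ∧
      stopG Φ g h e = g ((e.map Prod.fst).drop y) ∧
      stopL Φ h (e.map Prod.fst) = some ((e.map Prod.fst).drop y) ∧
      stopQ Φ h cur e = some (ptrAt cur e y)) := by
  induction e with
  | nil =>
    intro h cur
    by_cases hh : Φ h
    · right
      exact ⟨0, le_rfl, by simpa using hh, by simp, by simp [stopP, hh, ptrAt],
        by simp [stopG, hh], by simp [stopL, hh], by simp [stopQ, hh, ptrAt]⟩
    · left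
      refine ⟨?_, by simp [stopP, hh], by simp [stopG, hh], by simp [stopL, hh]⟩
      intro y _
      simpa using hh
  | cons x e ih =>
    intro h cur
    obtain ⟨b, q⟩ := x
    by_cases hh : Φ h
    · right
      refine ⟨0, by omega, by simpa using hh, by simp, by simp [stopP, hh, ptrAt],
        by simp [stopG, hh], by simp [stopL, hh], by simp [stopQ, hh, ptrAt]⟩
    · rcases ih (h ++ [b]) q with ⟨h1, h2, h3, h4⟩ | ⟨y, hy, h1, h2, h3, h4, h5, h6⟩
      · left
        refine ⟨?_, by simp [stopP, hh, h2], by simp [stopG, hh, h3],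
          by simpa [stopL, hh] using h4⟩
        intro y hy
        cases y with
        | zero => simpa using hh
        | succ y =>
          have := h1 y (by simpa using hy)
          simpa using this
      · right
        have hptr : ptrAt cur ((b, q) :: e) (y+1) = ptrAt q e y := by
          cases y with
          | zero => simp [ptrAt]
          | succ y => simp [ptrAt]
        refine ⟨y+1, by simpa using hy, by simpa using h1, ?_, ?_, by simpa [stopG, hh] using h4,
          by simpa [stopL, hh] using h5, by rw [hptr]; simpa [stopQ, hh] using h6⟩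
        · intro y' hy'
          cases y' with
          | zero => simpa using hh
          | succ y' =>
            have := h2 y' (by omega)
            simpa using this
        · simp only [stopP, hh, ↓reduceIte, h3]
          cases y with
          | zero => simp [ptrAt]
          | succ y => simp [ptrAt]

lemma stopG_eq_elim (Φ : List Bool → Prop) (g : List Bool → ℝ) (e : List (Bool × ℕ))
    (h : List Bool) : stopG Φ g h e = (stopL Φ h (e.map Prod.fst)).elim 0 g := by
  rcases stop_spec Φ g (fun _ => 0) e h 0 with ⟨_, _, h3, h4⟩ | ⟨y, _, _, _, _, h4, h5, _⟩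
  · rw [h3, h4]; rfl
  · rw [h4, h5]; rfl

/-- specification of `stopL` alone -/
lemma stopL_spec (Φ : List Bool → Prop) (t : List Bool) :
    ((∀ y ≤ t.length, ¬ Φ (t.take y)) ∧ stopL Φ [] t = none) ∨
    (∃ y ≤ t.length, Φ (t.take y) ∧ (∀ y' < y, ¬ Φ (t.take y')) ∧
      stopL Φ [] t = some (t.drop y)) := by
  have h := stop_spec Φ (fun _ => 0) (fun _ => 0) (t.map (fun b => (b, 0))) [] 0
  have e : (t.map (fun b => ((b, 0) : Bool × ℕ))).map Prod.fst = t := by
    rw [List.map_map]; simp [Function.comp_def]
  rw [e] at h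
  rcases h with ⟨h1, _, _, h4⟩ | ⟨y, hy, h1, h2, _, _, h5, _⟩
  · left
    refine ⟨?_, h4⟩
    intro y hy
    simpa using h1 y (by simpa using hy)
  · right
    refine ⟨y, by simpa using hy, by simpa using h1, ?_, h5⟩
    intro y' hy'
    simpa using h2 y' hy'

lemma emL_length (S : ℕ → Bool) (a : ℕ) (l : List Act) : (emL S a l).length = (l.map plen).sum := by
  rw [← segL_length S a l, ← emL_fst, List.length_map]

/-- the pointer after `y` outputs is where it should be -/
lemma ptr_bound (S : ℕ → Bool) (α : ℕ → Act) (n : ℕ) : ∀ (a y : ℕ),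
    y ≤ (emL S a (acts α a n)).length →
    a ≤ ptrAt a (emL S a (acts α a n)) y ∧ ptrAt a (emL S a (acts α a n)) y ≤ a + n ∧
    out α (ptrAt a (emL S a (acts α a n)) y) ≤ out α a + y ∧
    out α a + y ≤ out α (ptrAt a (emL S a (acts α a n)) y + 1) := by
  induction n with
  | zero =>
    intro a y hy
    have : y = 0 := by simpa [acts_zero, emL] using hy
    subst this
    simp only [ptrAt]
    exact ⟨le_rfl, le_rfl, le_rfl, out_mono _ (by omega)⟩
  | succ n ih =>
    intro a y hy
    rcases Nat.eq_zero_or_pos y with rfl | hpos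
    · simp only [ptrAt]
      exact ⟨le_rfl, by omega, le_rfl, out_mono _ (by omega)⟩
    obtain ⟨k, rfl⟩ : ∃ k, y = k + 1 := ⟨y - 1, by omega⟩
    rw [acts_succ] at hy ⊢
    rw [emL] at hy ⊢
    set E1 := (α a).1.map (fun b => ((b, a) : Bool × ℕ)) with hE1
    set E2 : List (Bool × ℕ) := (if (α a).2 then [(S a, a+1)] else []) with hE2
    have hE2len : E2.length = if (α a).2 then 1 else 0 := by
      rw [hE2]; split <;> simp
    have hE1len : E1.length = (α a).1.length := by simp [hE1]
    have hplen : plen (α a) = E1.length + E2.length := by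
      rw [hE1len, hE2len]; rfl
    have ho1 := out_succ α a
    rcases lt_or_ge k E1.length with h1 | h1
    · -- inside the insertions
      have e : ptrAt a (E1 ++ (E2 ++ emL S (a+1) (acts α (a+1) n))) (k+1) = a := by
        simp only [ptrAt]
        rw [List.getD_append _ _ _ _ h1, List.getD_eq_getElem _ _ h1]
        simp [hE1]
      rw [e]
      refine ⟨le_rfl, by omega, by omega, by omega⟩
    · rcases lt_or_ge (k - E1.length) E2.length with h2 | h2
      · -- the copied character
        have hk : (α a).2 = true := by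
          by_contra hh
          simp only [Bool.not_eq_true] at hh
          simp [hE2len, hh] at h2
        have hE2' : E2 = [(S a, a+1)] := by simp [hE2, hk]
        have h3 : k - E1.length = 0 := by rw [hE2'] at h2; simpa using h2
        have e : ptrAt a (E1 ++ (E2 ++ emL S (a+1) (acts α (a+1) n))) (k+1) = a+1 := by
          simp only [ptrAt]
          rw [List.getD_append_right _ _ _ _ h1, h3, hE2']
          simp
        rw [e]
        have h4 : E2.length = 1 := by rw [hE2']; rfl
        refine ⟨by omega, by omega, by omega, ?_⟩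
        have := out_mono α (show a+1 ≤ a+1+1 by omega)
        omega
      · -- later
        have h3 : k + 1 = (E1.length + E2.length) + (k - E1.length - E2.length + 1) := by omega
        have e : ptrAt a (E1 ++ (E2 ++ emL S (a+1) (acts α (a+1) n))) (k+1)
            = ptrAt (a+1) (emL S (a+1) (acts α (a+1) n)) (k - E1.length - E2.length + 1) := by
          simp only [ptrAt]
          rw [List.getD_append_right _ _ _ _ h1, List.getD_append_right _ _ _ _ h2]
        rw [e]
        simp only [List.length_append] at hy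
        obtain ⟨i1, i2, i3, i4⟩ := ih (a+1) (k - E1.length - E2.length + 1) (by omega)
        refine ⟨by omega, by omega, by omega, by omega⟩

/-- the predicate on histories used by the decoder -/
def Phi (H R : ℕ) (u : List Bool) (x : ℕ) (h : List Bool) : Prop :=
  x ≤ h.length + 512 * tol H R ∧ h.length ≤ x + 512 * tol H R ∧ Loc H R u x h h.length

lemma Phi_take {H R : ℕ} {u t : List Bool} {x y : ℕ} (hy : y ≤ t.length) :
    Phi H R u x (t.take y) ↔ (x ≤ y + 512 * tol H R ∧ y ≤ x + 512 * tol H R ∧ Loc H R u x t y) := by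
  unfold Phi Loc
  have hl : (t.take y).length = y := by simp [hy]
  rw [hl]
  have : ∀ w, win (t.take y) y w = win t y w := fun w => win_take le_rfl
  simp only [this]

section
variable {H R M : ℕ} {S : ℕ → Bool} {α0 α1 : ℕ → Act} {A x : ℕ}

lemma range_ok (hE0 : FineE H R α0 A) (hE1 : FineE H R α1 A) (hA4 : A ≤ 4 * wid H R)
    (hH : 1 ≤ H)
    (hx1 : out α0 A ≤ x) (hx2 : x < out α0 (A+1) ∨ x = out α0 A) :
    x ≤ out α1 A + 512 * tol H R ∧ out α1 A ≤ x + 512 * tol H R := by
  have hposR : 1 ≤ tol H R := tol_pos hH R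
  have hwR := wid_eq H R
  have e0 : edits α0 0 A ≤ tol H R := hE0.edits_le le_rfl (by omega) (by omega)
  have e1 : edits α1 0 A ≤ tol H R := hE1.edits_le le_rfl (by omega) (by omega)
  have o0 : out α0 0 = 0 := by simp [out, acts_zero]
  have o1 : out α1 0 = 0 := by simp [out, acts_zero]
  have a1 := out_add_le α0 0 A
  have a2 := le_out_add α0 0 A
  have a3 := out_add_le α1 0 A
  have a4 := le_out_add α1 0 A
  rw [Nat.zero_add] at a1 a2 a3 a4
  have ex : x ≤ out α0 A + tol H R := by
    rcases hx2 with h | h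
    · obtain ⟨e, rfl⟩ := Nat.exists_eq_add_of_le hx1
      rw [out_succ] at h
      have := ed_ge_of_lt (α0 A) (e := e) (by omega)
      have h' : edits α0 A 1 ≤ tol H R := hE0.edits_le le_rfl (by omega) (by omega)
      rw [edits_succ, edits_zero] at h'
      omega
    · omega
  omega

/-- main property of the stopping rule -/
lemma stop_fine (hH : 1 ≤ H) (hE0 : FineE H R α0 A) (hE1 : FineE H R α1 A) (hS : FineS H R S A)
    (hA : 2 * wid H R ≤ A) (hA4 : A ≤ 4 * wid H R) (hAM : A + wid H R ≤ M)
    (hx1 : out α0 A ≤ x) (hx2 : x < out α0 (A+1) ∨ x = out α0 A) :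
    ∃ y ≤ (seg S α1 0 M).length, y ≤ out α1 A + 512 * H ∧ out α1 A ≤ y + 512 * H ∧
      Loc H R (seg S α0 0 M) x (seg S α1 0 M) y ∧
      (∀ y' < y, ¬ (x ≤ y' + 512 * tol H R ∧ y' ≤ x + 512 * tol H R ∧
        Loc H R (seg S α0 0 M) x (seg S α1 0 M) y')) ∧
      stopL (Phi H R (seg S α0 0 M) x) [] (seg S α1 0 M) = some ((seg S α1 0 M).drop y) ∧
      ∃ q, q ≤ A + 1024 * H ∧ A ≤ q + 1024 * H ∧ q ≤ M ∧
        stopQ (Phi H R (seg S α0 0 M) x) [] 0 (emL S 0 (acts α1 0 M)) = some q := by
  have hwpos : 1 ≤ wid H R := by have := tol_pos hH R; rw [wid_eq]; omega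
  set t := seg S α1 0 M with ht
  set Φ := Phi H R (seg S α0 0 M) x with hΦ
  have hmap : (emL S 0 (acts α1 0 M)).map Prod.fst = t := by rw [emL_fst]; rfl
  have hlen : (emL S 0 (acts α1 0 M)).length = t.length := by rw [← hmap]; simp
  have hout : out α1 A ≤ t.length := by
    rw [ht, ← out_eq_length]; exact out_mono _ (by omega)
  have htrue : Φ (t.take (out α1 A)) := by
    rw [hΦ, Phi_take hout]
    obtain ⟨r1, r2⟩ := range_ok hE0 hE1 hA4 hH hx1 hx2
    exact ⟨r1, r2, loc_true hH hE0 hE1 hA (by omega) hx1 hx2⟩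
  have hspec := stop_spec Φ (fun _ => 0) (fun _ => 0) (emL S 0 (acts α1 0 M)) [] 0
  rw [hmap, hlen] at hspec
  simp only [List.nil_append] at hspec
  rcases hspec with ⟨h1, _⟩ | ⟨y, hy, h1, h2, h3, h4, h5, h6⟩
  · exact absurd htrue (h1 _ hout)
  · have h1' := (Phi_take hy).1 h1
    obtain ⟨u1, u2⟩ := loc_unique hH hE0 hE1 hS hA hA4 hAM hx1 hx2 h1'.2.2 h1'.2.1 h1'.1
    have hpb := ptr_bound S α1 M 0 y (by rw [hlen]; exact hy)
    rw [show out α1 0 = 0 by simp [out, acts_zero]] at hpb
    simp only [Nat.zero_add] at hpb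
    obtain ⟨_, b2, b3, b4⟩ := hpb
    have e0 : tol H 0 = H := by simp [tol]
    have w0 : wid H 0 = 4096 * H := by simp [wid]
    have hwR : wid H 0 ≤ wid H R := by
      have := tol_mono (H := H) (Nat.zero_le R); rw [wid_eq, wid_eq]; omega
    refine ⟨y, hy, u1, u2, h1'.2.2, ?_, h5, _, ?_, ?_, b2, h6⟩
    · intro y' hy' hh
      exact h2 y' hy' ((Phi_take (by omega)).2 hh)
    · by_contra hcon
      have g1 := out_mono α1 (show A + 1024 * H ≤ ptrAt 0 (emL S 0 (acts α1 0 M)) y by omega)
      have g2 := le_out_add α1 A (1024 * H)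
      have g3 : edits α1 A (1024 * H) ≤ tol H 0 := hE1.edits_le (Nat.zero_le R) (by omega) (by omega)
      omega
    · by_contra hcon
      have g1 := out_mono α1 (show ptrAt 0 (emL S 0 (acts α1 0 M)) y + 1 ≤ A - 1024 * H by omega)
      have g2 := le_out_add α1 (A - 1024 * H) (1024 * H)
      rw [show A - 1024 * H + 1024 * H = A by omega] at g2
      have g3 : edits α1 (A - 1024 * H) (1024 * H) ≤ tol H 0 :=
        hE1.edits_le (Nat.zero_le R) (by omega) (by omega)
      omega

end

end W5h82.Trace
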