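import Pool.Agent.W5h82.Trace.ApproxP

/-!
The two voting schemes.
-/

set_option autoImplicit false

open MeasureTheory ENNReal

namespace W5h82.Trace

section
variable (p : ℝ) [hp : Fact (0 < p ∧ p < 1)] {κ H R m M : ℕ}

lemma prob_notFineE {κ : ℕ} (hH : 1 ≤ H) (hκ : 1 ≤ κ) (hc : p ≤ (1/2)^(κ+20))
    (hM : M = 16 * wid H R) {A : ℕ} (hA4 : A ≤ 4 * wid H R) (i : Fin m) :
    (mu p m M).real {ω | ¬ FineE H R (ac ω i) A} ≤ 2 * (1/2)^(κ*H) := by
  have h1 : mu p m M {ω | ¬ FineE H R (ac ω i) A} ≤ 2 * (2⁻¹:ℝ≥0∞)^(κ*H) := by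
    calc _ ≤ mu p m M (⋃ r ∈ Finset.range (R+1),
          {ω | tol H r < edits (ac ω i) (A - 4 * wid H r) (8 * wid H r)}) := by
          apply measure_mono
          intro ω hω
          simp only [Set.mem_ofPred_eq, FineE] at hω
          push Not at hω
          obtain ⟨r, hr, hr'⟩ := hω
          simp only [Set.mem_iUnion, Finset.mem_range]
          exact ⟨r, by omega, hr'⟩
      _ ≤ ∑ r ∈ Finset.range (R+1),
          mu p m M {ω | tol H r < edits (ac ω i) (A - 4 * wid H r) (8 * wid H r)} :=
          measure_biUnion_finset_le _ _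
      _ ≤ _ := by
          apply sum_scales hH hκ
          intro r hr
          have := wid_le (H := H) hr
          exact prob_badE1 p hc (by omega) (by omega) i
  rw [measureReal_def]
  have h2 : (2 * (2⁻¹:ℝ≥0∞)^(κ*H)).toReal = 2 * (1/2)^(κ*H) := by
    rw [ENNReal.toReal_mul, ENNReal.toReal_pow]; simp
  rw [← h2]
  exact ENNReal.toReal_mono (ENNReal.mul_ne_top (by simp) (by simp)) h1

/-- the scheme using the approximate inverse of the channel -/
theorem votesD (hH : 100 ≤ H) (hκ : 16484 ≤ κ) (hc : p ≤ (1/2)^(κ+20))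
    (hm : m + 1 ≤ 2^((κ-200)*H)) (hm' : 2^(49352*H) ≤ m) (hM : M = 16 * wid H R) (hR : H ≤ R) :
    Votes p H R m M (fun u ts x => AccD p H (16384*H) H R u ts x)
      (fun A => BVD p H (16384*H) H R m M A) := by
  obtain ⟨h0, hlt⟩ := hp.out
  have hH2 : H < 2^H := Nat.lt_two_pow_self
  have hwR : 4096 * H ≤ wid H R := by
    have h1 := wid_le (H := H) (Nat.zero_le R)
    have : wid H 0 = 4096 * H := by simp [wid]
    omega
  have hbig : 5 * (H+1) + 1 ≤ 2^H := by
    have h1 : ∀ k, 10 ≤ k → 5 * (k+1) + 1 ≤ 2^k := by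
      intro k hk
      induction k, hk using Nat.le_induction with
      | base => norm_num
      | succ k _ ih => rw [pow_succ]; omega
    exact h1 H (by omega)
  have hLI : 16384 * H * (H+1) + 512 * H ≤ 4095 * tol H H := by
    unfold tol
    calc 16384 * H * (H+1) + 512 * H = (16384 * (H+1) + 512) * H := by ring
      _ ≤ (4095 * 2^H) * H := Nat.mul_le_mul_right _ (by omega)
      _ = 4095 * (2^H * H) := by ring
  have hp4 : p ≤ 1/4 := by
    refine hc.trans ?_
    calc (1/2:ℝ)^(κ+20) ≤ (1/2)^2 := pow_le_pow_of_le_one (by norm_num) (by norm_num) (by omega)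
      _ = 1/4 := by norm_num
  refine ⟨?_, fun A => BVD_dep _ _ _ _ _ _ _ _, ?_⟩
  · intro A hA hA4
    have hwHR := wid_le (H := H) hR
    refine (measure_mono (BVD_sub hR (by omega) hA hA4 (by omega) hLI)).trans ?_
    refine (measure_union_le _ _).trans ?_
    have hm0 : 0 < m := lt_of_lt_of_le (by positivity) hm'
    have hmr : (2:ℝ)^(49352*H) ≤ m := by exact_mod_cast hm'
    have hHr : (1:ℝ) ≤ H := by exact_mod_cast (by omega : 1 ≤ H)
    -- the error terms
    have herr : ((p/2)/(1-p))^(H+1) * 2^(16384*H) ≤ (1/2:ℝ)^(100*H) := by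
      have h1 : (p/2)/(1-p) ≤ (1/2)^16484 := by
        calc (p/2)/(1-p) ≤ p := by
              rw [div_le_iff₀ (by linarith)]; nlinarith
          _ ≤ (1/2)^(κ+20) := hc
          _ ≤ (1/2)^16484 := pow_le_pow_of_le_one (by norm_num) (by norm_num) (by omega)
      have h2 : 0 ≤ (p/2)/(1-p) := div_nonneg (by linarith) (by linarith)
      have h3 : (2:ℝ)^(16384*H) * (1/2)^(16384*H) = 1 := by rw [← mul_pow]; norm_num
      calc ((p/2)/(1-p))^(H+1) * 2^(16384*H) ≤ ((1/2)^16484)^(H+1) * 2^(16384*H) :=
            mul_le_mul_of_nonneg_right (pow_le_pow_left₀ h2 h1 _) (by positivity)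
        _ = (1/2)^(16484*(H+1)) * 2^(16384*H) := by rw [← pow_mul]
        _ ≤ (1/2)^(16384*H + 100*H) * 2^(16384*H) := by
            apply mul_le_mul_of_nonneg_right _ (by positivity)
            exact pow_le_pow_of_le_one (by norm_num) (by norm_num) (by omega)
        _ = (2^(16384*H) * (1/2)^(16384*H)) * (1/2)^(100*H) := by rw [pow_add]; ring
        _ = _ := by rw [h3, one_mul]
    have hβ : ∀ i, (mu p (m+1) M).real {ω | ¬ FineE H R (ac ω i) A} ≤ 2 * (1/2)^(16484*H) := by
      intro i
      refine (prob_notFineE p (by omega) (by omega) hc hM hA4 i).trans ?_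
      apply mul_le_mul_of_nonneg_left _ (by norm_num)
      exact pow_le_pow_of_le_one (by norm_num) (by norm_num) (Nat.mul_le_mul_right _ hκ)
    have hx100 : 120000 * (H:ℝ) * (1/2)^(100*H) ≤ 1 := by
      have h1 : 120000 * H ≤ 2^(100*H) := by
        calc 120000 * H ≤ 2^17 * 2^H := by
              norm_num
              omega
          _ = 2^(17+H) := by rw [pow_add]
          _ ≤ 2^(100*H) := Nat.pow_le_pow_right (by norm_num) (by omega)
      have h2 : (120000:ℝ) * H ≤ 2^(100*H) := by exact_mod_cast h1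
      calc 120000 * (H:ℝ) * (1/2)^(100*H) ≤ 2^(100*H) * (1/2)^(100*H) :=
            mul_le_mul_of_nonneg_right h2 (by positivity)
        _ = 1 := by rw [← mul_pow]; norm_num
    have hsmall : (1/2:ℝ)^(100*H) + 2^(16384*H) * (2 * (1/2)^(16484*H)) ≤ 1/(40000*H) := by
      have h3 : (2:ℝ)^(16384*H) * (1/2)^(16384*H) = 1 := by rw [← mul_pow]; norm_num
      have h4 : (2:ℝ)^(16384*H) * (2 * (1/2)^(16484*H)) = 2 * (1/2)^(100*H) := by
        rw [show 16484*H = 16384*H + 100*H by ring, pow_add]
        calc (2:ℝ)^(16384*H) * (2 * ((1/2)^(16384*H) * (1/2)^(100*H)))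
            = (2^(16384*H) * (1/2)^(16384*H)) * (2 * (1/2)^(100*H)) := by ring
          _ = _ := by rw [h3, one_mul]
      rw [h4, le_div_iff₀ (by positivity)]
      linarith
    have hD := prob_BadD p (I := H) (L := 16384*H) (H := H) (R := R) (m := m) (M := M) (A := A)
      hp4 (by omega) hm0 hA hA4 (by omega) (by omega) _ _ herr hβ hsmall
    have hD2 : ENNReal.ofReal ((H+1) * 2^(16384*H) * ((2^(16384*H))^2 / ((1/(40000*H))^2 * m)))
        ≤ (2⁻¹:ℝ≥0∞)^(100*H) := by
      have e1 : (2⁻¹:ℝ≥0∞)^(100*H) = ENNReal.ofReal ((1/2)^(100*H)) := by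
        rw [ENNReal.ofReal_pow (by norm_num)]
        congr 1
        rw [one_div, ENNReal.ofReal_inv_of_pos (by norm_num)]; simp
      rw [e1]
      apply ENNReal.ofReal_le_ofReal
      have hmpos : (0:ℝ) < m := by exact_mod_cast hm0
      have e2 : ((H:ℝ)+1) * 2^(16384*H) * ((2^(16384*H))^2 / ((1/(40000*H))^2 * m))
          = ((H+1) * (40000*H)^2) * (2^(16384*H))^3 / m := by
        field_simp
      rw [e2, div_le_iff₀ hmpos]
      have h5 : ((H:ℝ)+1) * (40000*H)^2 ≤ 2^(100*H) := by
        have h6 : (H+1) * (40000*H)^2 ≤ 2^(100*H) := by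
          calc (H+1) * (40000*H)^2 ≤ 2^H * (2^16 * 2^H)^2 := by
                apply Nat.mul_le_mul (by omega)
                apply Nat.pow_le_pow_left
                norm_num
                omega
            _ = 2^(32 + 3*H) := by rw [← pow_add, ← pow_mul, ← pow_add]; congr 1; ring
            _ ≤ 2^(100*H) := Nat.pow_le_pow_right (by norm_num) (by omega)
        exact_mod_cast h6
      have h7 : (2:ℝ)^(100*H) * (1/2)^(100*H) = 1 := by rw [← mul_pow]; norm_num
      calc ((H:ℝ)+1) * (40000*H)^2 * (2^(16384*H))^3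
          ≤ 2^(100*H) * (2^(16384*H))^3 := mul_le_mul_of_nonneg_right h5 (by positivity)
        _ = (2^(100*H) * (1/2)^(100*H)) * (2^(100*H) * (2^(16384*H))^3) := by rw [h7, one_mul]
        _ = (1/2)^(100*H) * (2^(100*H) * 2^(100*H) * (2^(16384*H))^3) := by ring
        _ = (1/2)^(100*H) * 2^(49352*H) := by
            rw [← pow_mul, ← pow_add, ← pow_add]; congr 2; ring
        _ ≤ (1/2)^(100*H) * m := mul_le_mul_of_nonneg_left hmr (by positivity)
    calc _ ≤ (2⁻¹:ℝ≥0∞)^(100*H) + (2⁻¹:ℝ≥0∞)^(190*H) :=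
          add_le_add (hD.trans hD2) (prob_scales p (by omega) (by omega) hc hm hM (by omega) hA4)
      _ ≤ (2⁻¹:ℝ≥0∞)^(100*H) + (2⁻¹:ℝ≥0∞)^(100*H) :=
          add_le_add le_rfl (pow_le_pow_right_of_le_one' (by simp) (by omega))
      _ ≤ (2⁻¹:ℝ≥0∞)^(60*H) := by
          rw [← two_mul]
          have := pw (a := 1) (b := 100*H) (c := 60*H) (x := 2) (by omega) (by norm_num)
          simpa using this
  · intro A ω _ _ h1 h2
    exact BVD_good h1 h2

/-! ### majority -/

lemma act_ed : act p {x | ed x ≠ 0} = ENNReal.ofReal p := by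
  obtain ⟨h0, hlt⟩ := hp.out
  have h1 : act p {(([], true) : Act)} = ENNReal.ofReal (1-p) := by
    have := lintegral_act p (Set.indicator {(([], true) : Act)} 1)
    rw [lintegral_indicator_one MeasurableSet.of_discrete] at this
    rw [this, tsum_eq_single (([], true) : Act)]
    · simp [wt]
    · intro x hx
      simp [hx]
  have h2 : {x : Act | ed x ≠ 0} = {(([], true) : Act)}ᶜ := by
    ext x
    obtain ⟨l, b⟩ := x
    simp only [Set.mem_ofPred_eq, Set.mem_compl_iff, Set.mem_singleton_iff, ed]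
    cases b <;> simp
  rw [h2, prob_compl_eq_one_sub MeasurableSet.of_discrete, h1,
    show (1:ℝ≥0∞) = ENNReal.ofReal 1 by simp, ← ENNReal.ofReal_sub _ (by linarith)]
  congr 1; ring

lemma actL_ed (n : ℕ) : actL p n {l | (l.map ed).sum ≠ 0} ≤ n * ENNReal.ofReal p := by
  induction n with
  | zero => simp [actL]
  | succ n ih =>
    rw [← lintegral_indicator_one MeasurableSet.of_discrete, lintegral_actL_succ]
    have h1 : ∀ (x : Act) (l : List Act), Set.indicator {l : List Act | (l.map ed).sum ≠ 0}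
        (1 : List Act → ℝ≥0∞) (x :: l) ≤ Set.indicator {x | ed x ≠ 0} (1 : Act → ℝ≥0∞) x +
        Set.indicator {l : List Act | (l.map ed).sum ≠ 0} (1 : List Act → ℝ≥0∞) l := by
      intro x l
      by_cases hx : ed x = 0
      · by_cases hl : (l.map ed).sum = 0
        · simp [Set.indicator, hx, hl]
        · simp [Set.indicator, hx, hl]
      · simp only [Set.indicator, List.map_cons, List.sum_cons, Set.mem_ofPred_eq]
        rw [if_pos (by omega), if_pos hx]
        exact le_self_add
    calc _ ≤ ∫⁻ x, ∫⁻ l, (Set.indicator {x | ed x ≠ 0} (1 : Act → ℝ≥0∞) x +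
        Set.indicator {l : List Act | (l.map ed).sum ≠ 0} (1 : List Act → ℝ≥0∞) l)
          ∂(actL p n) ∂(act p) := lintegral_mono (fun x => lintegral_mono (fun l => h1 x l))
      _ = act p {x | ed x ≠ 0} + actL p n {l | (l.map ed).sum ≠ 0} := by
          have h2 : ∀ x : Act, ∫⁻ l, (Set.indicator {x | ed x ≠ 0} (1 : Act → ℝ≥0∞) x +
              Set.indicator {l : List Act | (l.map ed).sum ≠ 0} (1 : List Act → ℝ≥0∞) l)
                ∂(actL p n) = Set.indicator {x | ed x ≠ 0} (1 : Act → ℝ≥0∞) x +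
                actL p n {l | (l.map ed).sum ≠ 0} := by
            intro x
            rw [lintegral_add_left Measurable.of_discrete,
              lintegral_indicator_one MeasurableSet.of_discrete]
            simp
          simp only [h2]
          rw [lintegral_add_left Measurable.of_discrete,
            lintegral_indicator_one MeasurableSet.of_discrete]
          simp
      _ ≤ ENNReal.ofReal p + n * ENNReal.ofReal p := by
          rw [act_ed]
          exact add_le_add le_rfl ih
      _ = _ := by push_cast; ring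

open Classical in
/-- the bad event of the majority votes -/
def BVM (H m M A : ℕ) : Set (Om (m+1) M) :=
  {ω | m ≤ 2 * (Finset.univ.filter (fun i : Fin m => ¬ Clean H (ac ω i.succ) A)).card}

theorem votesM (hH : 200 ≤ H) (hpp : p^2 ≤ 2 * (1/2)^H) (hm : m = 480)
    (hM : M = 16 * wid H R) (hR : H ≤ R) :
    Votes p H R m M (fun u ts x => AccM (16384*H) H R u ts x) (fun A => BVM H m M A) := by
  classical
  obtain ⟨h0, hlt⟩ := hp.out
  have hcw : cw H = 2^19 * H := rfl
  have hH2 : H < 2^H := Nat.lt_two_pow_self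
  have hcwH : 2 * cw H ≤ wid H H := by
    rw [hcw, wid_eq]
    unfold tol
    have : 2^8 ≤ 2^H := Nat.pow_le_pow_right (by norm_num) (by omega)
    calc 2 * (2^19 * H) = 4096 * (2^8 * H) := by ring
      _ ≤ 4096 * (2^H * H) := Nat.mul_le_mul_left _ (Nat.mul_le_mul_right _ this)
  have hwHR := wid_le (H := H) hR
  refine ⟨?_, ?_, ?_⟩
  · intro A hA hA4
    set I' : Finset (Fin (m+1)) := Finset.univ.map (Fin.succEmb m) with hI'
    have hI'c : I'.card = 480 := by rw [hI', Finset.card_map]; simp [hm]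
    have hq : actL p (2 * cw H) {l | (l.map ed).sum ≠ 0}
        ≤ ENNReal.ofReal (2^20 * H * p) := by
      refine (actL_ed p _).trans (le_of_eq ?_)
      rw [ENNReal.ofReal_mul (by positivity), hcw]
      congr 1
      rw [show ((2:ℝ)^20 * (H:ℝ)) = ((2 * (2^19 * H) : ℕ) : ℝ) by push_cast; ring,
        ENNReal.ofReal_natCast]
    have hb := majority_bad p (m := m+1) (M := M) I' (a := A - cw H) (n := 2 * cw H) (by omega)
      {l | (l.map ed).sum ≠ 0} 240 _ hq
    refine (measure_mono ?_).trans (hb.trans ?_)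
    · intro ω hω
      simp only [BVM, Set.mem_ofPred_eq] at hω
      obtain ⟨T, hT1, hT2⟩ := Finset.exists_subset_card_eq (s := Finset.univ.filter
        (fun i : Fin m => ¬ Clean H (ac ω i.succ) A)) (n := 240) (by omega)
      refine ⟨T.map (Fin.succEmb m), ?_, by rw [Finset.card_map, hT2], ?_⟩
      · rw [hI']
        exact Finset.map_subset_map.2 (Finset.subset_univ _)
      · intro i hi
        rw [Finset.mem_map] at hi
        obtain ⟨j, hj, rfl⟩ := hi
        have := hT1 hj
        rw [Finset.mem_filter] at this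
        exact this.2
    · rw [hI'c]
      -- `(4q)^4 ≤ 2^-H`
      have hq4 : (4 * (2^20 * (H:ℝ) * p))^4 ≤ (1/2)^H := by
        have h1 : 2^90 * H^4 ≤ 2^H := by
          have h2 : ∀ k, 200 ≤ k → 2^90 * k^4 ≤ 2^k := by
            intro k hk
            induction k, hk using Nat.le_induction with
            | base => norm_num
            | succ k hk ih =>
              rw [pow_succ 2 k]
              have h3 : (k+1)^4 ≤ 2 * k^4 := by
                have h4 : 200 * k^3 ≤ k^4 := by
                  rw [pow_succ k 3, mul_comm]; exact Nat.mul_le_mul_left _ hk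
                have h5 : k^2 ≤ k^3 := Nat.pow_le_pow_right (by omega) (by norm_num)
                have h6 : k ≤ k^3 := by
                  calc k = k^1 := (pow_one k).symm
                    _ ≤ k^3 := Nat.pow_le_pow_right (by omega) (by norm_num)
                have h7 : 1 ≤ k^3 := Nat.one_le_pow _ _ (by omega)
                nlinarith
              calc 2^90 * (k+1)^4 ≤ 2^90 * (2 * k^4) := Nat.mul_le_mul_left _ h3
                _ = 2^90 * k^4 * 2 := by ring
                _ ≤ 2^k * 2 := Nat.mul_le_mul_right _ ih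
          exact h2 H hH
        have h1r : (2:ℝ)^90 * (H:ℝ)^4 ≤ 2^H := by exact_mod_cast h1
        have h2 : p^4 ≤ 4 * ((1/2)^H * (1/2)^H) := by
          calc p^4 = p^2 * p^2 := by ring
            _ ≤ (2 * (1/2)^H) * (2 * (1/2)^H) := mul_le_mul hpp hpp (by positivity) (by positivity)
            _ = _ := by ring
        have h3 : (2:ℝ)^H * (1/2)^H = 1 := by rw [← mul_pow]; norm_num
        calc (4 * (2^20 * (H:ℝ) * p))^4 = 2^88 * (H:ℝ)^4 * p^4 := by ring
          _ ≤ 2^88 * (H:ℝ)^4 * (4 * ((1/2)^H * (1/2)^H)) :=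
              mul_le_mul_of_nonneg_left h2 (by positivity)
          _ = (2^90 * (H:ℝ)^4) * ((1/2)^H * (1/2)^H) := by ring
          _ ≤ 2^H * ((1/2)^H * (1/2)^H) := mul_le_mul_of_nonneg_right h1r (by positivity)
          _ = (1/2)^H := by rw [← mul_assoc, h3, one_mul]
      have e1 : (2:ℝ≥0∞)^480 * (ENNReal.ofReal (2^20 * H * p))^240
          = ENNReal.ofReal (((4 * (2^20 * (H:ℝ) * p))^4)^60) := by
        have hx0 : 0 ≤ (2:ℝ)^20 * H * p := by positivity
        generalize (2:ℝ)^20 * H * p = x at hx0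
        have e4 : ENNReal.ofReal 4 = (2:ℝ≥0∞)^2 := by
          rw [show (4:ℝ) = 2^2 by norm_num, ENNReal.ofReal_pow (by norm_num)]
          simp
        have e0 : (2:ℝ≥0∞)^480 = (ENNReal.ofReal 4)^240 := by
          rw [e4, ← pow_mul]
        rw [e0, ← pow_mul, show 4 * 60 = 240 by norm_num, ENNReal.ofReal_pow (by positivity),
          ENNReal.ofReal_mul (by norm_num), mul_pow]
      rw [e1]
      have e2 : (2⁻¹:ℝ≥0∞)^(60*H) = ENNReal.ofReal (((1/2)^H)^60) := by
        rw [← pow_mul, ENNReal.ofReal_pow (by norm_num), mul_comm H 60]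
        congr 1
        rw [one_div, ENNReal.ofReal_inv_of_pos (by norm_num)]; simp
      rw [e2]
      apply ENNReal.ofReal_le_ofReal
      exact pow_le_pow_left₀ (by positivity) hq4 60
  · intro A ω ω' h
    have : ∀ i : Fin m, Clean H (ac ω i.succ) A ↔ Clean H (ac ω' i.succ) A := by
      intro i
      unfold Clean edits
      rw [acts_congr (fun j h1 h2 => ac_near h i.succ (by omega) (by omega))]
    simp only [BVM, Set.mem_ofPred_eq, this]
  · intro A ω hA hA4 h1 h2
    simp only [BVM, Set.mem_ofPred_eq, not_le] at h1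
    exact maj_good (by omega) (by omega) (fineE_of h2 0) (fun i => fineE_of h2 i.succ)
      (fineS_of h2) hA hA4 (by omega) (by omega) (by omega) (by omega) h1

end

end W5h82.Trace
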